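import Mathlib

/-!
Symmetric functions, modified Macdonald polynomials, the operators `Q_{m,n}`, the maps `F_{a,b}`
and the elements `E_{d,k}`, as used in MP_0e7911_co.
-/

set_option autoImplicit false

namespace Pool.Agent.Lib.MP_0e7911_co_h56

open Finset

noncomputable section

/-- The algebra of symmetric functions over `K` (a field of characteristic `0`), as the
polynomial ring in the power sums: the variable `X j` is the power sum `p_{j+1}`. -/
abbrev SymF (K : Type*) [Field K] := MvPolynomial ℕ K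

section basic

variable (K : Type*) [Field K]

/-- The power sum `p_k`, `k ≥ 1`. -/
def psum (k : ℕ) : SymF K := MvPolynomial.X (k - 1)

/-- The elementary symmetric function `e_n` (Newton's identities). -/
def elem : ℕ → SymF K
  | 0 => 1
  | n + 1 => MvPolynomial.C (((n + 1 : ℕ) : K)⁻¹) *
      ∑ k : Fin (n + 1), (-1) ^ (k : ℕ) * psum K (k + 1) * elem (n - k)

/-- The complete homogeneous symmetric function `h_n` (Newton's identities). -/
def homog : ℕ → SymF K
  | 0 => 1
  | n + 1 => MvPolynomial.C (((n + 1 : ℕ) : K)⁻¹) *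
      ∑ k : Fin (n + 1), psum K (k + 1) * homog (n - k)

/-- `h_z` for an integer `z`; it is `0` for negative `z`. -/
def homogZ (z : ℤ) : SymF K := if z < 0 then 0 else homog K z.toNat

/-- The Schur function `s_μ` (Jacobi-Trudi formula). -/
def schur (μ : YoungDiagram) : SymF K :=
  Matrix.det (fun i j : Fin (μ.colLen 0) => homogZ K ((μ.rowLen i : ℤ) - (i : ℕ) + (j : ℕ)))

variable {K}

/-- The plethystic substitution `p_k ↦ c_k p_k`. -/
def pleth (c : ℕ → K) : SymF K →ₐ[K] SymF K :=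
  MvPolynomial.aeval (fun j => MvPolynomial.C (c (j + 1)) * MvPolynomial.X j)

end basic

/-- Dominance order: `dom l μ` means `|l| = |μ|` and `l ≥ μ`. -/
def dom (l μ : YoungDiagram) : Prop :=
  l.card = μ.card ∧ ∀ k, ∑ i ∈ range k, μ.rowLen i ≤ ∑ i ∈ range k, l.rowLen i

section macdonald

variable {K : Type*} [Field K]

/-- `H` is the family of modified Macdonald polynomials (Haiman's characterisation):
`H_μ[X(1-q)]` is in the span of the `s_l` with `l ≥ μ`, `H_μ[X(1-t)]` is in the span of the `s_l`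
with `l ≥ μ'` (transpose), and `H_μ[1] = 1`, i.e. the coefficient of `s_{(n)}` is `1`. -/
structure IsModMac (q t : K) (H : YoungDiagram → SymF K) : Prop where
  tri_q : ∀ μ, pleth (fun k => 1 - q ^ k) (H μ) ∈
    Submodule.span K {s : SymF K | ∃ l, dom l μ ∧ s = schur K l}
  tri_t : ∀ μ, pleth (fun k => 1 - t ^ k) (H μ) ∈
    Submodule.span K {s : SymF K | ∃ l, dom l μ.transpose ∧ s = schur K l}
  norm : ∀ μ, MvPolynomial.aeval (fun _ : ℕ => (1 : K)) (H μ) = 1

/-- `B_μ = ∑_{c ∈ μ} q^{a'(c)} t^{l'(c)}`; a cell is `(row, column)`, so that `a'(c)` is its column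
and `l'(c)` is its row (both counted from `0`). -/
def Bmu (q t : K) (μ : YoungDiagram) : K := ∑ c ∈ μ.cells, q ^ c.2 * t ^ c.1

/-- `Δ` is the operator `Δ_{e_1}`: `Δ H_μ = B_μ H_μ`. -/
def IsDelta (q t : K) (H : YoungDiagram → SymF K) (Δ : Module.End K (SymF K)) : Prop :=
  ∀ μ, Δ (H μ) = Bmu q t μ • H μ

/-- `Q` is a family of operators `Q_{m,n}` as in the problem: `Q_{1,0} = id - M Δ`,
`Q_{0,1} = -(multiplication by e_1)`, `M = (1-q)(1-t)`, and for `m, n > 0` the operator `Q_{m,n}` is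
`M⁻¹ (Q_{u,v} Q_{r,s} - Q_{r,s} Q_{u,v})` for some choice of `r+u=m`, `s+v=n`, `rv - su = gcd(m,n)`. -/
structure IsQ (q t : K) (Δ : Module.End K (SymF K)) (Q : ℕ → ℕ → Module.End K (SymF K)) :
    Prop where
  q10 : ∀ f, Q 1 0 f = f - ((1 - q) * (1 - t)) • Δ f
  q01 : ∀ f, Q 0 1 f = -(elem K 1 * f)
  qmn : ∀ m n, 0 < m → 0 < n → ∃ r s u v, r + u = m ∧ s + v = n ∧ r * v = s * u + Nat.gcd m n ∧
    Q m n = ((1 - q) * (1 - t))⁻¹ • (Q u v * Q r s - Q r s * Q u v)

/-- `(qt/(qt-1))^{ℓ(l)} h_l[(1-qt)/(qt) X]`. -/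
def gfun (q t : K) (l : YoungDiagram) : SymF K :=
  (q * t / (q * t - 1)) ^ l.rowLens.length •
    (l.rowLens.map (fun r => pleth (fun k => (1 - (q * t) ^ k) / (q * t) ^ k) (homog K r))).prod

/-- `F` is the linear map `F_{a,b}`: it sends `(qt/(qt-1))^{ℓ(l)} h_l[(1-qt)/(qt) X]` to
`(∏_i Q_{l_i a, l_i b})(1)`. -/
def IsF (q t : K) (Q : ℕ → ℕ → Module.End K (SymF K)) (a b : ℕ)
    (F : Module.End K (SymF K)) : Prop :=
  ∀ l : YoungDiagram, F (gfun q t l) = (l.rowLens.map (fun r => Q (r * a) (r * b))).prod 1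

/-- The `q`-Pochhammer symbol `(z;q)_k` as a polynomial in `z`. -/
def pochz (q : K) (k : ℕ) : Polynomial K := ∏ i ∈ range k, (1 - Polynomial.C (q ^ i) * Polynomial.X)

/-- `(q;q)_k`. -/
def pochq (q : K) (k : ℕ) : K := ∏ i ∈ range k, (1 - q ^ (i + 1))

/-- The plethystic substitution `f ↦ f[X (1-z)/(1-q)]`, with values in the polynomials in `z`. -/
def phiz (q : K) : SymF K →ₐ[K] Polynomial (SymF K) :=
  MvPolynomial.aeval (fun j => Polynomial.C (MvPolynomial.C ((1 - q ^ (j + 1))⁻¹) *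
    MvPolynomial.X j) * (1 - Polynomial.X ^ (j + 1)))

/-- `E k = E_{d,k}`: `e_d[X (1-z)/(1-q)] = ∑_{k=1}^d (z;q)_k/(q;q)_k E_{d,k}`. -/
def IsE (q : K) (d : ℕ) (E : ℕ → SymF K) : Prop :=
  phiz q (elem K d) = ∑ k ∈ Icc 1 d,
    (pochz q k).map (algebraMap K (SymF K)) * Polynomial.C ((pochq q k)⁻¹ • E k)

/-- The `q`-integer `[k]_q = 1 + q + ... + q^{k-1}`. -/
def qint (q : K) (k : ℕ) : K := ∑ i ∈ range k, q ^ i

/-! ### the identity `(-1)^{d-1} p_d = ∑_k [d]/[k] E_{d,k}` -/

/-- evaluation at `z = 1` after the substitution kills every power sum -/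
lemma phiz_eval_one (q : K) (f : SymF K) :
    (phiz q f).eval 1 = MvPolynomial.C (MvPolynomial.constantCoeff f) := by
  have h : (Polynomial.evalRingHom (1 : SymF K)).comp (phiz q).toRingHom =
      (MvPolynomial.C : K →+* SymF K).comp MvPolynomial.constantCoeff := by
    apply MvPolynomial.ringHom_ext
    · intro r
      simp [phiz]
    · intro i
      simp [phiz]
  have := congrArg (fun g => g f) h
  simpa using this

lemma elem_const {n : ℕ} (hn : 0 < n) :
    MvPolynomial.constantCoeff (elem K n) = 0 := by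
  obtain ⟨m, rfl⟩ : ∃ m, n = m + 1 := ⟨n - 1, by omega⟩
  rw [elem]
  simp [psum]

lemma deriv_phiz_elem (q : K) [CharZero K] {d : ℕ} (hd : 0 < d) :
    (Polynomial.derivative (phiz q (elem K d))).eval 1 =
      -((1 - q ^ d)⁻¹ • ((-1) ^ (d - 1) * psum K d)) := by
  obtain ⟨n, rfl⟩ : ∃ m, d = m + 1 := ⟨d - 1, by omega⟩
  have hne : ((n + 1 : ℕ) : K) ≠ 0 := by exact_mod_cast Nat.succ_ne_zero n
  have key : ∀ k : Fin (n + 1), (Polynomial.derivative
      (phiz q ((-1) ^ (k : ℕ) * psum K (k + 1) * elem K (n - k)))).eval 1 =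
      if (k : ℕ) = n then -(((n + 1 : ℕ) : K) • ((1 - q ^ (n + 1))⁻¹ •
        ((-1) ^ n * psum K (n + 1)))) else 0 := by
    intro k
    have h1 : (phiz q (elem K (n - k))).eval 1 = if (k : ℕ) = n then 1 else 0 := by
      rw [phiz_eval_one]
      split_ifs with hk
      · rw [hk, Nat.sub_self, elem]; simp
      · rw [elem_const (by omega)]; simp
    have h2 : (phiz q (psum K (k + 1))).eval 1 = 0 := by
      rw [phiz_eval_one]; simp [psum]
    have h3 : phiz q (psum K (k + 1)) = Polynomial.C (MvPolynomial.C ((1 - q ^ ((k : ℕ) + 1))⁻¹) *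
        psum K (k + 1)) * (1 - Polynomial.X ^ ((k : ℕ) + 1)) := by
      simp [phiz, psum]
    have h4 : (Polynomial.derivative (phiz q (psum K (k + 1)))).eval 1 =
        -(MvPolynomial.C ((1 - q ^ ((k : ℕ) + 1))⁻¹) * psum K (k + 1) *
          (((k : ℕ) : SymF K) + 1)) := by
      rw [h3]
      simp [Polynomial.derivative_mul]
      ring
    have h6 : phiz q ((-1) ^ (k : ℕ) * psum K (k + 1) * elem K (n - k)) =
        (-1) ^ (k : ℕ) * phiz q (psum K (k + 1)) * phiz q (elem K (n - k)) := by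
      rw [map_mul, map_mul, map_pow, map_neg, map_one]
    rw [h6, Polynomial.derivative_mul, Polynomial.derivative_mul]
    have h5 : Polynomial.derivative ((-1 : Polynomial (SymF K)) ^ (k : ℕ)) = 0 := by
      rcases neg_one_pow_eq_or (Polynomial (SymF K)) (k : ℕ) with h | h <;> rw [h] <;> simp
    rw [h5]
    simp only [Polynomial.eval_add, Polynomial.eval_mul, h1, h2, h4, Polynomial.eval_pow,
      Polynomial.eval_neg, Polynomial.eval_one, zero_mul, mul_zero, zero_add, add_zero]
    split_ifs with hk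
    · rw [hk, MvPolynomial.smul_eq_C_mul, MvPolynomial.smul_eq_C_mul]
      push_cast
      rw [map_add, map_natCast, map_one]
      ring
    · ring
  rw [elem, map_mul]
  have hC : phiz q (MvPolynomial.C (((n + 1 : ℕ) : K)⁻¹)) =
      Polynomial.C (MvPolynomial.C (((n + 1 : ℕ) : K)⁻¹)) := by
    exact (phiz q).commutes (((n + 1 : ℕ) : K)⁻¹)
  rw [hC, Polynomial.derivative_C_mul, Polynomial.eval_mul, Polynomial.eval_C, map_sum,
    Polynomial.derivative_sum, Polynomial.eval_finsetSum, Finset.sum_congr rfl (fun k _ => key k)]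
  have hs : (∑ k : Fin (n + 1), if (k : ℕ) = n then -(((n + 1 : ℕ) : K) • ((1 - q ^ (n + 1))⁻¹ •
        ((-1) ^ n * psum K (n + 1)))) else 0) = -(((n + 1 : ℕ) : K) • ((1 - q ^ (n + 1))⁻¹ •
        ((-1) ^ n * psum K (n + 1)))) := by
    rw [Finset.sum_eq_single (Fin.last n)]
    · simp
    · intro k _ hk
      rw [if_neg]
      intro h
      exact hk (Fin.ext h)
    · intro h; exact absurd (mem_univ _) h
  rw [hs, mul_neg, ← MvPolynomial.smul_eq_C_mul, smul_smul, inv_mul_cancel₀ hne, one_smul]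
  simp

lemma deriv_pochz (q : K) {k : ℕ} (hk : 0 < k) :
    (Polynomial.derivative (pochz q k)).eval 1 = -(pochq q (k - 1)) := by
  obtain ⟨n, rfl⟩ : ∃ m, k = m + 1 := ⟨k - 1, by omega⟩
  unfold pochz
  rw [Finset.prod_range_succ', Polynomial.derivative_mul]
  simp only [Polynomial.eval_add, Polynomial.eval_mul, Polynomial.eval_sub, Polynomial.eval_one,
    Polynomial.eval_C, Polynomial.eval_X, pow_zero, mul_one, sub_self, mul_zero, zero_add,
    Polynomial.derivative_sub, Polynomial.derivative_one, Polynomial.derivative_C_mul,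
    Polynomial.derivative_X, Polynomial.eval_prod, add_tsub_cancel_right, map_one, one_mul,
    Polynomial.eval_zero, Polynomial.eval_neg, zero_sub, mul_neg]
  rfl

lemma one_sub_pow_eq (q : K) (k : ℕ) : 1 - q ^ k = (1 - q) * qint q k := by
  unfold qint
  rw [mul_comm, ← mul_neg_geom_sum, mul_comm]

/-- `(-1)^{d-1} p_d = ∑_{k=1}^d [d]_q/[k]_q E_{d,k}`. -/
theorem psum_eq_sum_E (q : K) [CharZero K] (hq : ∀ k, 0 < k → q ^ k ≠ 1) {d : ℕ} (hd : 0 < d)
    (E : ℕ → SymF K) (hE : IsE q d E) :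
    (-1) ^ (d - 1) * psum K d = ∑ k ∈ Icc 1 d, (qint q d / qint q k) • E k := by
  have hq1 : ∀ k, 0 < k → (1 : K) - q ^ k ≠ 0 := fun k hk h => hq k hk (sub_eq_zero.1 h).symm
  have h := congrArg (fun f : Polynomial (SymF K) => (Polynomial.derivative f).eval 1) hE
  beta_reduce at h
  rw [deriv_phiz_elem q hd, Polynomial.derivative_sum, Polynomial.eval_finsetSum] at h
  have hk : ∀ k ∈ Icc 1 d, (Polynomial.derivative ((pochz q k).map (algebraMap K (SymF K)) *
      Polynomial.C ((pochq q k)⁻¹ • E k))).eval 1 = -((1 - q ^ k)⁻¹ • E k) := by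
    intro k hk
    rw [mem_Icc] at hk
    have h0 : 0 < k := hk.1
    rw [Polynomial.derivative_mul, Polynomial.derivative_C, mul_zero, add_zero,
      Polynomial.derivative_map, Polynomial.eval_mul, Polynomial.eval_C]
    have : ((Polynomial.derivative (pochz q k)).map (algebraMap K (SymF K))).eval 1 =
        algebraMap K (SymF K) ((Polynomial.derivative (pochz q k)).eval 1) := by
      rw [← map_one (algebraMap K (SymF K)), Polynomial.eval_map_algebraMap,
        Polynomial.aeval_algebraMap_apply]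
      simp [Polynomial.aeval_def]
    rw [this, deriv_pochz q h0]
    obtain ⟨j, rfl⟩ : ∃ m, k = m + 1 := ⟨k - 1, by omega⟩
    have hpq : pochq q (j + 1) = pochq q j * (1 - q ^ (j + 1)) := by
      unfold pochq; rw [Finset.prod_range_succ]
    have hp : pochq q j ≠ 0 := by
      unfold pochq
      rw [Finset.prod_ne_zero_iff]
      intro i _
      exact hq1 _ (Nat.succ_pos i)
    rw [hpq, Nat.add_sub_cancel, map_neg, neg_mul, ← Algebra.smul_def, smul_smul, mul_inv,
      ← mul_assoc, mul_inv_cancel₀ hp, one_mul]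
  rw [Finset.sum_congr rfl hk, Finset.sum_neg_distrib, neg_inj] at h
  have h' := congrArg (fun f : SymF K => (1 - q ^ d) • f) h
  beta_reduce at h'
  rw [smul_smul, mul_inv_cancel₀ (hq1 d hd), one_smul, Finset.smul_sum] at h'
  rw [h']
  refine Finset.sum_congr rfl (fun k hk => ?_)
  rw [mem_Icc] at hk
  have hk1 := hq1 k hk.1
  have h1q : 1 - q ≠ 0 := by simpa using hq1 1 one_pos
  have hqk : qint q k ≠ 0 := by
    intro h0
    apply hk1
    rw [one_sub_pow_eq, h0, mul_zero]
  rw [smul_smul]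
  congr 1
  rw [one_sub_pow_eq q d, one_sub_pow_eq q k]
  field_simp

end macdonald

end

end Pool.Agent.Lib.MP_0e7911_co_h56
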