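import Pool.Agent.Lib.MP_0e7911_co_h56.NonVacQ

/-!
# The functions `(qt/(qt-1))^{ℓ(l)} h_l[(1-qt)/(qt) X]` are a basis; existence and uniqueness
of the map `F_{a,b}`
-/

set_option autoImplicit false

namespace Pool.Agent.Lib.MP_0e7911_co_h56

open Finset

noncomputable section

section triangular

variable {K : Type*} [Field K]

/-- the subalgebra generated by the first `n` variables -/
def low (K : Type*) [Field K] (n : ℕ) : Subalgebra K (SymF K) :=
  Algebra.adjoin K {x | ∃ i, i < n ∧ x = MvPolynomial.X i}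

theorem X_mem_low {i n : ℕ} (h : i < n) : (MvPolynomial.X i : SymF K) ∈ low K n :=
  Algebra.subset_adjoin ⟨i, h, rfl⟩

theorem low_mono {m n : ℕ} (h : m ≤ n) : low K m ≤ low K n :=
  Algebra.adjoin_mono (by rintro x ⟨i, hi, rfl⟩; exact ⟨i, lt_of_lt_of_le hi h, rfl⟩)

theorem C_mem_low (n : ℕ) (c : K) : (MvPolynomial.C c : SymF K) ∈ low K n :=
  Subalgebra.algebraMap_mem _ c

/-- a triangular system of generators -/
def Tri (c : ℕ → K) (w : ℕ → SymF K) : Prop := (∀ j, c j ≠ 0) ∧ ∀ j, w j ∈ low K j

/-- the endomorphism of a triangular system -/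
def triT (c : ℕ → K) (w : ℕ → SymF K) : SymF K →ₐ[K] SymF K :=
  MvPolynomial.aeval (fun j => MvPolynomial.C (c j) * MvPolynomial.X j + w j)

theorem triT_X (c : ℕ → K) (w : ℕ → SymF K) (j : ℕ) :
    triT c w (MvPolynomial.X j) = MvPolynomial.C (c j) * MvPolynomial.X j + w j := by
  unfold triT; rw [MvPolynomial.aeval_X]

/-- triangular endomorphisms are surjective -/
theorem triT_surj {c : ℕ → K} {w : ℕ → SymF K} (h : Tri c w) :
    Function.Surjective (triT c w) := by
  have key : ∀ j, (MvPolynomial.X j : SymF K) ∈ (triT c w).range := by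
    intro j
    induction j using Nat.strong_induction_on with
    | _ j ih =>
      have h1 : low K j ≤ (triT c w).range := by
        refine Algebra.adjoin_le ?_
        rintro x ⟨i, hi, rfl⟩
        exact ih i hi
      have h2 : (MvPolynomial.X j : SymF K) =
          MvPolynomial.C (c j)⁻¹ * (triT c w (MvPolynomial.X j) - w j) := by
        rw [triT_X, add_sub_cancel_right, ← mul_assoc, ← map_mul, inv_mul_cancel₀ (h.1 j), map_one,
          one_mul]
      rw [h2]
      refine mul_mem (Subalgebra.algebraMap_mem _ _) (sub_mem ⟨_, rfl⟩ (h1 (h.2 j)))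
  intro f
  have hf : f ∈ (triT c w).range := by
    induction f using MvPolynomial.induction_on with
    | C a => exact Subalgebra.algebraMap_mem _ a
    | add p q hp hq => exact add_mem hp hq
    | mul_X p i hp => exact mul_mem hp (key i)
  exact hf

/-- the preimages of the variables -/
def triY (c : ℕ → K) (w : ℕ → SymF K) : ℕ → SymF K
  | j => MvPolynomial.C (c j)⁻¹ * (MvPolynomial.X j -
      MvPolynomial.aeval (fun i : ℕ => if h : i < j then triY c w i else 0) (w j))

theorem triT_triY {c : ℕ → K} {w : ℕ → SymF K} (h : Tri c w) (j : ℕ) :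
    triT c w (triY c w j) = MvPolynomial.X j := by
  induction j using Nat.strong_induction_on with
  | _ j ih =>
    rw [triY]
    have h1 : triT c w (MvPolynomial.aeval (fun i : ℕ => if h : i < j then triY c w i else 0)
        (w j)) = w j := by
      have h2 : Set.EqOn ((triT c w).comp (MvPolynomial.aeval
          (fun i : ℕ => if h : i < j then triY c w i else 0))) (AlgHom.id K (SymF K))
          (low K j : Set (SymF K)) := by
        unfold low
        rw [AlgHom.eqOn_adjoin_iff]
        rintro x ⟨i, hi, rfl⟩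
        rw [AlgHom.comp_apply, MvPolynomial.aeval_X, dif_pos hi, ih i hi]
        rfl
      exact h2 (h.2 j)
    have hC : triT c w (MvPolynomial.C (c j)⁻¹) = MvPolynomial.C (c j)⁻¹ :=
      (triT c w).commutes (c j)⁻¹
    rw [map_mul, hC, map_sub, h1, triT_X, add_sub_cancel_right, ← mul_assoc, ← map_mul,
      inv_mul_cancel₀ (h.1 j), map_one, one_mul]

theorem triY_mem {c : ℕ → K} {w : ℕ → SymF K} (h : Tri c w) (j : ℕ) :
    triY c w j ∈ low K (j + 1) := by
  induction j using Nat.strong_induction_on with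
  | _ j ih =>
    rw [triY]
    refine mul_mem (C_mem_low _ _) (sub_mem (X_mem_low (Nat.lt_succ_self j)) ?_)
    have h1 : low K j ≤ (low K (j + 1)).comap (MvPolynomial.aeval
        (fun i : ℕ => if h : i < j then triY c w i else 0)) := by
      refine Algebra.adjoin_le ?_
      rintro x ⟨i, hi, rfl⟩
      rw [SetLike.mem_coe, Subalgebra.mem_comap, MvPolynomial.aeval_X, dif_pos hi]
      exact low_mono (by omega) (ih i hi)
    exact h1 (h.2 j)

theorem triY_tri {c : ℕ → K} {w : ℕ → SymF K} (h : Tri c w) :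
    Tri (fun j => (c j)⁻¹) (fun j => - (MvPolynomial.C (c j)⁻¹ *
      MvPolynomial.aeval (fun i : ℕ => if h : i < j then triY c w i else 0) (w j))) := by
  refine ⟨fun j => inv_ne_zero (h.1 j), fun j => neg_mem (mul_mem (C_mem_low _ _) ?_)⟩
  have h1 : low K j ≤ (low K j).comap (MvPolynomial.aeval
      (fun i : ℕ => if h : i < j then triY c w i else 0)) := by
    refine Algebra.adjoin_le ?_
    rintro x ⟨i, hi, rfl⟩
    rw [SetLike.mem_coe, Subalgebra.mem_comap, MvPolynomial.aeval_X, dif_pos hi]
    exact low_mono (by omega) (triY_mem h i)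
  exact h1 (h.2 j)

/-- triangular endomorphisms are injective -/
theorem triT_inj {c : ℕ → K} {w : ℕ → SymF K} (h : Tri c w) :
    Function.Injective (triT c w) := by
  set U : SymF K →ₐ[K] SymF K := triT (fun j => (c j)⁻¹) (fun j => - (MvPolynomial.C (c j)⁻¹ *
      MvPolynomial.aeval (fun i : ℕ => if h : i < j then triY c w i else 0) (w j))) with hU
  have hUX : ∀ j, U (MvPolynomial.X j) = triY c w j := by
    intro j
    rw [hU, triT_X, triY]
    ring
  have hTU : ∀ f, triT c w (U f) = f := by
    intro f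
    have : (triT c w).comp U = AlgHom.id K (SymF K) := by
      apply MvPolynomial.algHom_ext
      intro j
      rw [AlgHom.comp_apply, hUX, triT_triY h]
      rfl
    exact DFunLike.congr_fun this f
  have hUs : Function.Surjective U := triT_surj (triY_tri h)
  intro f g hfg
  obtain ⟨f', rfl⟩ := hUs f
  obtain ⟨g', rfl⟩ := hUs g
  rw [hTU, hTU] at hfg
  rw [hfg]

end triangular

section gbasis

variable {K : Type*} [Field K]

theorem homog_succ (n : ℕ) : homog K (n + 1) = MvPolynomial.C (((n + 1 : ℕ) : K)⁻¹) *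
      ∑ k : Fin (n + 1), psum K (k + 1) * homog K (n - k) := by
  rw [homog]

theorem homog_mem (n : ℕ) : homog K n ∈ low K n := by
  induction n using Nat.strong_induction_on with
  | _ n ih =>
    rcases n with _ | n
    · rw [homog]; exact one_mem _
    · rw [homog_succ]
      refine mul_mem (C_mem_low _ _) (sum_mem fun k _ => mul_mem ?_ ?_)
      · unfold psum
        exact X_mem_low (by have := k.2; omega)
      · exact low_mono (by omega) (ih (n - k) (by have := k.2; omega))

/-- the lower part of `h_{n+1}` -/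
def homLow (K : Type*) [Field K] (n : ℕ) : SymF K :=
  MvPolynomial.C (((n + 1 : ℕ) : K)⁻¹) * ∑ k : Fin n, psum K (k + 1) * homog K (n - k)

theorem homLow_mem (n : ℕ) : homLow K n ∈ low K n := by
  refine mul_mem (C_mem_low _ _) (sum_mem fun k _ => mul_mem ?_ ?_)
  · unfold psum
    exact X_mem_low (by have := k.2; omega)
  · exact low_mono (by omega) (homog_mem (n - k))

theorem homog_eq (n : ℕ) : homog K (n + 1) =
    MvPolynomial.C (((n + 1 : ℕ) : K)⁻¹) * MvPolynomial.X n + homLow K n := by
  rw [homog_succ, Fin.sum_univ_castSucc]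
  unfold homLow
  have h1 : psum K ((Fin.last n : ℕ) + 1) * homog K (n - (Fin.last n : ℕ)) =
      MvPolynomial.X n := by
    rw [Fin.val_last, Nat.sub_self, homog, mul_one]
    unfold psum
    rfl
  rw [h1, mul_add, add_comm]
  rfl

/-- `g_r = (qt/(qt-1)) h_r[(1-qt)/(qt) X]` -/
def gg (q t : K) (r : ℕ) : SymF K :=
  (q * t / (q * t - 1)) • pleth (fun k => (1 - (q * t) ^ k) / (q * t) ^ k) (homog K r)

theorem gfun_eq_prod (q t : K) (l : YoungDiagram) :
    gfun q t l = (l.rowLens.map (gg q t)).prod := by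
  unfold gfun
  generalize l.rowLens = L
  induction L with
  | nil => simp
  | cons r L ih =>
    rw [List.map_cons, List.prod_cons, List.map_cons, List.prod_cons, ← ih, List.length_cons]
    unfold gg
    rw [pow_succ, smul_mul_smul_comm, mul_comm]

/-- leading coefficient -/
def gc (q t : K) (j : ℕ) : K :=
  (q * t / (q * t - 1)) * ((((j + 1 : ℕ) : K)⁻¹) * ((1 - (q * t) ^ (j + 1)) / (q * t) ^ (j + 1)))

/-- lower part -/
def gw (q t : K) (j : ℕ) : SymF K :=
  (q * t / (q * t - 1)) • pleth (fun k => (1 - (q * t) ^ k) / (q * t) ^ k) (homLow K j)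

theorem gg_eq (q t : K) (j : ℕ) :
    gg q t (j + 1) = MvPolynomial.C (gc q t j) * MvPolynomial.X j + gw q t j := by
  unfold gg gw gc
  rw [homog_eq, map_add, smul_add, map_mul]
  congr 1
  have hC : pleth (fun k => (1 - (q * t) ^ k) / (q * t) ^ k)
      (MvPolynomial.C (((j + 1 : ℕ) : K)⁻¹)) = MvPolynomial.C (((j + 1 : ℕ) : K)⁻¹) :=
    (pleth (fun k => (1 - (q * t) ^ k) / (q * t) ^ k)).commutes _
  rw [hC]
  unfold pleth
  rw [MvPolynomial.aeval_X, MvPolynomial.smul_eq_C_mul, map_mul, map_mul]
  ring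

theorem pleth_low (c : ℕ → K) (n : ℕ) {f : SymF K} (hf : f ∈ low K n) : pleth c f ∈ low K n := by
  have h1 : low K n ≤ (low K n).comap (pleth c) := by
    refine Algebra.adjoin_le ?_
    rintro x ⟨i, hi, rfl⟩
    rw [SetLike.mem_coe, Subalgebra.mem_comap]
    unfold pleth
    rw [MvPolynomial.aeval_X]
    exact mul_mem (C_mem_low _ _) (X_mem_low hi)
  exact h1 hf

theorem gg_tri [CharZero K] (q t : K) (hp : ∀ k : ℕ, 0 < k → (q * t) ^ k ≠ 1) (hp0 : q * t ≠ 0) :
    Tri (gc q t) (gw q t) := by
  refine ⟨fun j => ?_, fun j => ?_⟩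
  · unfold gc
    have h1 : q * t - 1 ≠ 0 := by
      have := hp 1 one_pos
      rw [pow_one] at this
      exact sub_ne_zero.2 this
    have h2 : (((j + 1 : ℕ) : K)) ≠ 0 := by exact_mod_cast Nat.succ_ne_zero j
    have h3 : 1 - (q * t) ^ (j + 1) ≠ 0 := sub_ne_zero.2 (hp (j + 1) (Nat.succ_pos j)).symm
    exact mul_ne_zero (div_ne_zero hp0 h1) (mul_ne_zero (inv_ne_zero h2)
      (div_ne_zero h3 (pow_ne_zero _ hp0)))
  · unfold gw
    exact Subalgebra.smul_mem _ (pleth_low _ j (homLow_mem j)) _

/-- the monomial of a Young diagram -/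
def ydMon (l : YoungDiagram) : ℕ →₀ ℕ :=
  Multiset.toFinsupp (Multiset.map (fun r => r - 1) (l.rowLens : Multiset ℕ))

theorem ydMon_inj : Function.Injective ydMon := by
  intro l l' h
  unfold ydMon at h
  have h1 := Multiset.toFinsupp.injective h
  have h2 := congrArg (Multiset.map (fun r => r + 1)) h1
  rw [Multiset.map_map, Multiset.map_map] at h2
  have h3 : ∀ l : YoungDiagram, Multiset.map ((fun r => r + 1) ∘ fun r => r - 1)
      (l.rowLens : Multiset ℕ) = (l.rowLens : Multiset ℕ) := by
    intro l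
    conv_rhs => rw [← Multiset.map_id (l.rowLens : Multiset ℕ)]
    refine Multiset.map_congr rfl fun r hr => ?_
    have := YoungDiagram.pos_of_mem_rowLens l r (Multiset.mem_coe.1 hr)
    simp only [Function.comp_apply, id_eq]
    omega
  rw [h3, h3, Multiset.coe_eq_coe] at h2
  have h4 : l.rowLens = l'.rowLens :=
    h2.eq_of_sortedGE l.rowLens_sorted l'.rowLens_sorted
  have h5 : YoungDiagram.equivListRowLens l = YoungDiagram.equivListRowLens l' :=
    Subtype.ext h4
  exact YoungDiagram.equivListRowLens.injective h5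

theorem ydMon_surj : Function.Surjective ydMon := by
  intro s
  set M : Multiset ℕ := Multiset.map (fun r => r + 1) (Finsupp.toMultiset s) with hM
  have hs : (M.sort (fun a b => b ≤ a)).SortedGE :=
    (Multiset.pairwise_sort M (fun a b => b ≤ a)).sortedGE
  have hpos : ∀ x ∈ M.sort (fun a b => b ≤ a), 0 < x := by
    intro x hx
    rw [Multiset.mem_sort, hM, Multiset.mem_map] at hx
    obtain ⟨y, _, rfl⟩ := hx
    omega
  refine ⟨YoungDiagram.ofRowLens _ hs, ?_⟩
  unfold ydMon
  rw [YoungDiagram.rowLens_ofRowLens_eq_self hpos, Multiset.sort_eq, hM, Multiset.map_map]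
  have : (fun r => r - 1) ∘ (fun r : ℕ => r + 1) = id := by
    funext r; simp
  rw [this, Multiset.map_id]
  exact Finsupp.toMultiset_toFinsupp s

theorem gfun_eq_triT [CharZero K] (q t : K) (l : YoungDiagram) :
    gfun q t l = triT (gc q t) (gw q t) (MvPolynomial.monomial (ydMon l) 1) := by
  have h1 : (MvPolynomial.monomial (ydMon l) (1 : K) : SymF K) =
      ((l.rowLens.map (fun r => (MvPolynomial.X (r - 1) : SymF K)))).prod := by
    unfold ydMon
    generalize l.rowLens = L
    induction L with
    | nil => simp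
    | cons r L ih =>
      rw [List.map_cons, List.prod_cons, ← ih, ← Multiset.cons_coe, Multiset.map_cons,
        ← Multiset.singleton_add, Multiset.toFinsupp_add, Multiset.toFinsupp_singleton,
        MvPolynomial.X, MvPolynomial.monomial_mul, one_mul]
  rw [h1, map_list_prod, List.map_map, gfun_eq_prod]
  congr 1
  refine List.map_congr_left fun r hr => ?_
  have := YoungDiagram.pos_of_mem_rowLens l r hr
  rw [Function.comp_apply, triT_X, ← gg_eq]
  congr 1
  omega

theorem gfun_li [CharZero K] (q t : K) (hp : ∀ k : ℕ, 0 < k → (q * t) ^ k ≠ 1)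
    (hp0 : q * t ≠ 0) : LinearIndependent K (gfun q t) := by
  have h1 : LinearIndependent K (fun l : YoungDiagram =>
      (MvPolynomial.monomial (ydMon l) (1 : K) : SymF K)) := by
    have h2 := (MvPolynomial.basisMonomials ℕ K).linearIndependent.comp ydMon ydMon_inj
    rw [MvPolynomial.coe_basisMonomials] at h2
    exact h2
  have h3 := h1.map' (triT (gc q t) (gw q t)).toLinearMap
    (LinearMap.ker_eq_bot.2 (triT_inj (gg_tri q t hp hp0)))
  have h4 : (fun l => (triT (gc q t) (gw q t)).toLinearMap
      (MvPolynomial.monomial (ydMon l) (1 : K))) = gfun q t := by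
    funext l
    rw [gfun_eq_triT]
    rfl
  rw [← h4]
  exact h3

theorem gfun_span [CharZero K] (q t : K) (hp : ∀ k : ℕ, 0 < k → (q * t) ^ k ≠ 1)
    (hp0 : q * t ≠ 0) : Submodule.span K (Set.range (gfun q t)) = ⊤ := by
  have h1 : Submodule.span K (Set.range (fun l : YoungDiagram =>
      (MvPolynomial.monomial (ydMon l) (1 : K) : SymF K))) = ⊤ := by
    have h2 := (MvPolynomial.basisMonomials ℕ K).span_eq
    rw [MvPolynomial.coe_basisMonomials] at h2
    rw [← h2]
    congr 1
    ext x
    constructor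
    · rintro ⟨l, rfl⟩; exact ⟨ydMon l, rfl⟩
    · rintro ⟨s, rfl⟩
      obtain ⟨l, rfl⟩ := ydMon_surj s
      exact ⟨l, rfl⟩
  have h3 : gfun q t = (triT (gc q t) (gw q t)).toLinearMap ∘ (fun l : YoungDiagram =>
      (MvPolynomial.monomial (ydMon l) (1 : K) : SymF K)) := by
    funext l
    rw [gfun_eq_triT]
    rfl
  rw [h3, Set.range_comp, Submodule.span_image, h1, Submodule.map_top, LinearMap.range_eq_top]
  exact triT_surj (gg_tri q t hp hp0)

/-- The map `F_{a,b}` exists. -/
theorem exists_F [CharZero K] (q t : K) (hp : ∀ k : ℕ, 0 < k → (q * t) ^ k ≠ 1)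
    (hp0 : q * t ≠ 0) (Q : ℕ → ℕ → Module.End K (SymF K)) (a b : ℕ) :
    ∃ F, IsF q t Q a b F := by
  have hli := gfun_li q t hp hp0
  obtain ⟨F, hF⟩ := LinearMap.exists_extend ((Module.Basis.span hli).constr K
    (fun l : YoungDiagram => (l.rowLens.map (fun r => Q (r * a) (r * b))).prod (1 : SymF K)))
  refine ⟨F, fun l => ?_⟩
  have h1 := LinearMap.congr_fun hF (Module.Basis.span hli l)
  rw [Module.Basis.constr_basis, LinearMap.comp_apply, Submodule.subtype_apply,
    Module.Basis.span_apply] at h1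
  exact h1

/-- The map `F_{a,b}` is unique. -/
theorem unique_F [CharZero K] (q t : K) (hp : ∀ k : ℕ, 0 < k → (q * t) ^ k ≠ 1)
    (hp0 : q * t ≠ 0) (Q : ℕ → ℕ → Module.End K (SymF K)) (a b : ℕ)
    (F F' : Module.End K (SymF K)) (hF : IsF q t Q a b F) (hF' : IsF q t Q a b F') : F = F' := by
  refine LinearMap.ext_on (gfun_span q t hp hp0) ?_
  rintro x ⟨l, rfl⟩
  rw [hF l, hF' l]

end gbasis

end

end Pool.Agent.Lib.MP_0e7911_co_h56
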