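import Pool.Agent.Lib.MP_0e7911_co_h56.SymF

/-!
# Existence of the operators `Q_{m,n}`
-/

set_option autoImplicit false

namespace Pool.Agent.Lib.MP_0e7911_co_h56

open Finset

noncomputable section

/-- the splitting of `(m, n)` -/
theorem exists_split (m n : ℕ) (hm : 0 < m) (hn : 0 < n) :
    ∃ x : (ℕ × ℕ) × (ℕ × ℕ), x.1.1 + x.2.1 = m ∧ x.1.2 + x.2.2 = n ∧
      x.1.1 * x.2.2 = x.1.2 * x.2.1 + Nat.gcd m n ∧
      x.1.1 + x.1.2 < m + n ∧ x.2.1 + x.2.2 < m + n := by
  set d := Nat.gcd m n with hd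
  have hd0 : 0 < d := Nat.gcd_pos_of_pos_left n hm
  obtain ⟨a, ha⟩ : d ∣ m := Nat.gcd_dvd_left m n
  obtain ⟨b, hb⟩ : d ∣ n := Nat.gcd_dvd_right m n
  have ha0 : 0 < a := Nat.pos_of_ne_zero (by rintro rfl; omega)
  have hb0 : 0 < b := Nat.pos_of_ne_zero (by rintro rfl; omega)
  have hcop : IsCoprime (a : ℤ) (b : ℤ) := by
    rw [Nat.isCoprime_iff_coprime]
    have h1 : d * Nat.gcd a b = d * 1 := by
      rw [← Nat.gcd_mul_left, ← ha, ← hb, mul_one]
    exact Nat.eq_of_mul_eq_mul_left hd0 h1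
  obtain ⟨u, v, huv⟩ := hcop
  -- `u a + v b = 1`
  have haz : (0 : ℤ) < a := by exact_mod_cast ha0
  have hbz : (0 : ℤ) < b := by exact_mod_cast hb0
  set r : ℤ := (v - 1) % a + 1 with hr
  have hr1 : 1 ≤ r := by
    have := Int.emod_nonneg (v - 1) haz.ne'
    omega
  have hr2 : r ≤ a := by
    have := Int.emod_lt_of_pos (v - 1) haz
    omega
  obtain ⟨s, hs⟩ : ∃ s : ℤ, r * b = s * a + 1 := by
    have h1 : r = v - a * ((v - 1) / a) := by
      rw [hr, Int.emod_def]; ring
    refine ⟨-(u + b * ((v - 1) / a)), ?_⟩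
    rw [h1]
    linear_combination huv
  have hs0 : 0 ≤ s := by
    by_contra hcon
    have h1 : s ≤ -1 := by omega
    have h2 : 1 ≤ r * b := by nlinarith
    nlinarith
  have hs1 : s < b := by
    by_contra hcon
    have h1 : (b : ℤ) ≤ s := by omega
    nlinarith
  lift r to ℕ using by omega with r' hr'
  lift s to ℕ using hs0 with s' hs'
  have hs'' : r' * b = s' * a + 1 := by exact_mod_cast hs
  have hr1' : 1 ≤ r' := by exact_mod_cast hr1
  have hr2' : r' ≤ a := by exact_mod_cast hr2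
  have hs1' : s' < b := by exact_mod_cast hs1
  have ham : a ≤ m := by rw [ha]; exact Nat.le_mul_of_pos_left a hd0
  have hbn : b ≤ n := by rw [hb]; exact Nat.le_mul_of_pos_left b hd0
  have key : r' * n = s' * m + d := by
    rw [hb]
    conv_rhs => rw [ha]
    calc r' * (d * b) = d * (r' * b) := by ring
      _ = d * (s' * a + 1) := by rw [hs'']
      _ = _ := by ring
  refine ⟨((r', s'), (m - r', n - s')), ?_, ?_, ?_, ?_, ?_⟩
  · simp only; omega
  · simp only; omega
  · simp only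
    have e1 : r' * (n - s') + r' * s' = r' * n := by
      rw [← Nat.mul_add]; congr 1; omega
    have e2 : s' * (m - r') + r' * s' = s' * m := by
      rw [mul_comm r' s', ← Nat.mul_add]; congr 1; omega
    omega
  · simp only; omega
  · simp only; omega

/-- the chosen splitting -/
def spl (m n : ℕ) (h : 0 < m ∧ 0 < n) : (ℕ × ℕ) × (ℕ × ℕ) :=
  Classical.choose (exists_split m n h.1 h.2)

theorem spl_spec (m n : ℕ) (h : 0 < m ∧ 0 < n) :
    (spl m n h).1.1 + (spl m n h).2.1 = m ∧ (spl m n h).1.2 + (spl m n h).2.2 = n ∧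
      (spl m n h).1.1 * (spl m n h).2.2 = (spl m n h).1.2 * (spl m n h).2.1 + Nat.gcd m n ∧
      (spl m n h).1.1 + (spl m n h).1.2 < m + n ∧ (spl m n h).2.1 + (spl m n h).2.2 < m + n :=
  Classical.choose_spec (exists_split m n h.1 h.2)

variable {K : Type*} [Field K]

/-- a family of operators `Q_{m,n}` -/
def Qfam (q t : K) (Δ : Module.End K (SymF K)) : ℕ → ℕ → Module.End K (SymF K)
  | m, n =>
    if h : 0 < m ∧ 0 < n then
      have := (spl_spec m n h).2.2.2.1
      have := (spl_spec m n h).2.2.2.2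
      ((1 - q) * (1 - t))⁻¹ •
        (Qfam q t Δ (spl m n h).2.1 (spl m n h).2.2 * Qfam q t Δ (spl m n h).1.1 (spl m n h).1.2 -
          Qfam q t Δ (spl m n h).1.1 (spl m n h).1.2 * Qfam q t Δ (spl m n h).2.1 (spl m n h).2.2)
    else if n = 0 then LinearMap.id - ((1 - q) * (1 - t)) • Δ
    else - LinearMap.mulLeft K (elem K 1)
  termination_by m n => m + n

/-- The operators `Q_{m,n}` exist, for every operator `Δ`. -/
theorem exists_Q (q t : K) (Δ : Module.End K (SymF K)) : ∃ Q, IsQ q t Δ Q := by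
  refine ⟨Qfam q t Δ, ?_, ?_, ?_⟩
  · intro f
    rw [Qfam]
    rw [dif_neg (by omega), if_pos rfl]
    simp
  · intro f
    rw [Qfam]
    rw [dif_neg (by omega), if_neg (by omega)]
    simp
  · intro m n hm hn
    obtain ⟨h1, h2, h3, -, -⟩ := spl_spec m n ⟨hm, hn⟩
    refine ⟨_, _, _, _, h1, h2, h3, ?_⟩
    rw [Qfam, dif_pos ⟨hm, hn⟩]

end

end Pool.Agent.Lib.MP_0e7911_co_h56
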