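import Pool.Agent.Lib.MP_0e7911_co_h50.Basic

set_option autoImplicit false

namespace Pool.Agent.Lib.MP_0e7911_co_h50

open Finset

/-- integer level (times `n`) of the start of the `i`-th north step, relative to the origin -/
def lam (m : ℕ) {n : ℕ} (x : Fin n → ℕ) (i : Fin n) : ℤ := (m : ℤ) * (i : ℕ) - (n : ℤ) * (x i : ℤ)

/-- `i` attacks `j` -/
def attZ (m : ℕ) {n : ℕ} (x : Fin n → ℕ) (i j : Fin n) : Prop :=
  (lam m x i < lam m x j ∨ (lam m x i = lam m x j ∧ i < j)) ∧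
  (lam m x j < lam m x i + m ∨ (lam m x j = lam m x i + m ∧ j < i))

instance (m : ℕ) {n : ℕ} (x : Fin n → ℕ) (i j : Fin n) : Decidable (attZ m x i j) := by
  unfold attZ; infer_instance

def tdinvZ (m : ℕ) {n N : ℕ} (x : Fin n → ℕ) (w : Fin n → Fin N) : ℕ :=
  (univ.filter (fun p : Fin n × Fin n => w p.1 < w p.2 ∧ attZ m x p.1 p.2)).card

/-- `β` of the cell in row `i`, column `c` -/
def bet {n : ℕ} (x : Fin n → ℕ) (i : Fin n) (c : ℕ) : ℕ :=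
  (univ.filter (fun i' : Fin n => i' < i ∧ c < x i')).card

/-- contribution of the cell in row `i` and column `c < x i` (`α = x i - 1 - c`) -/
def cellZ (m : ℕ) {n : ℕ} (x : Fin n → ℕ) (i : Fin n) (c : ℕ) : ℤ :=
  (if n * (x i - 1 - c + 1) ≤ m * (bet x i c + 1) ∧ m * bet x i c < n * (x i - 1 - c)
    then 1 else 0) -
  (if n * (x i - 1 - c) ≤ m * bet x i c ∧ m * (bet x i c + 1) < n * (x i - 1 - c + 1)
    then 1 else 0)

def cdinvZ (m : ℕ) {n : ℕ} (x : Fin n → ℕ) : ℤ := ∑ i : Fin n, ∑ c ∈ range (x i), cellZ m x i c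

def negZ (m : ℕ) {n : ℕ} (x : Fin n → ℕ) : ℕ := (univ.filter (fun i : Fin n => lam m x i < 0)).card

def dinvZ (m : ℕ) {n N : ℕ} (x : Fin n → ℕ) (w : Fin n → Fin N) : ℤ :=
  tdinvZ m x w + cdinvZ m x + negZ m x

def Esum (m : ℕ) {n : ℕ} (x : Fin n → ℕ) : ℤ :=
  ∑ i : Fin n, (min 0 ((lam m x i + m) / n) - min 0 (lam m x i / n))

def Tst (m : ℕ) {n N : ℕ} (x : Fin n → ℕ) (w : Fin n → Fin N) : ℕ :=
  (univ.filter (fun p : Fin n × Fin n => p.1 < p.2 ∧ (n : ℤ) ∣ lam m x p.1 - lam m x p.2 ∧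
    (lam m x p.2 < lam m x p.1 ∨ (lam m x p.1 = lam m x p.2 ∧ w p.1 < w p.2)))).card +
  (univ.filter (fun p : Fin n × Fin n => p.1 ≤ p.2 ∧ (n : ℤ) ∣ lam m x p.2 + m - lam m x p.1 ∧
    (lam m x p.1 < lam m x p.2 + m ∨
      (lam m x p.1 = lam m x p.2 + m ∧ w p.2 < w p.1)))).card

end Pool.Agent.Lib.MP_0e7911_co_h50
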