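import Pool.Agent.Lib.MP_0e7911_co_h56.FRMain
import Pool.Agent.Lib.MP_0e7911_co_full.PathDefs

/-!
# The first return identity, in the form used by the full theorem
-/

set_option autoImplicit false

namespace Pool.Agent.Lib.MP_0e7911_co_full

open Finset Pool.Agent.Lib.MP_0e7911_co_h56 Pool.Agent.Lib.MP_0e7911_co_h50
open Pool.Agent.Lib.MP_0e7911_co_rect hiding qint

variable {K : Type*} [Field K]

theorem avoid_iff {m n : ℕ} (j : ℕ) (x : Fin n → Fin m) : Avoid j x ↔ Avoids j x := by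
  unfold Avoid Avoids
  refine forall_congr' fun i => forall_congr' fun _ => forall_congr' fun _ => ?_
  refine not_congr ?_
  unfold lam
  rw [sub_eq_zero]
  constructor
  · intro h; exact_mod_cast h.symm
  · intro h; exact_mod_cast h.symm

theorem qint_eq (q : K) (k : ℕ) :
    Pool.Agent.Lib.MP_0e7911_co_h56.qint q k = Pool.Agent.Lib.MP_0e7911_co_rect.qint q k := rfl

theorem firstSum_one (q t : K) (m n N : ℕ) [NeZero m] [NeZero n] :
    firstSum q t m n N (fun _ => 1) = ∑ j ∈ range (Nat.gcd m n), MvPolynomial.C (q ^ j) *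
      ∑ p ∈ (LRD m n N).filter (fun p => Avoid j p.1), wt q t p := by
  unfold firstSum
  refine sum_congr rfl fun j _ => ?_
  congr 1
  have h : (LRD m n N).filter (fun p => Avoids j p.1) =
      (LRD m n N).filter (fun p => Avoid j p.1) :=
    filter_congr fun p _ => (avoid_iff j p.1).symm
  rw [h]
  refine sum_congr rfl fun p _ => ?_
  rw [map_one, one_mul]

theorem first_return_of (hgap : Gap) (q t : K) (hq : q ≠ 0)
    (hk : ∀ k : ℕ, 1 ≤ k → Pool.Agent.Lib.MP_0e7911_co_rect.qint q k ≠ 0) (m n N : ℕ)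
    [NeZero m] [NeZero n] :
    ∑ j ∈ range (Nat.gcd m n), MvPolynomial.C (q ^ j) *
      ∑ p ∈ (LRD m n N).filter (fun p => Avoid j p.1), wt q t p =
    ∑ k ∈ Icc 1 (Nat.gcd m n), MvPolynomial.C (Pool.Agent.Lib.MP_0e7911_co_rect.qint q
        (Nat.gcd m n) / Pool.Agent.Lib.MP_0e7911_co_rect.qint q k) *
      ∑ p ∈ (LRD m n N).filter (fun p => touches p.1 = k), wt q t p := by
  have h := Pool.Agent.Lib.MP_0e7911_co_rect.first_return (m := m) (n := n) (N := N) hgap q t hq hk
    (fun _ => 1)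
  rw [firstSum_one] at h
  simpa only [map_one, one_mul] using h

theorem all_paths_of (hgap : Gap) (q t : K) (hq : q ≠ 0)
    (hk : ∀ k : ℕ, 1 ≤ k → Pool.Agent.Lib.MP_0e7911_co_rect.qint q k ≠ 0) (m n N : ℕ)
    [NeZero m] [NeZero n] :
    ∑ p ∈ LRP m n N, wt q t p =
      MvPolynomial.C (Pool.Agent.Lib.MP_0e7911_co_rect.qint q m /
        Pool.Agent.Lib.MP_0e7911_co_rect.qint q (Nat.gcd m n)) *
      ∑ j ∈ range (Nat.gcd m n), MvPolynomial.C (q ^ j) *
        ∑ p ∈ (LRD m n N).filter (fun p => Avoid j p.1), wt q t p := by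
  have h := Pool.Agent.Lib.MP_0e7911_co_rect.all_paths (m := m) (n := n) (N := N) hgap q t hq hk
    (fun _ => 1)
  rw [firstSum_one] at h
  simpa only [map_one, one_mul] using h

end Pool.Agent.Lib.MP_0e7911_co_full
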