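import Pool.Agent.Lib.MP_0e7911_co_h56.PathKey

set_option autoImplicit false

namespace Pool.Agent.Lib.MP_0e7911_co_h50

open Finset

namespace M7d

variable {e b a N : ℕ}

/-- forward direction: a path gives an admissible key sequence -/
lemma forward (x : Fin ((e + 1) * (b + 1)) → ℕ) (w : Fin ((e + 1) * (b + 1)) → Fin N) (S : ℤ)
    (h : IsLRP ((e + 1) * a) x w) :
    AdjK (RK ((e + 1) * a)) (keyf ((e + 1) * a) x w S) ∧
      (keyf ((e + 1) * a) x w S 0 0).lev ≤ S ∧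
      S < (keyf ((e + 1) * a) x w S (Fin.last b) (Fin.last e)).lev + (((e + 1) * a : ℕ) : ℤ) := by
  obtain ⟨h1, h2, h3⟩ := h
  obtain ⟨h4, h5⟩ := (chain_iff (a := a) x w S).1 ⟨h1, h3⟩
  have h6 : (keyf ((e + 1) * a) x w S 0 0).lev ≤ S := by
    rw [keyf_lev]
    unfold lam
    rw [pos_val]
    have : (0 : ℤ) ≤ (((e + 1) * (b + 1) : ℕ) : ℤ) * (x (pos 0 0) : ℤ) := by positivity
    simp only [Fin.val_zero]
    push_cast at this ⊢
    linarith
  have h7 : S < (keyf ((e + 1) * a) x w S (Fin.last b) (Fin.last e)).lev +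
      (((e + 1) * a : ℕ) : ℤ) := by
    rw [keyf_lev]
    unfold lam
    rw [pos_val]
    have h8 : (x (pos (Fin.last e) (Fin.last b)) : ℤ) < (((e + 1) * a : ℕ) : ℤ) := by
      exact_mod_cast h2 _
    have hn : (0 : ℤ) < (((e + 1) * (b + 1) : ℕ) : ℤ) := by positivity
    have h9 := mul_lt_mul_of_pos_left h8 hn
    simp only [Fin.val_last]
    push_cast at h9 ⊢
    nlinarith
  refine ⟨⟨h4, ?_⟩, h6, h7⟩
  intro t
  by_cases ht : (t : ℕ) < e
  · exact h5 t ht
  · have : t = Fin.last e := by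
      apply Fin.ext
      have := t.isLt
      simp only [Fin.val_last]
      omega
    subst this
    rw [Fin.last_add_one]
    left
    omega

/-- backward direction: construction of the path -/
lemma backward (S : ℤ) (f : Fin (b + 1) → Fin (e + 1) → Key N)
    (hlev : ∀ (i : Fin (b + 1)) (t : Fin (e + 1)),
      ((((e + 1) * (b + 1) : ℕ) : ℤ)) ∣ (f i t).lev - (((e + 1) * a : ℕ) : ℤ) * ((i : ℕ) : ℤ) - S)
    (hA : AdjK (RK ((e + 1) * a)) f) (h0 : (f 0 0).lev ≤ S)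
    (h1 : S < (f (Fin.last b) (Fin.last e)).lev + (((e + 1) * a : ℕ) : ℤ)) :
    ∃ (x : Fin ((e + 1) * (b + 1)) → ℕ) (w : Fin ((e + 1) * (b + 1)) → Fin N),
      keyf ((e + 1) * a) x w S = f ∧ IsLRP ((e + 1) * a) x w := by
  have hn : (0 : ℤ) < (((e + 1) * (b + 1) : ℕ) : ℤ) := by positivity
  have hex : ∀ k : Fin ((e + 1) * (b + 1)), ∃ y : ℤ,
      (((e + 1) * (b + 1) : ℕ) : ℤ) * y = (((e + 1) * a : ℕ) : ℤ) * ((k : ℕ) : ℤ) + S -
        (f (finProdFinEquiv.symm k).2 (finProdFinEquiv.symm k).1).lev := by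
    intro k
    obtain ⟨t, i, rfl⟩ := exists_pos k
    have hsym : finProdFinEquiv.symm (pos t i : Fin ((e + 1) * (b + 1))) = (t, i) :=
      Equiv.symm_apply_apply _ _
    rw [hsym, pos_val]
    obtain ⟨c, hc⟩ := hlev i t
    refine ⟨(a : ℤ) * ((t : ℕ) : ℤ) - c, ?_⟩
    simp only
    rw [mul_sub, ← hc]
    push_cast
    ring
  choose y hy using hex
  have hypos : ∀ (t : Fin (e + 1)) (i : Fin (b + 1)), (((e + 1) * (b + 1) : ℕ) : ℤ) * y (pos t i) =
      (((e + 1) * a : ℕ) : ℤ) * (((pos t i : Fin ((e + 1) * (b + 1))) : ℕ) : ℤ) + S -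
        (f i t).lev := by
    intro t i
    have hsym : finProdFinEquiv.symm (pos t i : Fin ((e + 1) * (b + 1))) = (t, i) :=
      Equiv.symm_apply_apply _ _
    have := hy (pos t i)
    rw [hsym] at this
    exact this
  set w : Fin ((e + 1) * (b + 1)) → Fin N :=
    fun k => (f (finProdFinEquiv.symm k).2 (finProdFinEquiv.symm k).1).lab with hw
  have hwpos : ∀ (t : Fin (e + 1)) (i : Fin (b + 1)), w (pos t i) = (f i t).lab := by
    intro t i
    have hsym : finProdFinEquiv.symm (pos t i : Fin ((e + 1) * (b + 1))) = (t, i) :=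
      Equiv.symm_apply_apply _ _
    rw [hw]; simp only; rw [hsym]
  have hchain : ∀ k l : Fin ((e + 1) * (b + 1)), (k : ℕ) + 1 = l →
      (y k < y l ∨ (y k = y l ∧ w k < w l)) := by
    intro k l hkl
    obtain ⟨t, i, rfl⟩ := exists_pos k
    obtain ⟨t', i', rfl⟩ := exists_pos l
    have hR : RK ((e + 1) * a) (f i t) (f i' t') := by
      rcases pos_succ_cases t t' i i' hkl with ⟨ι, rfl, rfl, rfl⟩ | ⟨rfl, rfl, hte, rfl⟩
      · exact hA.1 _ _
      · exact hA.2 _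
    have e1 := hypos t i
    have e2 := hypos t' i'
    rw [← hkl] at e2
    rw [hwpos, hwpos]
    rcases hR with h | ⟨h, h'⟩
    · left
      have : (((e + 1) * (b + 1) : ℕ) : ℤ) * y (pos t i) <
          (((e + 1) * (b + 1) : ℕ) : ℤ) * y (pos t' i') := by
        rw [e1, e2]; push_cast at h ⊢; linarith
      exact lt_of_mul_lt_mul_left this hn.le
    · right
      refine ⟨?_, h'⟩
      have : (((e + 1) * (b + 1) : ℕ) : ℤ) * y (pos t i) =
          (((e + 1) * (b + 1) : ℕ) : ℤ) * y (pos t' i') := by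
        rw [e1, e2, h]; push_cast; ring
      exact mul_left_cancel₀ hn.ne' this
  have hlex := lex_chain y w hchain
  have hmono : ∀ k l : Fin ((e + 1) * (b + 1)), k ≤ l → y k ≤ y l := by
    intro k l hkl
    rcases lt_or_eq_of_le hkl with h | h
    · rcases hlex k l h with h5 | h5
      · exact h5.le
      · exact h5.1.le
    · rw [h]
  have hy0 : ∀ k, 0 ≤ y k := by
    intro k
    have h2 : y (pos 0 0) ≤ y k := by
      apply hmono
      rw [Fin.le_def, pos_val]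
      simp
    refine le_trans ?_ h2
    have h3 := hypos 0 0
    rw [pos_val] at h3
    simp only [Fin.val_zero] at h3
    have : 0 ≤ (((e + 1) * (b + 1) : ℕ) : ℤ) * y (pos 0 0) := by
      rw [h3]; push_cast; linarith
    exact nonneg_of_mul_nonneg_right this hn
  have hym : ∀ k, y k < (((e + 1) * a : ℕ) : ℤ) := by
    intro k
    have h2 : y k ≤ y (pos (Fin.last e) (Fin.last b)) := by
      apply hmono
      have := k.isLt
      rw [Fin.le_def, pos_val]
      simp only [Fin.val_last]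
      have h3 : (e + 1) * (b + 1) = b + (b + 1) * e + 1 := by ring
      omega
    refine lt_of_le_of_lt h2 ?_
    have h3 := hypos (Fin.last e) (Fin.last b)
    rw [pos_val] at h3
    simp only [Fin.val_last] at h3
    have : (((e + 1) * (b + 1) : ℕ) : ℤ) * y (pos (Fin.last e) (Fin.last b)) <
        (((e + 1) * (b + 1) : ℕ) : ℤ) * (((e + 1) * a : ℕ) : ℤ) := by
      rw [h3]
      push_cast at h1 ⊢
      nlinarith
    exact lt_of_mul_lt_mul_left this hn.le
  have hcast : ∀ k, (((y k).toNat : ℕ) : ℤ) = y k := fun k => Int.toNat_of_nonneg (hy0 k)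
  refine ⟨fun k => (y k).toNat, w, ?_, ?_, ?_, ?_⟩
  · funext i t
    apply key_ext
    · rw [keyf_lev]
      unfold lam
      simp only
      rw [hcast, hypos]
      ring
    · rw [keyf_lab, hwpos]
  · intro k l hkl
    exact Int.toNat_le_toNat (hmono k l hkl)
  · intro k
    have h2 := hym k
    have h3 := hcast k
    simp only
    zify
    rw [h3]
    exact_mod_cast h2
  · intro k l hkl hx
    have h2 : y k = y l := by
      rw [← hcast k, ← hcast l]
      exact_mod_cast hx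
    rcases hlex k l hkl with h3 | h3
    · exact absurd h2 h3.ne
    · exact h3.2

lemma per_add (F : ℕ → Fin (e + 1) → Key N) (hper : ∀ i, F (i + (b + 1)) = F i) (i k : ℕ) :
    F (i + (b + 1) * k) = F i := by
  induction k with
  | zero => simp
  | succ k ih => rw [Nat.mul_succ, ← add_assoc, hper, ih]

lemma exists_class (F : ℕ → Fin (e + 1) → Key N) (hper : ∀ i, F (i + (b + 1)) = F i) (i j : ℕ) :
    ∃ i' : Fin (b + 1), F ((i' : ℕ) + j) = F i := by
  have h1 : (i + (b + 1) * j - j) = (i + b * j) := by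
    rw [Nat.add_mul, one_mul, ← add_assoc, Nat.add_sub_cancel]
  refine ⟨⟨(i + b * j) % (b + 1), Nat.mod_lt _ (by omega)⟩, ?_⟩
  simp only
  have h2 := Nat.mod_add_div (i + b * j) (b + 1)
  rw [← per_add F hper ((i + b * j) % (b + 1) + j) ((i + b * j) / (b + 1)),
    ← per_add F hper i j]
  congr 1
  have h3 : (b + 1) * j = b * j + j := by ring
  omega

lemma sum_ite_bij {ι κ M : Type*} [AddCommMonoid M] (s : Finset ι) (t : Finset κ)
    (P : ι → Prop) (Q : κ → Prop) [DecidablePred P] [DecidablePred Q] (f : ι → M) (g : κ → M)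
    (φ : ι → κ) (h1 : ∀ i ∈ s, P i → φ i ∈ t ∧ Q (φ i))
    (h2 : ∀ i i', φ i = φ i' → i = i')
    (h3 : ∀ k ∈ t, Q k → ∃ i ∈ s, P i ∧ φ i = k) (h4 : ∀ i ∈ s, P i → f i = g (φ i)) :
    ∑ i ∈ s, (if P i then f i else 0) = ∑ k ∈ t, (if Q k then g k else 0) := by
  rw [← Finset.sum_filter, ← Finset.sum_filter]
  refine Finset.sum_bij (fun i _ => φ i) ?_ ?_ ?_ ?_
  · intro i hi
    rw [Finset.mem_filter] at hi ⊢
    exact h1 i hi.1 hi.2
  · intro i _ i' _ h
    exact h2 i i' h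
  · intro k hk
    rw [Finset.mem_filter] at hk
    obtain ⟨i, hi, hP, hφ⟩ := h3 k hk.1 hk.2
    exact ⟨i, Finset.mem_filter.2 ⟨hi, hP⟩, hφ⟩
  · intro i hi
    rw [Finset.mem_filter] at hi
    exact h4 i hi.1 hi.2

theorem path_key_sum_aux {K : Type*} [CommRing K] (q : K)
    (hcop : Nat.Coprime a (b + 1)) (F : ℕ → Fin (e + 1) → Key N)
    (hper : ∀ i, F (i + (b + 1)) = F i)
    (hlev : ∀ (i : ℕ) (r : Fin (e + 1)),
      ((((e + 1) * (b + 1) : ℕ) : ℤ)) ∣ (F i r).lev - (((e + 1) * a : ℕ) : ℤ) * (i : ℤ))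
    (hpos : ∀ i r, 0 ≤ (F i r).lev) (hzero : ∃ i r, (F i r).lev = 0) (S j : ℕ)
    (hSj : ((((e + 1) * (b + 1) : ℕ) : ℤ)) ∣ (S : ℤ) - (((e + 1) * a : ℕ) : ℤ) * (j : ℤ))
    (P : (Fin ((e + 1) * (b + 1)) → Fin ((e + 1) * a)) × (Fin ((e + 1) * (b + 1)) → Fin N) → Prop)
    [DecidablePred P] (hP : ∀ p, P p ↔ (IsLRP ((e + 1) * a) (fun i => (p.1 i : ℕ)) p.2 ∧
          IsBase ((e + 1) * a) (fun i => (p.1 i : ℕ)) (S : ℤ) ∧
          keyf ((e + 1) * a) (fun i => (p.1 i : ℕ)) p.2 (S : ℤ) ∈ Seqs F j))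
    (Q : (Fin (b + 1) → Fin (e + 1) → Key N) → Prop) [DecidablePred Q]
    (hQ : ∀ f, Q f ↔ (AdjK (RK ((e + 1) * a)) f ∧ ((f 0 0).lev ≤ (S : ℤ) ∧
          (S : ℤ) < (f (Fin.last b) (Fin.last e)).lev + (((e + 1) * a : ℕ) : ℤ)))) :
    (∑ p, if P p then q ^ Tst ((e + 1) * a) (fun i => (p.1 i : ℕ)) p.2 else 0) =
    ∑ f ∈ Seqs (b := b) F j, if Q f then q ^ TK (RK ((e + 1) * a)) f else 0 := by
  refine sum_ite_bij _ _ _ _ _ _
    (fun p => keyf ((e + 1) * a) (fun i => (p.1 i : ℕ)) p.2 (S : ℤ)) ?_ ?_ ?_ ?_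
  · intro p _ hp
    obtain ⟨h1, h2, h3⟩ := (hP p).1 hp
    exact ⟨h3, (hQ _).2 (forward _ _ _ h1)⟩
  · intro p p' h
    have hn : (0 : ℤ) < (((e + 1) * (b + 1) : ℕ) : ℤ) := by positivity
    have h1 : ∀ k, p.1 k = p'.1 k ∧ p.2 k = p'.2 k := by
      intro k
      obtain ⟨t, i, rfl⟩ := exists_pos k
      have h2 := congrFun (congrFun h i) t
      have h3 := congrArg Key.lev h2
      have h4 := congrArg Key.lab h2
      rw [keyf_lev, keyf_lev] at h3
      rw [keyf_lab, keyf_lab] at h4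
      refine ⟨?_, h4⟩
      unfold lam at h3
      have h5 : (((e + 1) * (b + 1) : ℕ) : ℤ) * (((p.1 (pos t i) : Fin _) : ℕ) : ℤ) =
          (((e + 1) * (b + 1) : ℕ) : ℤ) * (((p'.1 (pos t i) : Fin _) : ℕ) : ℤ) := by
        linarith
      have h6 := mul_left_cancel₀ hn.ne' h5
      apply Fin.ext
      exact_mod_cast h6
    apply Prod.ext
    · funext k; exact (h1 k).1
    · funext k; exact (h1 k).2
  · intro f h1 hf
    obtain ⟨h2, h3, h4⟩ := (hQ _).1 hf
    have h1' := h1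
    rw [Seqs, Finset.mem_image] at h1'
    obtain ⟨τ, -, hτ⟩ := h1'
    have hfe : ∀ i t, f i t = F ((i : ℕ) + j) (τ i t) := by
      intro i t; rw [← hτ]; rfl
    obtain ⟨x, w, hk, hL⟩ := backward (S : ℤ) f (by
      intro i t
      rw [hfe]
      have h5 := dvd_sub (hlev ((i : ℕ) + j) (τ i t)) hSj
      have h6 : (F ((i : ℕ) + j) (τ i t)).lev - (((e + 1) * a : ℕ) : ℤ) * (((i : ℕ) + j : ℕ) : ℤ) -
          ((S : ℤ) - (((e + 1) * a : ℕ) : ℤ) * (j : ℤ)) =
          (F ((i : ℕ) + j) (τ i t)).lev - (((e + 1) * a : ℕ) : ℤ) * ((i : ℕ) : ℤ) - (S : ℤ) := by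
        push_cast
        ring
      rw [← h6]
      exact h5) h2 h3 h4
    have hx : ∀ k, x k < (e + 1) * a := hL.2.1
    refine ⟨(fun k => ⟨x k, hx k⟩, w), Finset.mem_univ _, (hP _).2 ⟨hL, ⟨?_, ?_⟩, ?_⟩, hk⟩
    · intro k
      obtain ⟨t, i, rfl⟩ := exists_pos k
      have h5 := congrArg Key.lev (congrFun (congrFun hk i) t)
      rw [keyf_lev] at h5
      simp only
      rw [h5, hfe]
      exact hpos _ _
    · obtain ⟨i, r, hir⟩ := hzero
      obtain ⟨i', hi'⟩ := exists_class F hper i j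
      refine ⟨pos ((τ i').symm r) i', ?_⟩
      have h5 := congrArg Key.lev (congrFun (congrFun hk i') ((τ i').symm r))
      rw [keyf_lev] at h5
      simp only
      rw [h5, hfe, hi', Equiv.apply_symm_apply]
      exact hir
    · simp only
      rw [hk]
      exact h1
  · intro p _ _
    rw [Tst_eq_TK _ _ hcop (S : ℤ)]


end M7d

open M7d

open scoped Classical in
theorem path_key_sum {K : Type*} [CommRing K] (q : K) {b e a N : ℕ} (ha : 0 < a)
    (hcop : Nat.Coprime a (b + 1)) (F : ℕ → Fin (e + 1) → Key N)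
    (hper : ∀ i, F (i + (b + 1)) = F i)
    (hlev : ∀ (i : ℕ) (r : Fin (e + 1)),
      ((((e + 1) * (b + 1) : ℕ) : ℤ)) ∣ (F i r).lev - (((e + 1) * a : ℕ) : ℤ) * (i : ℤ))
    (hpos : ∀ i r, 0 ≤ (F i r).lev) (hzero : ∃ i r, (F i r).lev = 0) (S j : ℕ)
    (hSj : ((((e + 1) * (b + 1) : ℕ) : ℤ)) ∣ (S : ℤ) - (((e + 1) * a : ℕ) : ℤ) * (j : ℤ)) :
    (∑ p : (Fin ((e + 1) * (b + 1)) → Fin ((e + 1) * a)) × (Fin ((e + 1) * (b + 1)) → Fin N),
      if IsLRP ((e + 1) * a) (fun i => (p.1 i : ℕ)) p.2 ∧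
          IsBase ((e + 1) * a) (fun i => (p.1 i : ℕ)) (S : ℤ) ∧
          keyf ((e + 1) * a) (fun i => (p.1 i : ℕ)) p.2 (S : ℤ) ∈ Seqs F j
        then q ^ Tst ((e + 1) * a) (fun i => (p.1 i : ℕ)) p.2 else 0) =
    ∑ f ∈ Seqs (b := b) F j,
      if AdjK (RK ((e + 1) * a)) f ∧ ((f 0 0).lev ≤ (S : ℤ) ∧
          (S : ℤ) < (f (Fin.last b) (Fin.last e)).lev + (((e + 1) * a : ℕ) : ℤ))
        then q ^ TK (RK ((e + 1) * a)) f else 0 := by
  have h := path_key_sum_aux q hcop F hper hlev hpos hzero S j hSj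
    (fun p => IsLRP ((e + 1) * a) (fun i => (p.1 i : ℕ)) p.2 ∧
          IsBase ((e + 1) * a) (fun i => (p.1 i : ℕ)) (S : ℤ) ∧
          keyf ((e + 1) * a) (fun i => (p.1 i : ℕ)) p.2 (S : ℤ) ∈ Seqs F j) (fun _ => Iff.rfl)
    (fun f => AdjK (RK ((e + 1) * a)) f ∧ ((f 0 0).lev ≤ (S : ℤ) ∧
          (S : ℤ) < (f (Fin.last b) (Fin.last e)).lev + (((e + 1) * a : ℕ) : ℤ)))
    (fun _ => Iff.rfl)
  convert h

end Pool.Agent.Lib.MP_0e7911_co_h50
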