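import Pool.Agent.Lib.MP_0e7911_co_h56.DinvDefs

set_option autoImplicit false

namespace Pool.Agent.Lib.MP_0e7911_co_h50

open Finset

namespace M1

/-! ### integer floor identities -/

lemma ediv_nonneg_iff' {n : ℤ} (hn : 0 < n) (y : ℤ) : 0 ≤ y / n ↔ 0 ≤ y := by
  rw [Int.le_ediv_iff_mul_le hn]; simp

lemma add_n_ediv {n : ℤ} (hn : 0 < n) (y : ℤ) : (y + n) / n = y / n + 1 := by
  rw [Int.add_ediv_of_dvd_right (dvd_refl n), Int.ediv_self hn.ne']

lemma min_step (k : ℤ) : min 0 k - min 0 (k + 1) = (if 0 ≤ k then 1 else 0) - 1 := by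
  split_ifs with h
  · rw [min_eq_left h, min_eq_left (by omega)]; ring
  · rw [min_eq_right (by omega), min_eq_right (by omega)]; ring

/-- `Φ` of row level `L`. -/
def Phi (m n L u : ℤ) : ℤ := min 0 ((L + m - u) / n) - min 0 ((L - u) / n + 1)

lemma Phi_step {n : ℤ} (hn : 0 < n) (m L u : ℤ) :
    Phi m n L u - Phi m n L (u - n) =
      (if u ≤ L + m then 1 else 0) - (if u ≤ L + n then 1 else 0) := by
  have h1 : (L + m - (u - n)) / n = (L + m - u) / n + 1 := by
    rw [← add_n_ediv hn]; congr 1; ring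
  have h2 : (L - (u - n)) / n = (L - u) / n + 1 := by
    rw [← add_n_ediv hn]; congr 1; ring
  have e1 := min_step ((L + m - u) / n)
  have e2 := min_step ((L - u) / n + 1)
  have c1 : (0 ≤ (L + m - u) / n) ↔ u ≤ L + m := by
    rw [ediv_nonneg_iff' hn]; constructor <;> intro h <;> linarith
  have c2 : (0 ≤ (L - u) / n + 1) ↔ u ≤ L + n := by
    rw [← add_n_ediv hn, ediv_nonneg_iff' hn]; constructor <;> intro h <;> linarith
  unfold Phi
  rw [h1, h2]
  simp only [c1] at e1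
  simp only [c2] at e2
  linarith

/-- `ψ`. -/
def psi (m n D : ℤ) : ℤ :=
  min 0 (D / n) - min 0 ((D - m) / n + 1) - min 0 ((D + m) / n) + min 0 (D / n + 1)

lemma Phi_sub (m n L u : ℤ) : Phi m n L (u + m) - Phi m n L u = psi m n (L - u) := by
  unfold Phi psi
  have h1 : L + m - (u + m) = L - u := by ring
  have h2 : L - (u + m) = L - u - m := by ring
  have h3 : L + m - u = L - u + m := by ring
  rw [h1, h2, h3]; ring

lemma star {n : ℤ} (hn : 0 < n) (y : ℤ) :
    min 0 (y / n) - min 0 ((n - y) / n) = y / n - (if n ∣ y ∧ 0 < y then 1 else 0) := by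
  have h1 : (n - y) / n = (-y) / n + 1 := by
    rw [← add_n_ediv hn]; congr 1; ring
  rw [h1]
  by_cases hy : 0 < y
  · have h2 : 0 ≤ y / n := (ediv_nonneg_iff' hn y).2 hy.le
    have h3 : (-y) / n < 0 := by
      by_contra h
      push Not at h
      rw [ediv_nonneg_iff' hn] at h
      linarith
    rw [min_eq_left h2, min_eq_right (by omega)]
    by_cases hd : n ∣ y
    · rw [if_pos ⟨hd, hy⟩, Int.neg_ediv_of_dvd hd]; ring
    · rw [if_neg (fun h => hd h.1), Int.neg_ediv, if_neg hd, Int.sign_eq_one_of_pos hn]; ring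
  · have hy' : y ≤ 0 := not_lt.1 hy
    rw [if_neg (fun h => hy h.2)]
    have h2 : y / n ≤ 0 := by
      have := Int.ediv_le_ediv hn hy'
      simpa using this
    have h3 : 0 ≤ (-y) / n := (ediv_nonneg_iff' hn _).2 (by linarith)
    rw [min_eq_right h2, min_eq_left (by omega)]

/-- `ρ`. -/
def rho (m n D : ℤ) : ℤ :=
  psi m n D - (if n ∣ D ∧ D < 0 then 1 else 0) - (if n ∣ D + m ∧ 0 < D + m then 1 else 0)

def Hf (m n D : ℤ) : ℤ := D / n - (-D) / n - (D + m) / n + (m - D) / n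

lemma rho_sub {n : ℤ} (hn : 0 < n) (m D : ℤ) :
    rho m n D - rho m n (-D) = Hf m n D := by
  have s1 := star hn D
  have s2 := star hn (-D)
  have s3 := star hn (D + m)
  have s4 := star hn (m - D)
  have a1 : (n - D) / n = (-D) / n + 1 := by rw [← add_n_ediv hn]; congr 1; ring
  have a2 : (n - -D) / n = D / n + 1 := by rw [← add_n_ediv hn]; congr 1; ring
  have a3 : (n - (D + m)) / n = (-D - m) / n + 1 := by rw [← add_n_ediv hn]; congr 1; ring
  have a4 : (n - (m - D)) / n = (D - m) / n + 1 := by rw [← add_n_ediv hn]; congr 1; ring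
  rw [a1] at s1
  rw [a2] at s2
  rw [a3] at s3
  rw [a4] at s4
  have b4 : -D + m = m - D := by ring
  have d1 : (n ∣ -D ∧ 0 < -D) ↔ (n ∣ D ∧ D < 0) := by
    rw [dvd_neg]; constructor <;> rintro ⟨h, h'⟩ <;> exact ⟨h, by linarith⟩
  have d2 : (n ∣ -D ∧ -D < 0) ↔ (n ∣ D ∧ 0 < D) := by
    rw [dvd_neg]; constructor <;> rintro ⟨h, h'⟩ <;> exact ⟨h, by linarith⟩
  unfold rho psi Hf
  rw [b4]
  simp only [d1] at s2
  simp only [d2]
  linarith

lemma Hf_add {n : ℤ} (hn : 0 < n) (m D : ℤ) : Hf m n (D + n) = Hf m n D := by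
  unfold Hf
  have h1 : (D + n) / n = D / n + 1 := add_n_ediv hn D
  have h2 : (-D) / n = (-(D + n)) / n + 1 := by rw [← add_n_ediv hn]; congr 1; ring
  have h3 : (D + n + m) / n = (D + m) / n + 1 := by rw [← add_n_ediv hn]; congr 1; ring
  have h4 : (m - D) / n = (m - (D + n)) / n + 1 := by rw [← add_n_ediv hn]; congr 1; ring
  rw [h1, h3, h2, h4]; ring

lemma Hf_add_mul {n : ℤ} (hn : 0 < n) (m D k : ℤ) : Hf m n (D + n * k) = Hf m n D := by
  induction k using Int.induction_on with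
  | zero => simp
  | succ i ih =>
    have : D + n * (i + 1) = (D + n * i) + n := by ring
    rw [this, Hf_add hn, ih]
  | pred i ih =>
    have : D + n * (-i : ℤ) = (D + n * (-i - 1)) + n := by ring
    rw [this, Hf_add hn] at ih
    exact ih

/-! ### the column telescoping -/

lemma cell_eq (m : ℕ) {n : ℕ} (x : Fin n → ℕ) (i : Fin n) (c : ℕ) (hc : c < x i) (u : ℤ)
    (hu : u = (m : ℤ) * ((i : ℕ) - (bet x i c : ℕ)) - (n : ℤ) * c) :
    cellZ m x i c = (if u ≤ lam m x i + m then 1 else 0) - (if u ≤ lam m x i + n then 1 else 0) := by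
  obtain ⟨α, hα⟩ : ∃ α, x i = c + 1 + α := ⟨x i - 1 - c, by omega⟩
  have hα' : x i - 1 - c = α := by omega
  unfold cellZ
  rw [hα']
  have hx : (x i : ℤ) = c + 1 + α := by rw [hα]; push_cast; ring
  generalize bet x i c = β at hu ⊢
  have e1 : (n * (α + 1) ≤ m * (β + 1)) ↔ u ≤ lam m x i + m := by
    zify
    rw [hu, lam, hx]
    constructor <;> intro h <;> nlinarith
  have e2 : (m * β < n * α) ↔ ¬ (u ≤ lam m x i + n) := by
    zify
    rw [hu, lam, hx]
    constructor <;> intro h <;> nlinarith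
  have e3 : (n * α ≤ m * β) ↔ u ≤ lam m x i + n := by
    rw [← not_lt, e2, not_not]
  have e4 : (m * (β + 1) < n * (α + 1)) ↔ ¬ (u ≤ lam m x i + m) := by
    rw [← e1, not_le]
  simp only [e1, e2, e3, e4]
  by_cases h1 : u ≤ lam m x i + m <;> by_cases h2 : u ≤ lam m x i + n <;> simp [h1, h2]

/-- extension of `x` to all naturals -/
def X {n : ℕ} (x : Fin n → ℕ) (k : ℕ) : ℕ := if h : k < n then x ⟨k, h⟩ else 0

lemma X_eq {n : ℕ} (x : Fin n → ℕ) (i : Fin n) : X x i = x i := by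
  unfold X; rw [dif_pos i.isLt]

def Lk (m : ℕ) {n : ℕ} (x : Fin n → ℕ) (k : ℕ) : ℤ := (m : ℤ) * k - (n : ℤ) * X x k

lemma Lk_eq (m : ℕ) {n : ℕ} (x : Fin n → ℕ) (i : Fin n) : Lk m x i = lam m x i := by
  unfold Lk lam; rw [X_eq]

lemma X_mono {n : ℕ} (x : Fin n → ℕ) (hx : Monotone x) {a b : ℕ} (hab : a ≤ b) (hb : b < n) :
    X x a ≤ X x b := by
  unfold X
  rw [dif_pos (lt_of_le_of_lt hab hb), dif_pos hb]
  exact hx (by simpa using hab)

lemma bet_eq {n : ℕ} (x : Fin n → ℕ) (hx : Monotone x) (i : Fin n) (j : ℕ) (hj : j ≤ (i : ℕ))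
    (c : ℕ) (h1 : ∀ k, k < j → X x k ≤ c) (h2 : c < X x j) : bet x i c = (i : ℕ) - j := by
  have hjn : j < n := lt_of_le_of_lt hj i.isLt
  unfold bet
  have : (univ.filter (fun i' : Fin n => i' < i ∧ c < x i')) = Finset.Ico ⟨j, hjn⟩ i := by
    ext a
    simp only [mem_filter, mem_univ, true_and, mem_Ico]
    constructor
    · rintro ⟨h, h'⟩
      refine ⟨?_, h⟩
      by_contra hlt
      have hlt' : (a : ℕ) < j := by
        have := not_le.1 hlt
        simpa [Fin.lt_def] using this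
      have := h1 a hlt'
      rw [X_eq] at this
      omega
    · rintro ⟨h, h'⟩
      refine ⟨h', ?_⟩
      have h3 : X x j ≤ X x a := X_mono x hx (by simpa [Fin.le_def] using h) a.isLt
      rw [X_eq] at h3
      omega
  rw [this, Fin.card_Ico]

lemma sum_Ico_tele (f : ℕ → ℤ) {a b : ℕ} (hab : a ≤ b) :
    ∑ c ∈ Finset.Ico a b, (f c - f (c + 1)) = f a - f b := by
  induction b, hab using Nat.le_induction with
  | base => simp
  | succ b hb ih =>
    rw [Finset.sum_Ico_succ_top hb, ih]; ring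

lemma row_partial (m : ℕ) {n : ℕ} (hn : 0 < n) (x : Fin n → ℕ) (hx : Monotone x) (i : Fin n) :
    ∀ j : ℕ, j ≤ (i : ℕ) → ∑ c ∈ range (X x j), cellZ m x i c =
      Phi m n (lam m x i) 0 - Phi m n (lam m x i) (Lk m x j) +
      ∑ k ∈ range j, (Phi m n (lam m x i) (Lk m x k + m) - Phi m n (lam m x i) (Lk m x k)) := by
  have hn' : (0 : ℤ) < n := by exact_mod_cast hn
  have key : ∀ j : ℕ, j ≤ (i : ℕ) → ∀ a : ℕ, a ≤ X x j → (∀ k, k < j → X x k ≤ a) →
      ∑ c ∈ Finset.Ico a (X x j), cellZ m x i c =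
        Phi m n (lam m x i) ((m : ℤ) * j - (n : ℤ) * a) - Phi m n (lam m x i) (Lk m x j) := by
    intro j hj a ha h1
    have hjn : j < n := lt_of_le_of_lt hj i.isLt
    have : ∀ c ∈ Finset.Ico a (X x j), cellZ m x i c =
        (fun c : ℕ => Phi m n (lam m x i) ((m : ℤ) * j - (n : ℤ) * c)) c -
        (fun c : ℕ => Phi m n (lam m x i) ((m : ℤ) * j - (n : ℤ) * c)) (c + 1) := by
      intro c hc
      rw [mem_Ico] at hc
      have hb : bet x i c = (i : ℕ) - j := bet_eq x hx i j hj c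
        (fun k hk => le_trans (h1 k hk) hc.1) hc.2
      have hcx : c < x i := by
        have h3 : X x j ≤ X x i := X_mono x hx hj i.isLt
        rw [X_eq] at h3
        omega
      rw [cell_eq m x i c hcx ((m : ℤ) * j - (n : ℤ) * c) (by rw [hb]; push_cast [hj]; ring),
        ← Phi_step hn']
      simp only
      congr 2
      push_cast
      ring
    rw [Finset.sum_congr rfl this, sum_Ico_tele _ ha]
    rfl
  intro j
  induction j with
  | zero =>
    intro h0
    have := key 0 h0 0 (Nat.zero_le _) (fun k hk => absurd hk (Nat.not_lt_zero k))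
    rw [Finset.range_eq_Ico, this]
    simp
  | succ j ih =>
    intro hj
    have hj' : j ≤ (i : ℕ) := by omega
    have hle : X x j ≤ X x (j + 1) := X_mono x hx (Nat.le_succ j) (lt_of_le_of_lt hj i.isLt)
    have h1 := key (j + 1) hj (X x j) hle (fun k hk =>
      X_mono x hx (Nat.lt_succ_iff.1 hk) (lt_of_le_of_lt hj' i.isLt))
    rw [← Finset.sum_range_add_sum_Ico _ hle, ih hj', h1, Finset.sum_range_succ]
    have e : (m : ℤ) * ((j + 1 : ℕ) : ℤ) - (n : ℤ) * (X x j : ℤ) = Lk m x j + m := by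
      unfold Lk; push_cast; ring
    rw [e]
    ring

lemma Phi_self (m n L : ℤ) (hm : 0 < m) (hn : 0 < n) : Phi m n L L = 0 := by
  unfold Phi
  have h1 : L + m - L = m := by ring
  have h2 : L - L = 0 := by ring
  rw [h1, h2, min_eq_left ((ediv_nonneg_iff' hn m).2 hm.le)]
  simp

lemma sum_range_lt {n : ℕ} (i : Fin n) (h : ℕ → ℤ) :
    ∑ k ∈ range (i : ℕ), h k = ∑ j : Fin n, if j < i then h j else 0 := by
  have e1 : (∑ j : Fin n, if j < i then h j else 0) =
      ∑ k ∈ range n, (if k < (i : ℕ) then h k else 0) := by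
    rw [← Fin.sum_univ_eq_sum_range (fun k => if k < (i : ℕ) then h k else 0) n]
    rfl
  rw [e1, ← Finset.sum_filter]
  congr 1
  ext k
  simp only [mem_range, mem_filter]
  have := i.isLt
  omega

lemma cdinv_eq (m : ℕ) {n : ℕ} (hm : 0 < m) (hn : 0 < n) (x : Fin n → ℕ) (hx : Monotone x) :
    cdinvZ m x = ∑ i : Fin n, (Phi m n (lam m x i) 0 +
      ∑ j : Fin n, if j < i then psi m n (lam m x i - lam m x j) else 0) := by
  unfold cdinvZ
  refine Finset.sum_congr rfl (fun i _ => ?_)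
  have h := row_partial m hn x hx i i le_rfl
  rw [X_eq, Lk_eq, Phi_self _ _ _ (by exact_mod_cast hm) (by exact_mod_cast hn), sub_zero] at h
  rw [h, sum_range_lt]
  congr 1
  refine Finset.sum_congr rfl (fun j _ => ?_)
  rw [Lk_eq, Phi_sub]

lemma neg_eq (m : ℕ) {n : ℕ} (hn : 0 < n) (x : Fin n → ℕ) :
    (negZ m x : ℤ) + ∑ i : Fin n, Phi m n (lam m x i) 0 = Esum m x := by
  have hn' : (0 : ℤ) < n := by exact_mod_cast hn
  have e1 : (negZ m x : ℤ) = ∑ i : Fin n, (if lam m x i < 0 then (1 : ℤ) else 0) := by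
    unfold negZ
    rw [Finset.sum_boole]
  rw [e1, ← Finset.sum_add_distrib]
  unfold Esum
  refine Finset.sum_congr rfl (fun i _ => ?_)
  unfold Phi
  rw [sub_zero, sub_zero]
  generalize lam m x i = L
  by_cases h : L < 0
  · have h2 : L / n < 0 := by
      by_contra hc
      push Not at hc
      rw [ediv_nonneg_iff' hn'] at hc
      linarith
    rw [if_pos h, min_eq_right (show L / (n : ℤ) + 1 ≤ 0 by omega),
      min_eq_right (show L / (n : ℤ) ≤ 0 by omega)]
    ring
  · have h2 : 0 ≤ L / n := (ediv_nonneg_iff' hn' L).2 (not_lt.1 h)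
    rw [if_neg h, min_eq_left (show (0 : ℤ) ≤ L / (n : ℤ) + 1 by omega),
      min_eq_left (show (0 : ℤ) ≤ L / (n : ℤ) by omega)]
    ring

/-! ### pair sums -/

section pairs

variable (m : ℕ) {n N : ℕ} (x : Fin n → ℕ) (w : Fin n → Fin N)

def mid (p : Fin n × Fin n) : ℤ :=
  if w p.1 < w p.2 ∧ lam m x p.1 < lam m x p.2 ∧ lam m x p.2 < lam m x p.1 + m then 1 else 0

def e1 (p : Fin n × Fin n) : ℤ :=
  if p.1 < p.2 ∧ lam m x p.1 = lam m x p.2 ∧ w p.1 < w p.2 then 1 else 0

def e2 (p : Fin n × Fin n) : ℤ :=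
  if p.2 < p.1 ∧ lam m x p.2 = lam m x p.1 + m ∧ w p.1 < w p.2 then 1 else 0

def c1 (p : Fin n × Fin n) : ℤ :=
  if p.2 < p.1 ∧ (n : ℤ) ∣ lam m x p.1 - lam m x p.2 ∧ lam m x p.1 - lam m x p.2 < 0 then 1 else 0

def c2 (p : Fin n × Fin n) : ℤ :=
  if p.2 < p.1 ∧ (n : ℤ) ∣ lam m x p.1 - lam m x p.2 + m ∧ 0 < lam m x p.1 - lam m x p.2 + m
    then 1 else 0

def dg (p : Fin n × Fin n) : ℤ := if p.1 = p.2 ∧ (n : ℤ) ∣ m then 1 else 0

lemma tdinv_sum (hm : 0 < m) : (tdinvZ m x w : ℤ) = ∑ p, (mid m x w p + e1 m x w p + e2 m x w p) := by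
  have hm' : (0 : ℤ) < m := by exact_mod_cast hm
  unfold tdinvZ
  rw [Finset.card_filter]
  push_cast
  refine Finset.sum_congr rfl (fun p _ => ?_)
  unfold mid e1 e2 attZ
  rcases lt_trichotomy (lam m x p.1) (lam m x p.2) with h | h | h
  · rcases lt_trichotomy (lam m x p.2) (lam m x p.1 + m) with h' | h' | h'
    · simp [h, h', h.ne, h'.ne]
    · have hlt : lam m x p.1 < lam m x p.1 + m := by linarith
      by_cases hw : w p.1 < w p.2 <;> by_cases hp : p.2 < p.1 <;>
        simp [h', hw, hp, hm, hm.ne']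
    · have h1 : ¬ lam m x p.2 < lam m x p.1 + m := by linarith
      simp [h, h1, h.ne, h'.ne']
  · have h1 : lam m x p.2 < lam m x p.2 + m := by linarith
    have h2 : ¬ (m : ℤ) = 0 := hm'.ne'
    by_cases hw : w p.1 < w p.2 <;> by_cases hp : p.1 < p.2 <;>
        simp [h, hw, hp, hm, hm.ne']
  · have h1 : ¬ lam m x p.1 < lam m x p.2 := by linarith
    have h2 : ¬ lam m x p.2 = lam m x p.1 + m := by intro h2; linarith
    simp [h1, h.ne', h2]

lemma Tst_sum (hm : 0 < m) : (Tst m x w : ℤ) =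
    ∑ p, (c1 m x p + c2 m x p + dg m p + e1 m x w p + e2 m x w p) := by
  have hm' : (0 : ℤ) < m := by exact_mod_cast hm
  unfold Tst
  rw [Finset.card_filter, Finset.card_filter]
  push_cast
  have hA : (∑ p : Fin n × Fin n, if p.1 < p.2 ∧ (n : ℤ) ∣ lam m x p.1 - lam m x p.2 ∧
      (lam m x p.2 < lam m x p.1 ∨ (lam m x p.1 = lam m x p.2 ∧ w p.1 < w p.2)) then (1 : ℤ) else 0)
      = ∑ p, c1 m x p + ∑ p, e1 m x w p := by
    have : ∑ p, c1 m x p = ∑ p, c1 m x (Equiv.prodComm _ _ p) :=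
      (Equiv.sum_comp (Equiv.prodComm (Fin n) (Fin n)) (c1 m x)).symm
    rw [this, ← Finset.sum_add_distrib]
    refine Finset.sum_congr rfl (fun p _ => ?_)
    unfold c1 e1
    simp only [Equiv.prodComm_apply, Prod.fst_swap, Prod.snd_swap]
    have hd : ((n : ℤ) ∣ lam m x p.2 - lam m x p.1) ↔ ((n : ℤ) ∣ lam m x p.1 - lam m x p.2) :=
      dvd_sub_comm
    have hs : (lam m x p.2 - lam m x p.1 < 0) ↔ (lam m x p.2 < lam m x p.1) := sub_neg
    simp only [hd, hs]
    by_cases hp : p.1 < p.2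
    · rcases lt_trichotomy (lam m x p.1) (lam m x p.2) with h | h | h
      · have h1 : ¬ lam m x p.2 < lam m x p.1 := by linarith
        simp [hp, h1, h.ne]
      · simp [hp, h]
      · simp [hp, h, h.ne']
    · simp [hp]
  have hB : (∑ p : Fin n × Fin n, if p.1 ≤ p.2 ∧ (n : ℤ) ∣ lam m x p.2 + m - lam m x p.1 ∧
      (lam m x p.1 < lam m x p.2 + m ∨
      (lam m x p.1 = lam m x p.2 + m ∧ w p.2 < w p.1)) then (1 : ℤ) else 0)
      = ∑ p, c2 m x p + ∑ p : Fin n × Fin n, dg m p + ∑ p, e2 m x w p := by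
    have t1 : ∑ p, c2 m x p = ∑ p, c2 m x (Equiv.prodComm _ _ p) :=
      (Equiv.sum_comp (Equiv.prodComm (Fin n) (Fin n)) (c2 m x)).symm
    have t2 : ∑ p, e2 m x w p = ∑ p, e2 m x w (Equiv.prodComm _ _ p) :=
      (Equiv.sum_comp (Equiv.prodComm (Fin n) (Fin n)) (e2 m x w)).symm
    rw [t1, t2, ← Finset.sum_add_distrib, ← Finset.sum_add_distrib]
    refine Finset.sum_congr rfl (fun p _ => ?_)
    unfold c2 e2 dg
    simp only [Equiv.prodComm_apply, Prod.fst_swap, Prod.snd_swap]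
    have hd : lam m x p.2 + m - lam m x p.1 = lam m x p.2 - lam m x p.1 + m := by ring
    simp only [hd]
    rcases lt_trichotomy p.1 p.2 with hp | hp | hp
    · rcases lt_trichotomy (lam m x p.1) (lam m x p.2 + m) with h | h | h
      · have h1 : 0 < lam m x p.2 - lam m x p.1 + m := by linarith
        simp [hp, hp.le, hp.ne, h, h1, h.ne]
      · have h1 : lam m x p.2 - lam m x p.1 + m = 0 := by linarith
        simp only [h1]
        simp [hp, hp.le, hp.ne, h]
      · have h1 : ¬ 0 < lam m x p.2 - lam m x p.1 + m := by linarith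
        have h2 : ¬ lam m x p.1 < lam m x p.2 + m := by linarith
        simp [hp, hp.le, hp.ne, h2, h1, h.ne']
    · have h1 : lam m x p.2 - lam m x p.1 + m = m := by rw [hp]; ring
      simp only [h1]
      simp [hp, hm]
    · have h1 : ¬ p.1 ≤ p.2 := not_le.2 hp
      have h2 : ¬ p.1 < p.2 := not_lt.2 hp.le
      simp [h1, h2, hp.ne']
  rw [hA, hB]
  simp only [Finset.sum_add_distrib]
  ring

/-- the antisymmetric pair sum -/
def RR : ℤ := ∑ p : Fin n × Fin n, if p.2 < p.1 then rho m n (lam m x p.1 - lam m x p.2) else 0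

lemma main_form (hm : 0 < m) (hn : 0 < n) (hx : Monotone x) :
    dinvZ m x w - Tst m x w - Esum m x =
      ∑ p, mid m x w p + RR m x - ∑ p : Fin n × Fin n, dg m p := by
  unfold dinvZ
  rw [tdinv_sum m x w hm, Tst_sum m x w hm, cdinv_eq m hm hn x hx, ← neg_eq m hn x]
  have h1 : ∑ i : Fin n, (Phi m n (lam m x i) 0 +
      ∑ j : Fin n, if j < i then psi m n (lam m x i - lam m x j) else 0) =
      ∑ i : Fin n, Phi m n (lam m x i) 0 +
      ∑ p : Fin n × Fin n, if p.2 < p.1 then psi m n (lam m x p.1 - lam m x p.2) else 0 := by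
    rw [Finset.sum_add_distrib, Fintype.sum_prod_type]
  have h2 : RR m x = (∑ p : Fin n × Fin n, if p.2 < p.1 then
      psi m n (lam m x p.1 - lam m x p.2) else 0) - ∑ p, c1 m x p - ∑ p, c2 m x p := by
    unfold RR
    rw [← Finset.sum_sub_distrib, ← Finset.sum_sub_distrib]
    refine Finset.sum_congr rfl (fun p _ => ?_)
    unfold c1 c2 rho
    by_cases hp : p.2 < p.1
    · simp [hp]
    · simp [hp]
  rw [h1, h2]
  simp only [Finset.sum_add_distrib]
  ring

end pairs

lemma RR_double (m : ℕ) {n : ℕ} (hn : 0 < n) (x : Fin n → ℕ) :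
    2 * RR m x = (∑ p : Fin n × Fin n, if p.1 ≠ p.2 then rho m n (lam m x p.1 - lam m x p.2) else 0)
      + ∑ p : Fin n × Fin n, if p.2 < p.1 then
          Hf m n ((m : ℤ) * ((p.1 : ℕ) : ℤ) - (m : ℤ) * ((p.2 : ℕ) : ℤ)) else 0 := by
  have hn' : (0 : ℤ) < n := by exact_mod_cast hn
  have h1 : (∑ p : Fin n × Fin n, if p.1 ≠ p.2 then rho m n (lam m x p.1 - lam m x p.2) else 0) =
      RR m x + ∑ p : Fin n × Fin n, if p.2 < p.1 then rho m n (lam m x p.2 - lam m x p.1) else 0 := by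
    have : (∑ p : Fin n × Fin n, if p.2 < p.1 then rho m n (lam m x p.2 - lam m x p.1) else 0) =
        ∑ p : Fin n × Fin n, if p.1 < p.2 then rho m n (lam m x p.1 - lam m x p.2) else 0 := by
      exact (Equiv.sum_comp (Equiv.prodComm (Fin n) (Fin n)) (fun p : Fin n × Fin n =>
        if p.1 < p.2 then rho m n (lam m x p.1 - lam m x p.2) else 0))
    rw [this]
    unfold RR
    rw [← Finset.sum_add_distrib]
    refine Finset.sum_congr rfl (fun p _ => ?_)
    rcases lt_trichotomy p.1 p.2 with hp | hp | hp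
    · simp [hp.ne, hp, not_lt.2 hp.le]
    · simp [hp]
    · simp [hp.ne', hp, not_lt.2 hp.le]
  rw [h1]
  have h2 : (∑ p : Fin n × Fin n, if p.2 < p.1 then
          Hf m n ((m : ℤ) * ((p.1 : ℕ) : ℤ) - (m : ℤ) * ((p.2 : ℕ) : ℤ)) else 0) =
      RR m x - ∑ p : Fin n × Fin n, if p.2 < p.1 then rho m n (lam m x p.2 - lam m x p.1) else 0 := by
    unfold RR
    rw [← Finset.sum_sub_distrib]
    refine Finset.sum_congr rfl (fun p _ => ?_)
    by_cases hp : p.2 < p.1
    · rw [if_pos hp, if_pos hp, if_pos hp]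
      have e : lam m x p.2 - lam m x p.1 = -(lam m x p.1 - lam m x p.2) := by ring
      rw [e, rho_sub hn']
      have e' : (m : ℤ) * ((p.1 : ℕ) : ℤ) - (m : ℤ) * ((p.2 : ℕ) : ℤ) =
          (lam m x p.1 - lam m x p.2) + (n : ℤ) * ((x p.1 : ℤ) - (x p.2 : ℤ)) := by
        unfold lam; ring
      rw [e', Hf_add_mul hn']
    · rw [if_neg hp, if_neg hp, if_neg hp]; ring
  rw [h2]; ring

end M1

open M1 in
theorem dinv_compare {m n N : ℕ} (hm : 0 < m) (hn : 0 < n) (x x' : Fin n → ℕ)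
    (hx : Monotone x) (hx' : Monotone x') (w w' : Fin n → Fin N) (σ : Equiv.Perm (Fin n)) (D : ℤ)
    (h : ∀ i, lam m x' i = lam m x (σ i) + D) (hw : ∀ i, w' i = w (σ i)) :
    dinvZ m x' w' - Tst m x' w' - Esum m x' = dinvZ m x w - Tst m x w - Esum m x := by
  rw [main_form m x' w' hm hn hx', main_form m x w hm hn hx]
  have hmid : ∑ p, mid m x' w' p = ∑ p, mid m x w p := by
    rw [← Equiv.sum_comp (Equiv.prodCongr σ σ) (mid m x w)]
    refine Finset.sum_congr rfl (fun p _ => ?_)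
    unfold mid
    simp only [Equiv.prodCongr_apply, Prod.map_fst, Prod.map_snd, h, hw]
    have e1 : (lam m x (σ p.1) + D < lam m x (σ p.2) + D) ↔ lam m x (σ p.1) < lam m x (σ p.2) := by
      constructor <;> intro h <;> linarith
    have e2 : (lam m x (σ p.2) + D < lam m x (σ p.1) + D + m) ↔
        lam m x (σ p.2) < lam m x (σ p.1) + m := by
      constructor <;> intro h <;> linarith
    simp only [e1, e2]
  have hRR : RR m x' = RR m x := by
    have h2 : 2 * RR m x' = 2 * RR m x := by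
      rw [RR_double m hn x', RR_double m hn x]
      congr 1
      rw [← Equiv.sum_comp (Equiv.prodCongr σ σ) (fun p : Fin n × Fin n =>
        if p.1 ≠ p.2 then rho m n (lam m x p.1 - lam m x p.2) else 0)]
      refine Finset.sum_congr rfl (fun p _ => ?_)
      simp only [Equiv.prodCongr_apply, Prod.map_fst, Prod.map_snd, h, ne_eq,
        EmbeddingLike.apply_eq_iff_eq]
      have e : lam m x (σ p.1) + D - (lam m x (σ p.2) + D) = lam m x (σ p.1) - lam m x (σ p.2) := by
        ring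
      rw [e]
    linarith
  rw [hmid, hRR]

end Pool.Agent.Lib.MP_0e7911_co_h50
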