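import Pool.Agent.Lib.MP_0e7911_co_h56.DinvDefs
import Pool.Agent.Lib.MP_0e7911_co_rect.Defs

set_option autoImplicit false

namespace Pool.Agent.Lib.MP_0e7911_co_rect

open Finset Pool.Agent.Lib.MP_0e7911_co_h50

namespace M9

variable {m n N : ℕ}

lemma lam_eq [NeZero n] (x : Fin n → Fin m) (i : Fin n) :
    (lam m (fun i => (x i : ℕ)) i : ℚ) = (n : ℚ) * level x i := by
  have hn : (n : ℚ) ≠ 0 := by exact_mod_cast NeZero.ne n
  unfold lam level
  push_cast
  field_simp

lemma npos [NeZero n] : (0 : ℚ) < (n : ℚ) := by exact_mod_cast NeZero.pos n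

lemma level_lt_iff [NeZero n] (x : Fin n → Fin m) (i j : Fin n) :
    level x i < level x j ↔ lam m (fun i => (x i : ℕ)) i < lam m (fun i => (x i : ℕ)) j := by
  rw [← Int.cast_lt (R := ℚ), lam_eq, lam_eq, mul_lt_mul_iff_right₀ npos]

lemma level_eq_iff [NeZero n] (x : Fin n → Fin m) (i j : Fin n) :
    level x i = level x j ↔ lam m (fun i => (x i : ℕ)) i = lam m (fun i => (x i : ℕ)) j := by
  rw [← Int.cast_inj (α := ℚ), lam_eq, lam_eq, mul_right_inj' npos.ne']

lemma level_lt_add_iff [NeZero n] (x : Fin n → Fin m) (i j : Fin n) :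
    level x j < level x i + (m : ℚ) / (n : ℚ) ↔
      lam m (fun i => (x i : ℕ)) j < lam m (fun i => (x i : ℕ)) i + m := by
  rw [← Int.cast_lt (R := ℚ), Int.cast_add, lam_eq, lam_eq, Int.cast_natCast,
    ← mul_lt_mul_iff_right₀ (npos (n := n)), mul_add, mul_div_cancel₀ _ (npos (n := n)).ne']

lemma level_eq_add_iff [NeZero n] (x : Fin n → Fin m) (i j : Fin n) :
    level x j = level x i + (m : ℚ) / (n : ℚ) ↔
      lam m (fun i => (x i : ℕ)) j = lam m (fun i => (x i : ℕ)) i + m := by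
  rw [← Int.cast_inj (α := ℚ), Int.cast_add, lam_eq, lam_eq, Int.cast_natCast,
    ← mul_right_inj' (npos (n := n)).ne', mul_add, mul_div_cancel₀ _ (npos (n := n)).ne']

lemma attacks_iff [NeZero n] (x : Fin n → Fin m) (i j : Fin n) :
    Attacks x i j ↔ attZ m (fun i => (x i : ℕ)) i j := by
  unfold Attacks attZ
  rw [Prod.Lex.toLex_lt_toLex, Prod.Lex.toLex_lt_toLex]
  simp only
  rw [level_lt_iff, level_eq_iff, level_lt_add_iff, level_eq_add_iff]

lemma right_eq (x : Fin n → Fin m) (i : Fin n) (c : Fin m) :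
    right x (i, c) = (x i : ℕ) - 1 - (c : ℕ) := by
  unfold right cells
  rw [filter_filter]
  have h : (univ.filter (fun a : Fin n × Fin m => a.2 < x a.1 ∧ a.1 = i ∧ c < a.2)) =
      (Finset.Ioo c (x i)).image (fun c' => (i, c')) := by
    ext ⟨i', c'⟩
    simp only [mem_filter, mem_univ, true_and, mem_image, mem_Ioo, Prod.mk.injEq]
    constructor
    · rintro ⟨h1, rfl, h2⟩
      exact ⟨c', ⟨h2, h1⟩, rfl, rfl⟩
    · rintro ⟨c'', ⟨h1, h2⟩, rfl, rfl⟩
      exact ⟨h2, rfl, h1⟩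
  rw [h, card_image_of_injective _ (fun a b hab => (Prod.mk.inj hab).2), Fin.card_Ioo]
  omega

lemma below_eq (x : Fin n → Fin m) (i : Fin n) (c : Fin m) :
    below x (i, c) = bet (fun i => (x i : ℕ)) i (c : ℕ) := by
  unfold below cells bet
  rw [filter_filter]
  have h : (univ.filter (fun a : Fin n × Fin m => a.2 < x a.1 ∧ a.2 = c ∧ a.1 < i)) =
      (univ.filter (fun i' : Fin n => i' < i ∧ (c : ℕ) < (x i' : ℕ))).image
        (fun i' => (i', c)) := by
    ext ⟨i', c'⟩
    simp only [mem_filter, mem_univ, true_and, mem_image, Prod.mk.injEq]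
    constructor
    · rintro ⟨h1, rfl, h2⟩
      exact ⟨i', ⟨h2, h1⟩, rfl, rfl⟩
    · rintro ⟨i'', ⟨h1, h2⟩, rfl, rfl⟩
      exact ⟨h2, rfl, h1⟩
  rw [h, card_image_of_injective _ (fun a b hab => (Prod.mk.inj hab).1)]

lemma ratio_succ (a b : ℕ) : ratio (a + 1) (b + 1) = ((((a + 1 : ℕ) : ℚ) / ((b + 1 : ℕ) : ℚ) : ℚ) :
    WithTop ℚ) := by
  unfold ratio
  rw [if_neg]
  rintro ⟨h, _⟩
  exact Nat.succ_ne_zero b h

lemma ratio_succ_le [NeZero n] (a b : ℕ) :
    ratio (a + 1) (b + 1) ≤ (((m : ℚ) / (n : ℚ) : ℚ) : WithTop ℚ) ↔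
      n * (a + 1) ≤ m * (b + 1) := by
  rw [ratio_succ, WithTop.coe_le_coe, div_le_div_iff₀ (by positivity) npos]
  rw [← Nat.cast_le (α := ℚ)]
  push_cast
  rw [mul_comm ((a : ℚ) + 1)]

lemma lt_ratio_succ [NeZero n] (a b : ℕ) :
    (((m : ℚ) / (n : ℚ) : ℚ) : WithTop ℚ) < ratio (a + 1) (b + 1) ↔
      m * (b + 1) < n * (a + 1) := by
  rw [← not_le, ratio_succ_le, not_le]

lemma ratio_le [NeZero n] (a b : ℕ) :
    ratio a b ≤ (((m : ℚ) / (n : ℚ) : ℚ) : WithTop ℚ) ↔ n * a ≤ m * b := by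
  rcases Nat.eq_zero_or_pos b with rfl | hb
  · rcases Nat.eq_zero_or_pos a with rfl | ha
    · unfold ratio
      rw [if_neg (by simp), WithTop.coe_le_coe]
      simp only [Nat.cast_zero, div_zero, mul_zero, le_refl, iff_true]
      positivity
    · unfold ratio
      rw [if_pos ⟨rfl, ha⟩]
      have hn : 0 < n := NeZero.pos n
      constructor
      · intro h
        rw [top_le_iff] at h
        exact absurd h (WithTop.coe_ne_top)
      · intro h
        have := Nat.mul_pos hn ha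
        omega
  · obtain ⟨b', rfl⟩ : ∃ b', b = b' + 1 := ⟨b - 1, by omega⟩
    unfold ratio
    rw [if_neg (by simp), WithTop.coe_le_coe, div_le_div_iff₀ (by positivity) npos,
      ← Nat.cast_le (α := ℚ)]
    push_cast
    rw [mul_comm (a : ℚ)]

lemma lt_ratio [NeZero n] (a b : ℕ) :
    (((m : ℚ) / (n : ℚ) : ℚ) : WithTop ℚ) < ratio a b ↔ m * b < n * a := by
  rw [← not_le, ratio_le, not_le]

lemma cdinv_eq [NeZero n] (x : Fin n → Fin m) : cdinv x = cdinvZ m (fun i => (x i : ℕ)) := by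
  unfold cdinv cdinvZ
  rw [Finset.card_filter, Finset.card_filter]
  push_cast
  rw [← Finset.sum_sub_distrib]
  unfold cells
  rw [Finset.sum_filter, ← Finset.univ_product_univ, Finset.sum_product]
  refine Finset.sum_congr rfl (fun i _ => ?_)
  have h1 : ∀ c : Fin m, (if c < x i then
      ((if ratio (right x (i, c) + 1) (below x (i, c) + 1) ≤ (((m : ℚ) / (n : ℚ) : ℚ) : WithTop ℚ) ∧
        (((m : ℚ) / (n : ℚ) : ℚ) : WithTop ℚ) < ratio (right x (i, c)) (below x (i, c))
        then (1 : ℤ) else 0) -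
      (if ratio (right x (i, c)) (below x (i, c)) ≤ (((m : ℚ) / (n : ℚ) : ℚ) : WithTop ℚ) ∧
        (((m : ℚ) / (n : ℚ) : ℚ) : WithTop ℚ) <
          ratio (right x (i, c) + 1) (below x (i, c) + 1) then (1 : ℤ) else 0)) else 0) =
      if (c : ℕ) < (x i : ℕ) then cellZ m (fun i => (x i : ℕ)) i (c : ℕ) else 0 := by
    intro c
    simp only [ratio_succ_le, lt_ratio, ratio_le, lt_ratio_succ, right_eq, below_eq]
    rfl
  rw [Finset.sum_congr rfl (fun c _ => h1 c),
    Fin.sum_univ_eq_sum_range (fun c => if c < (x i : ℕ) then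
      cellZ m (fun i => (x i : ℕ)) i c else 0) m, ← Finset.sum_filter]
  refine Finset.sum_congr ?_ (fun _ _ => rfl)
  ext c
  have := (x i).isLt
  simp only [mem_filter, mem_range]
  omega

end M9

open M9

theorem dinv_eq {m n N : ℕ} [NeZero n] (hm : 0 < m) (x : Fin n → Fin m) (w : Fin n → Fin N) :
    dinv x w = dinvZ m (fun i => (x i : ℕ)) w := by
  unfold dinv dinvZ
  rw [cdinv_eq]
  have h1 : tdinv x w = tdinvZ m (fun i => (x i : ℕ)) w := by
    unfold tdinv tdinvZ
    congr 1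
    ext p
    simp only [mem_filter, mem_univ, true_and, attacks_iff]
  have h2 : (univ.filter (fun i : Fin n => level x i < 0)).card = negZ m (fun i => (x i : ℕ)) := by
    unfold negZ
    congr 1
    ext i
    simp only [mem_filter, mem_univ, true_and]
    rw [← Int.cast_lt (R := ℚ), lam_eq, Int.cast_zero]
    constructor
    · intro h
      exact mul_neg_of_pos_of_neg npos h
    · intro h
      exact neg_of_mul_neg_right h npos.le
  rw [h1, h2]

end Pool.Agent.Lib.MP_0e7911_co_rect
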