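import Pool.Agent.Lib.MP_0e7911_co_h56.FRPath
import Pool.Agent.Lib.MP_0e7911_co_rect.Main

/-!
# The first return identity
-/

set_option autoImplicit false

namespace Pool.Agent.Lib.MP_0e7911_co_rect

open Finset Pool.Agent.Lib.MP_0e7911_co_h50 Polynomial

/-- The path `x` avoids the joints `1, ..., i`: it does not pass through the points
`(j m / d, j n / d)`, `1 ≤ j ≤ i`, `d = gcd m n`. -/
def Avoids {m n : ℕ} (i : ℕ) (x : Fin n → Fin m) : Prop :=
  ∀ s : Fin n, 0 < (s : ℕ) → (s : ℕ) ≤ i * (n / Nat.gcd m n) → n * (x s : ℕ) ≠ m * (s : ℕ)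

instance {m n : ℕ} (i : ℕ) (x : Fin n → Fin m) : Decidable (Avoids i x) := by
  unfold Avoids; infer_instance

theorem avoids_zero {m n : ℕ} (x : Fin n → Fin m) : Avoids 0 x := by
  intro s h1 h2
  omega

/-- the Hecke identity at all `q` for which the `q`-integers do not vanish -/
def Gap : Prop := ∀ (L : Type) [Field L] (q : L), q ≠ 0 → (∀ k, 1 ≤ k → qint q k ≠ 0) →
  ∀ e : ℕ, FR.GapStmt q e

open M7d in
theorem KA_iff {b e a N : ℕ} (hcop : Nat.Coprime a (b + 1))
    (x : Fin ((e + 1) * (b + 1)) → Fin ((e + 1) * a)) (w : Fin ((e + 1) * (b + 1)) → Fin N)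
    (hb : IsBase ((e + 1) * a) (fun i => (x i : ℕ)) 0) (i : ℕ) :
    FR.KA i (keyf ((e + 1) * a) (fun i => (x i : ℕ)) w 0) ↔ Avoids i x := by
  have hgcd : Nat.gcd ((e + 1) * a) ((e + 1) * (b + 1)) = e + 1 := by
    rw [Nat.gcd_mul_left]
    have : Nat.gcd a (b + 1) = 1 := hcop
    rw [this, mul_one]
  have hdiv : (e + 1) * (b + 1) / Nat.gcd ((e + 1) * a) ((e + 1) * (b + 1)) = b + 1 := by
    rw [hgcd, Nat.mul_div_cancel_left _ (Nat.succ_pos e)]
  have hlev : ∀ j : Fin (e + 1), (keyf ((e + 1) * a) (fun i => (x i : ℕ)) w 0 0 j).lev =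
      lam ((e + 1) * a) (fun i => (x i : ℕ)) (pos j 0) := by
    intro j
    rw [keyf_lev, add_zero]
  have hpv : ∀ j : Fin (e + 1), ((pos j (0 : Fin (b + 1)) : Fin ((e + 1) * (b + 1))) : ℕ) =
      (j : ℕ) * (b + 1) := by
    intro j
    rw [pos_val]
    simp [mul_comm]
  have hlam : ∀ s : Fin ((e + 1) * (b + 1)), lam ((e + 1) * a) (fun i => (x i : ℕ)) s ≤ 0 ↔
      (e + 1) * (b + 1) * (x s : ℕ) = (e + 1) * a * (s : ℕ) := by
    intro s
    have h1 := hb.1 s
    rw [add_zero] at h1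
    have h2 : lam ((e + 1) * a) (fun i => (x i : ℕ)) s ≤ 0 ↔
        lam ((e + 1) * a) (fun i => (x i : ℕ)) s = 0 :=
      ⟨fun h => le_antisymm h h1, fun h => h.le⟩
    rw [h2]
    unfold lam
    rw [sub_eq_zero]
    constructor
    · intro h; exact_mod_cast h.symm
    · intro h; exact_mod_cast h.symm
  unfold FR.KA Avoids
  rw [hdiv]
  constructor
  · intro h s hs1 hs2 hs3
    -- `s` is a joint
    have h1 : (e + 1) * ((b + 1) * (x s : ℕ)) = (e + 1) * (a * (s : ℕ)) := by
      rw [← mul_assoc, ← mul_assoc]; exact hs3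
    have h2 := Nat.eq_of_mul_eq_mul_left (Nat.succ_pos e) h1
    have h3 : (b + 1) ∣ a * (s : ℕ) := ⟨_, h2.symm⟩
    obtain ⟨j, hj⟩ := Nat.Coprime.dvd_of_dvd_mul_left hcop.symm h3
    have hje : j < e + 1 := by
      have h4 := s.2
      rw [hj, mul_comm (b + 1) j] at h4
      exact Nat.lt_of_mul_lt_mul_right h4
    have hj0 : 0 < j := by
      rcases Nat.eq_zero_or_pos j with h5 | h5
      · rw [h5, mul_zero] at hj; omega
      · exact h5
    have hji : j ≤ i := by
      rw [hj, mul_comm (b + 1) j] at hs2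
      exact Nat.le_of_mul_le_mul_right hs2 (Nat.succ_pos b)
    have h6 := h ⟨j, hje⟩ hj0 hji
    rw [hlev, hlam] at h6
    have h7 : pos (⟨j, hje⟩ : Fin (e + 1)) (0 : Fin (b + 1)) = s := by
      apply Fin.ext
      rw [hpv, hj, mul_comm]
    rw [h7] at h6
    exact h6 hs3
  · intro h j hj1 hj2
    rw [hlev, hlam]
    refine h _ ?_ ?_
    · rw [hpv]; positivity
    · rw [hpv]; exact Nat.mul_le_mul_right _ hj2

theorem first_aux {K : Type*} [Field K] {b e a N : ℕ} (ha : 0 < a)
    (hcop : Nat.Coprime a (b + 1)) (q : K) (hq : q ≠ 0) (hgap : FR.GapStmt q e)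
    (hPhi : ∀ G : Fin (e + 1) → Key N,
      (∑ g : Equiv.Perm (Fin (e + 1)), if G ∘ g = G then q ^ inv g else 0) ≠ 0)
    [NeZero ((e + 1) * (b + 1))]
    (M : Multiset (ℚ × Fin N)) :
    qint q (M.countP (fun z => z.1 = 0)) * ∑ i ∈ range (e + 1), q ^ i *
      ∑ p ∈ (LRD ((e + 1) * a) ((e + 1) * (b + 1)) N).filter
        (fun p => prof p = M ∧ Avoids i p.1), q ^ dinv p.1 p.2 =
    qint q (e + 1) *
      ∑ p ∈ (LRD ((e + 1) * a) ((e + 1) * (b + 1)) N).filter (fun p => prof p = M),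
        q ^ dinv p.1 p.2 := by
  classical
  by_cases h : ∃ p0 ∈ LRP ((e + 1) * a) ((e + 1) * (b + 1)) N, prof p0 = M
  · obtain ⟨p0, hp0, hM⟩ := h
    obtain ⟨S0, hS0, -⟩ := exists_base p0.1
    have hm : 0 < (e + 1) * a := by positivity
    set M0 := Multiset.map (fun i => (lam ((e + 1) * a) (fun i => (p0.1 i : ℕ)) i + (S0 : ℤ),
      p0.2 i)) univ.val with hM0
    have hprof : ∀ (p : (Fin ((e + 1) * (b + 1)) → Fin ((e + 1) * a)) ×
        (Fin ((e + 1) * (b + 1)) → Fin N)) (S : ℤ), IsBase ((e + 1) * a) (fun i => (p.1 i : ℕ)) S →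
        (prof p = M ↔ Multiset.map (fun i => (lam ((e + 1) * a) (fun i => (p.1 i : ℕ)) i + S,
          p.2 i)) univ.val = M0) := by
      intro p S hS
      rw [← hM]
      exact prof_eq_iff p.1 p0.1 p.2 p0.2 S S0 hS hS0
    have hcount : M.countP (fun z => z.1 = 0) = M0.countP (fun z => z.1 = 0) := by
      rw [← hM, ← touches_prof, touches_eq p0.1 S0 hS0, hM0, Multiset.countP_map,
        ← Finset.filter_val, Finset.card_val]
    have htot := FR.first_total q hq hgap hPhi ha hcop (fun i => (p0.1 i : ℕ)) p0.2 (S0 : ℤ)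
      ((mem_LRP p0).1 hp0).1 hS0 M0 hM0
    have key : ∀ i : ℕ, ∑ p ∈ (LRD ((e + 1) * a) ((e + 1) * (b + 1)) N).filter
        (fun p => prof p = M ∧ Avoids i p.1), q ^ dinv p.1 p.2 = FR.UA q b e a M0 i := by
      intro i
      have e1 : (LRD ((e + 1) * a) ((e + 1) * (b + 1)) N).filter
          (fun p => prof p = M ∧ Avoids i p.1) =
          univ.filter (fun p => (p ∈ LRP ((e + 1) * a) ((e + 1) * (b + 1)) N ∧ IsDyck p.1) ∧
            (prof p = M ∧ Avoids i p.1)) := by
        ext p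
        unfold LRD
        simp only [mem_filter, mem_univ, true_and]
      unfold FR.UA
      rw [e1, Finset.sum_filter]
      refine Finset.sum_congr rfl fun p _ => ?_
      by_cases hp : (p ∈ LRP ((e + 1) * a) ((e + 1) * (b + 1)) N ∧ IsDyck p.1) ∧
            (prof p = M ∧ Avoids i p.1)
      · have hb := (isDyck_iff p.1).1 hp.1.2
        rw [if_pos hp, if_pos ⟨(mem_LRP p).1 hp.1.1, hb, (hprof p 0 hb).1 hp.2.1,
          (KA_iff hcop p.1 p.2 hb i).2 hp.2.2⟩, dinv_eq hm]
      · rw [if_neg hp, if_neg]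
        rintro ⟨h1, hS, h2, h3⟩
        exact hp ⟨⟨(mem_LRP p).2 h1, (isDyck_iff p.1).2 hS⟩, (hprof p 0 hS).2 h2,
          (KA_iff hcop p.1 p.2 hS i).1 h3⟩
    have key0 : ∑ p ∈ (LRD ((e + 1) * a) ((e + 1) * (b + 1)) N).filter
        (fun p => prof p = M), q ^ dinv p.1 p.2 = FR.UA q b e a M0 0 := by
      rw [← key 0]
      refine Finset.sum_congr ?_ fun _ _ => rfl
      refine Finset.filter_congr fun p _ => ?_
      exact ⟨fun h => ⟨h, avoids_zero p.1⟩, fun h => h.1⟩
    rw [hcount, key0, sum_congr rfl fun i _ => congrArg (fun y => q ^ i * y) (key i)]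
    exact htot
  · push Not at h
    have h1 : ∀ i : ℕ, (LRD ((e + 1) * a) ((e + 1) * (b + 1)) N).filter
        (fun p => prof p = M ∧ Avoids i p.1) = ∅ := fun i =>
      Finset.filter_false_of_mem (fun p hp h' => h p (Finset.mem_of_mem_filter p hp) h'.1)
    have h2 : (LRD ((e + 1) * a) ((e + 1) * (b + 1)) N).filter (fun p => prof p = M) = ∅ :=
      Finset.filter_false_of_mem (fun p hp => h p (Finset.mem_of_mem_filter p hp))
    rw [h2, Finset.sum_empty, mul_zero]
    apply mul_eq_zero_of_right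
    refine sum_eq_zero fun i _ => ?_
    rw [h1, Finset.sum_empty, mul_zero]

theorem first_gen {K : Type*} [Field K] {m n N : ℕ} [NeZero m] [NeZero n] (q : K) (hq : q ≠ 0)
    (hgap : ∀ e : ℕ, FR.GapStmt q e)
    (hPhi : ∀ (e : ℕ) (G : Fin (e + 1) → Key N),
      (∑ g : Equiv.Perm (Fin (e + 1)), if G ∘ g = G then q ^ inv g else 0) ≠ 0)
    (M : Multiset (ℚ × Fin N)) :
    qint q (M.countP (fun z => z.1 = 0)) * ∑ i ∈ range (Nat.gcd m n), q ^ i *
      ∑ p ∈ (LRD m n N).filter (fun p => prof p = M ∧ Avoids i p.1), q ^ dinv p.1 p.2 =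
    qint q (Nat.gcd m n) *
      ∑ p ∈ (LRD m n N).filter (fun p => prof p = M), q ^ dinv p.1 p.2 := by
  have hm : 0 < m := Nat.pos_of_ne_zero (NeZero.ne m)
  have hn : 0 < n := Nat.pos_of_ne_zero (NeZero.ne n)
  obtain ⟨e, he⟩ : ∃ e, Nat.gcd m n = e + 1 :=
    ⟨Nat.gcd m n - 1, by have := Nat.gcd_pos_of_pos_left n hm; omega⟩
  obtain ⟨a, ha⟩ : ∃ a, m = (e + 1) * a := by
    rw [← he]; exact Nat.gcd_dvd_left m n
  obtain ⟨b', hb'⟩ : ∃ b', n = (e + 1) * b' := by
    rw [← he]; exact Nat.gcd_dvd_right m n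
  have ha0 : 0 < a := by
    rcases Nat.eq_zero_or_pos a with h | h
    · rw [h, mul_zero] at ha; omega
    · exact h
  obtain ⟨b, rfl⟩ : ∃ b, b' = b + 1 := by
    rcases Nat.eq_zero_or_pos b' with h | h
    · rw [h, mul_zero] at hb'; omega
    · exact ⟨b' - 1, by omega⟩
  have hcop : Nat.Coprime a (b + 1) := by
    have he' := he
    rw [ha, hb', Nat.gcd_mul_left] at he'
    have : Nat.gcd a (b + 1) = 1 := by
      have h1 : (e + 1) * Nat.gcd a (b + 1) = (e + 1) * 1 := by rw [he', mul_one]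
      exact Nat.eq_of_mul_eq_mul_left (Nat.succ_pos e) h1
    exact this
  subst ha hb'
  rw [he]
  exact first_aux ha0 hcop q hq (hgap e) (hPhi e) M

/-- from a transcendental `q` to every nonzero `q` (sums weighted by `q`-integers) -/
theorem transfer_qint {ι : Type*} (A B : Finset ι) (d : ι → ℤ) (k m : ℕ)
    {L : Type*} [Field L] (φ : ℤ[X] →+* L) (hφ : Function.Injective φ)
    (h : qint (φ X) k * ∑ p ∈ A, (φ X) ^ d p = qint (φ X) m * ∑ p ∈ B, (φ X) ^ d p)
    {K : Type*} [Field K] (q : K) (hq : q ≠ 0) :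
    qint q k * ∑ p ∈ A, q ^ d p = qint q m * ∑ p ∈ B, q ^ d p := by
  refine transfer A B d k m φ hφ ?_ q hq
  have g1 := mul_geom_sum (φ X) k
  have g2 := mul_geom_sum (φ X) m
  unfold qint at h
  rw [← g1, ← g2, mul_assoc, mul_assoc, h]

theorem qint_ne_zero {L : Type*} [Field L] (φ : ℤ[X] →+* L) (hφ : Function.Injective φ)
    (k : ℕ) (hk : 1 ≤ k) : qint (φ X) k ≠ 0 := by
  intro h
  have h1 : φ (∑ i ∈ range k, (X : ℤ[X]) ^ i) = φ 0 := by
    rw [map_sum, map_zero, ← h]
    unfold qint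
    exact sum_congr rfl fun i _ => by rw [map_pow]
  have h3 := congrArg (Polynomial.eval 1) (hφ h1)
  rw [Polynomial.eval_finset_sum, Polynomial.eval_zero] at h3
  simp at h3
  omega

/-- index set of the left side -/
def indA (m n N : ℕ) [NeZero n] (M : Multiset (ℚ × Fin N)) :
    Finset (ℕ × ((Fin n → Fin m) × (Fin n → Fin N))) :=
  ((range (Nat.gcd m n)) ×ˢ (LRD m n N)).filter (fun z => prof z.2 = M ∧ Avoids z.1 z.2.1)

/-- index set of the right side -/
def indB (m n N : ℕ) [NeZero n] (M : Multiset (ℚ × Fin N)) :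
    Finset (ℕ × ((Fin n → Fin m) × (Fin n → Fin N))) :=
  ((LRD m n N).filter (fun p => prof p = M)).map
    ⟨fun p => ((0 : ℕ), p), fun _ _ h => (Prod.ext_iff.1 h).2⟩

/-- exponent -/
def indD {m n N : ℕ} (z : ℕ × ((Fin n → Fin m) × (Fin n → Fin N))) : ℤ :=
  (z.1 : ℤ) + dinv z.2.1 z.2.2

theorem sum_indA {m n N : ℕ} [NeZero n] (M : Multiset (ℚ × Fin N)) {K : Type*} [Field K] (r : K)
    (hr : r ≠ 0) :
    ∑ i ∈ range (Nat.gcd m n), r ^ i *
        ∑ p ∈ (LRD m n N).filter (fun p => prof p = M ∧ Avoids i p.1), r ^ dinv p.1 p.2 =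
      ∑ z ∈ indA m n N M, r ^ indD z := by
  unfold indA
  rw [sum_filter, sum_product]
  refine sum_congr rfl fun i _ => ?_
  rw [mul_sum, sum_filter]
  refine sum_congr rfl fun p _ => ?_
  by_cases h1 : prof p = M ∧ Avoids i p.1
  · rw [if_pos h1, if_pos h1]
    unfold indD
    simp only
    rw [zpow_add₀ hr, zpow_natCast]
  · rw [if_neg h1, if_neg h1]

theorem sum_indB {m n N : ℕ} [NeZero n] (M : Multiset (ℚ × Fin N)) {K : Type*} [Field K] (r : K) :
    ∑ p ∈ (LRD m n N).filter (fun p => prof p = M), r ^ dinv p.1 p.2 =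
      ∑ z ∈ indB m n N M, r ^ indD z := by
  unfold indB
  rw [sum_map]
  refine sum_congr rfl fun p _ => ?_
  unfold indD
  simp

theorem first_refined_aux {m n N : ℕ} [NeZero m] [NeZero n] (hgap : Gap)
    {K : Type*} [Field K] (q : K) (hq : q ≠ 0)
    (M : Multiset (ℚ × Fin N)) {L : Type} [Field L] (φ : ℤ[X] →+* L)
    (hφ : Function.Injective φ) :
    qint q (M.countP (fun z => z.1 = 0)) * ∑ i ∈ range (Nat.gcd m n), q ^ i *
      ∑ p ∈ (LRD m n N).filter (fun p => prof p = M ∧ Avoids i p.1), q ^ dinv p.1 p.2 =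
    qint q (Nat.gcd m n) *
      ∑ p ∈ (LRD m n N).filter (fun p => prof p = M), q ^ dinv p.1 p.2 := by
  have hX : φ X ≠ 0 := by
    intro h0
    exact X_ne_zero (hφ (h0.trans (map_zero φ).symm))
  have h := first_gen (m := m) (n := n) (φ X) hX (hgap L (φ X) hX (qint_ne_zero φ hφ))
    (fun e G => phi_ne_zero φ hφ e G) M
  rw [sum_indA M (φ X) hX, sum_indB M (φ X)] at h
  rw [sum_indA M q hq, sum_indB M q]
  exact transfer_qint (indA m n N M) (indB m n N M) indD _ _ φ hφ h q hq

/-- The first return identity for the paths with a given profile. -/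
theorem first_refined {m n N : ℕ} [NeZero m] [NeZero n] (hgap : Gap)
    {K : Type*} [Field K] (q : K) (hq : q ≠ 0) (M : Multiset (ℚ × Fin N)) :
    qint q (M.countP (fun z => z.1 = 0)) * ∑ i ∈ range (Nat.gcd m n), q ^ i *
      ∑ p ∈ (LRD m n N).filter (fun p => prof p = M ∧ Avoids i p.1), q ^ dinv p.1 p.2 =
    qint q (Nat.gcd m n) *
      ∑ p ∈ (LRD m n N).filter (fun p => prof p = M), q ^ dinv p.1 p.2 := by
  obtain ⟨L, hL, φ, hφ⟩ := exists_field
  exact first_refined_aux hgap q hq M φ hφ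

section

variable {K : Type*} [Field K] {m n N : ℕ} [NeZero m] [NeZero n]

/-- The weighted sum over the labelled Dyck paths of `[first return]_q`, written as a sum over
the number `i` of avoided joints. -/
noncomputable def firstSum (q t : K) (m n N : ℕ) [NeZero n] (f : Multiset (ℚ × Fin N) → K) :
    MvPolynomial (Fin N) K :=
  ∑ i ∈ range (Nat.gcd m n), MvPolynomial.C (q ^ i) *
    ∑ p ∈ (LRD m n N).filter (fun p => Avoids i p.1), MvPolynomial.C (f (prof p)) * wt q t p

theorem sum_wt_fiber (q t : K) (f : Multiset (ℚ × Fin N) → K)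
    (s : Finset ((Fin n → Fin m) × (Fin n → Fin N))) (M : Multiset (ℚ × Fin N)) :
    ∑ p ∈ s.filter (fun p => prof p = M), MvPolynomial.C (f (prof p)) * wt q t p =
      MvPolynomial.C (∑ p ∈ s.filter (fun p => prof p = M), q ^ dinv p.1 p.2) * pw t f M := by
  rw [map_sum, Finset.sum_mul]
  refine sum_congr rfl fun p hp => ?_
  rw [wt_eq, (mem_filter.1 hp).2]

/-- The first return identity. -/
theorem first_return (hgap : Gap) (q t : K) (hq : q ≠ 0) (hk : ∀ k : ℕ, 1 ≤ k → qint q k ≠ 0)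
    (f : Multiset (ℚ × Fin N) → K) :
    firstSum q t m n N f =
      ∑ k ∈ Icc 1 (Nat.gcd m n), MvPolynomial.C (qint q (Nat.gcd m n) / qint q k) *
        ∑ p ∈ (LRD m n N).filter (fun p => touches p.1 = k),
          MvPolynomial.C (f (prof p)) * wt q t p := by
  classical
  -- the profiles
  set T : Finset (Multiset (ℚ × Fin N)) := (LRD m n N).image prof with hT
  have hmapT : ∀ p ∈ LRD m n N, prof p ∈ T := fun p hp => mem_image_of_mem _ hp
  have hL : firstSum q t m n N f = ∑ M ∈ T, MvPolynomial.C (∑ i ∈ range (Nat.gcd m n), q ^ i *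
      ∑ p ∈ (LRD m n N).filter (fun p => prof p = M ∧ Avoids i p.1), q ^ dinv p.1 p.2) *
        pw t f M := by
    unfold firstSum
    have h1 : ∀ i ∈ range (Nat.gcd m n), MvPolynomial.C (q ^ i) *
        ∑ p ∈ (LRD m n N).filter (fun p => Avoids i p.1),
          MvPolynomial.C (f (prof p)) * wt q t p =
        ∑ M ∈ T, MvPolynomial.C (q ^ i *
      ∑ p ∈ (LRD m n N).filter (fun p => prof p = M ∧ Avoids i p.1), q ^ dinv p.1 p.2) *
        pw t f M := by
      intro i _
      rw [← sum_fiberwise_of_maps_to (s := (LRD m n N).filter (fun p => Avoids i p.1)) (t := T)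
        (g := prof) (fun p hp => hmapT p (mem_filter.1 hp).1), Finset.mul_sum]
      refine sum_congr rfl fun M _ => ?_
      rw [sum_wt_fiber, map_mul, mul_assoc]
      have h2 : ((LRD m n N).filter (fun p => Avoids i p.1)).filter (fun p => prof p = M) =
          (LRD m n N).filter (fun p => prof p = M ∧ Avoids i p.1) := by
        rw [filter_filter]
        exact filter_congr fun p _ => and_comm
      rw [h2]
    rw [sum_congr rfl h1, sum_comm]
    refine sum_congr rfl fun M _ => ?_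
    rw [← Finset.sum_mul, ← map_sum]
  have hR : ∑ k ∈ Icc 1 (Nat.gcd m n), MvPolynomial.C (qint q (Nat.gcd m n) / qint q k) *
        ∑ p ∈ (LRD m n N).filter (fun p => touches p.1 = k),
          MvPolynomial.C (f (prof p)) * wt q t p =
      ∑ M ∈ T, MvPolynomial.C (qint q (Nat.gcd m n) / qint q (M.countP (fun z => z.1 = 0)) *
        ∑ p ∈ (LRD m n N).filter (fun p => prof p = M), q ^ dinv p.1 p.2) * pw t f M := by
    have h1 : ∀ k ∈ Icc 1 (Nat.gcd m n), MvPolynomial.C (qint q (Nat.gcd m n) / qint q k) *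
        ∑ p ∈ (LRD m n N).filter (fun p => touches p.1 = k),
          MvPolynomial.C (f (prof p)) * wt q t p =
        ∑ M ∈ T, if M.countP (fun z => z.1 = 0) = k then
          MvPolynomial.C (qint q (Nat.gcd m n) / qint q (M.countP (fun z => z.1 = 0)) *
        ∑ p ∈ (LRD m n N).filter (fun p => prof p = M), q ^ dinv p.1 p.2) * pw t f M else 0 := by
      intro k _
      rw [← sum_fiberwise_of_maps_to (s := (LRD m n N).filter (fun p => touches p.1 = k)) (t := T)
        (g := prof) (fun p hp => hmapT p (mem_filter.1 hp).1), Finset.mul_sum]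
      refine sum_congr rfl fun M _ => ?_
      rw [sum_wt_fiber]
      by_cases hMk : M.countP (fun z => z.1 = 0) = k
      · rw [if_pos hMk, hMk, map_mul, mul_assoc]
        have h2 : ((LRD m n N).filter (fun p => touches p.1 = k)).filter (fun p => prof p = M) =
            (LRD m n N).filter (fun p => prof p = M) := by
          rw [filter_filter]
          refine filter_congr fun p _ => ?_
          constructor
          · exact fun h => h.2
          · intro h
            refine ⟨?_, h⟩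
            rw [touches_prof, h, hMk]
        rw [h2]
      · rw [if_neg hMk]
        have h2 : ((LRD m n N).filter (fun p => touches p.1 = k)).filter (fun p => prof p = M) =
            ∅ := by
          rw [filter_filter]
          refine filter_false_of_mem fun p _ h => hMk ?_
          rw [← h.2, ← touches_prof, h.1]
        rw [h2, sum_empty, map_zero, zero_mul, mul_zero]
    rw [sum_congr rfl h1, sum_comm]
    refine sum_congr rfl fun M hM => ?_
    obtain ⟨p0, -, rfl⟩ := mem_image.1 hM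
    rw [sum_ite_eq, if_pos]
    rw [mem_Icc, ← touches_prof]
    exact ⟨touches_pos p0.1, touches_le_gcd p0.1⟩
  rw [hL, hR]
  refine sum_congr rfl fun M hM => ?_
  obtain ⟨p0, -, rfl⟩ := mem_image.1 hM
  have h0 : qint q ((prof p0).countP (fun z => z.1 = 0)) ≠ 0 :=
    hk _ (by rw [← touches_prof]; exact touches_pos p0.1)
  congr 2
  have h1 := first_refined (m := m) (n := n) hgap q hq (prof p0)
  rw [div_mul_eq_mul_div, eq_div_iff h0, ← h1]
  ring

/-- All labelled rectangular paths in terms of the Dyck paths weighted by the first return. -/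
theorem all_paths (hgap : Gap) (q t : K) (hq : q ≠ 0) (hk : ∀ k : ℕ, 1 ≤ k → qint q k ≠ 0)
    (f : Multiset (ℚ × Fin N) → K) :
    ∑ p ∈ LRP m n N, MvPolynomial.C (f (prof p)) * wt q t p =
      MvPolynomial.C (qint q m / qint q (Nat.gcd m n)) * firstSum q t m n N f := by
  have hd : qint q (Nat.gcd m n) ≠ 0 :=
    hk _ (Nat.gcd_pos_of_pos_left n (Nat.pos_of_ne_zero (NeZero.ne m)))
  rw [first_return hgap q t hq hk f, main q t hq hk f, Finset.mul_sum]
  refine sum_congr rfl fun k hk' => ?_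
  have h0 := hk k (mem_Icc.1 hk').1
  rw [← mul_assoc, ← map_mul]
  congr 2
  field_simp

end

end Pool.Agent.Lib.MP_0e7911_co_rect
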