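import Pool.Agent.Lib.MP_0e7911_co_h56.FRTable2
import Pool.Agent.Lib.MP_0e7911_co_h50.Total

/-!
# The first return identity for the paths with a given profile
-/

set_option autoImplicit false

namespace Pool.Agent.Lib.MP_0e7911_co_h50

open Finset

namespace M7d

theorem path_key_sum_pr {K : Type*} [CommRing K] (q : K) {b e a N : ℕ}
    (hcop : Nat.Coprime a (b + 1)) (F : ℕ → Fin (e + 1) → Key N)
    (hper : ∀ i, F (i + (b + 1)) = F i)
    (hlev : ∀ (i : ℕ) (r : Fin (e + 1)),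
      ((((e + 1) * (b + 1) : ℕ) : ℤ)) ∣ (F i r).lev - (((e + 1) * a : ℕ) : ℤ) * (i : ℤ))
    (hpos : ∀ i r, 0 ≤ (F i r).lev) (hzero : ∃ i r, (F i r).lev = 0) (S j : ℕ)
    (hSj : ((((e + 1) * (b + 1) : ℕ) : ℤ)) ∣ (S : ℤ) - (((e + 1) * a : ℕ) : ℤ) * (j : ℤ))
    (Pr : (Fin (b + 1) → Fin (e + 1) → Key N) → Prop)
    (P : (Fin ((e + 1) * (b + 1)) → Fin ((e + 1) * a)) × (Fin ((e + 1) * (b + 1)) → Fin N) → Prop)
    [DecidablePred P] (hP : ∀ p, P p ↔ (IsLRP ((e + 1) * a) (fun i => (p.1 i : ℕ)) p.2 ∧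
          IsBase ((e + 1) * a) (fun i => (p.1 i : ℕ)) (S : ℤ) ∧
          keyf ((e + 1) * a) (fun i => (p.1 i : ℕ)) p.2 (S : ℤ) ∈ Seqs F j ∧
          Pr (keyf ((e + 1) * a) (fun i => (p.1 i : ℕ)) p.2 (S : ℤ))))
    (Q : (Fin (b + 1) → Fin (e + 1) → Key N) → Prop) [DecidablePred Q]
    (hQ : ∀ f, Q f ↔ (AdjK (RK ((e + 1) * a)) f ∧ ((f 0 0).lev ≤ (S : ℤ) ∧
          (S : ℤ) < (f (Fin.last b) (Fin.last e)).lev + (((e + 1) * a : ℕ) : ℤ)) ∧ Pr f)) :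
    (∑ p, if P p then q ^ Tst ((e + 1) * a) (fun i => (p.1 i : ℕ)) p.2 else 0) =
    ∑ f ∈ Seqs (b := b) F j, if Q f then q ^ TK (RK ((e + 1) * a)) f else 0 := by
  refine sum_ite_bij _ _ _ _ _ _
    (fun p => keyf ((e + 1) * a) (fun i => (p.1 i : ℕ)) p.2 (S : ℤ)) ?_ ?_ ?_ ?_
  · intro p _ hp
    obtain ⟨h1, h2, h3, hpr⟩ := (hP p).1 hp
    obtain ⟨g1, g2⟩ := forward _ _ (S : ℤ) h1
    exact ⟨h3, (hQ _).2 ⟨g1, g2, hpr⟩⟩
  · intro p p' h
    have hn : (0 : ℤ) < (((e + 1) * (b + 1) : ℕ) : ℤ) := by positivity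
    have h1 : ∀ k, p.1 k = p'.1 k ∧ p.2 k = p'.2 k := by
      intro k
      obtain ⟨t, i, rfl⟩ := exists_pos k
      have h2 := congrFun (congrFun h i) t
      have h3 := congrArg Key.lev h2
      have h4 := congrArg Key.lab h2
      rw [keyf_lev, keyf_lev] at h3
      rw [keyf_lab, keyf_lab] at h4
      refine ⟨?_, h4⟩
      unfold lam at h3
      have h5 : (((e + 1) * (b + 1) : ℕ) : ℤ) * (((p.1 (pos t i) : Fin _) : ℕ) : ℤ) =
          (((e + 1) * (b + 1) : ℕ) : ℤ) * (((p'.1 (pos t i) : Fin _) : ℕ) : ℤ) := by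
        linarith
      have h6 := mul_left_cancel₀ hn.ne' h5
      apply Fin.ext
      exact_mod_cast h6
    apply Prod.ext
    · funext k; exact (h1 k).1
    · funext k; exact (h1 k).2
  · intro f h1 hf
    obtain ⟨h2, ⟨h3, h4⟩, hpr⟩ := (hQ _).1 hf
    have h1' := h1
    rw [Seqs, Finset.mem_image] at h1'
    obtain ⟨τ, -, hτ⟩ := h1'
    have hfe : ∀ i t, f i t = F ((i : ℕ) + j) (τ i t) := by
      intro i t; rw [← hτ]; rfl
    obtain ⟨x, w, hk, hL⟩ := backward (S : ℤ) f (by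
      intro i t
      rw [hfe]
      have h5 := dvd_sub (hlev ((i : ℕ) + j) (τ i t)) hSj
      have h6 : (F ((i : ℕ) + j) (τ i t)).lev - (((e + 1) * a : ℕ) : ℤ) * (((i : ℕ) + j : ℕ) : ℤ) -
          ((S : ℤ) - (((e + 1) * a : ℕ) : ℤ) * (j : ℤ)) =
          (F ((i : ℕ) + j) (τ i t)).lev - (((e + 1) * a : ℕ) : ℤ) * ((i : ℕ) : ℤ) - (S : ℤ) := by
        push_cast
        ring
      rw [← h6]
      exact h5) h2 h3 h4
    have hx : ∀ k, x k < (e + 1) * a := hL.2.1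
    refine ⟨(fun k => ⟨x k, hx k⟩, w), Finset.mem_univ _, (hP _).2 ⟨hL, ⟨?_, ?_⟩, ?_, ?_⟩, hk⟩
    · intro k
      obtain ⟨t, i, rfl⟩ := exists_pos k
      have h5 := congrArg Key.lev (congrFun (congrFun hk i) t)
      rw [keyf_lev] at h5
      simp only
      rw [h5, hfe]
      exact hpos _ _
    · obtain ⟨i, r, hir⟩ := hzero
      obtain ⟨i', hi'⟩ := exists_class F hper i j
      refine ⟨pos ((τ i').symm r) i', ?_⟩
      have h5 := congrArg Key.lev (congrFun (congrFun hk i') ((τ i').symm r))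
      rw [keyf_lev] at h5
      simp only
      rw [h5, hfe, hi', Equiv.apply_symm_apply]
      exact hir
    · simp only
      rw [hk]
      exact h1
    · simp only
      rw [hk]
      exact hpr
  · intro p _ _
    rw [Tst_eq_TK _ _ hcop (S : ℤ)]

end M7d

namespace FR

/-- the classes `1, ..., i` of the rounds avoid the level `0` -/
def KA {b e N : ℕ} (i : ℕ) (f : Fin (b + 1) → Fin (e + 1) → Key N) : Prop :=
  ∀ j : Fin (e + 1), 0 < (j : ℕ) → (j : ℕ) ≤ i → ¬ (f 0 j).lev ≤ 0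

section

variable {K : Type*} [Field K] {b e a N : ℕ}

open scoped Classical in
/-- the sum over the Dyck paths with given keys which avoid the joints `1, ..., i` -/
noncomputable def TP (q : K) (b e a : ℕ) {N : ℕ} (F : ℕ → Fin (e + 1) → Key N) (i : ℕ) : K :=
  ∑ p : (Fin ((e + 1) * (b + 1)) → Fin ((e + 1) * a)) × (Fin ((e + 1) * (b + 1)) → Fin N),
    if IsLRP ((e + 1) * a) (fun i => (p.1 i : ℕ)) p.2 ∧
        IsBase ((e + 1) * a) (fun i => (p.1 i : ℕ)) ((0 : ℕ) : ℤ) ∧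
        keyf ((e + 1) * a) (fun i => (p.1 i : ℕ)) p.2 ((0 : ℕ) : ℤ) ∈ Seqs F 0 ∧
        KA i (keyf ((e + 1) * a) (fun i => (p.1 i : ℕ)) p.2 ((0 : ℕ) : ℤ))
      then q ^ Tst ((e + 1) * a) (fun i => (p.1 i : ℕ)) p.2 else 0

/-- number of low ranks in the class `0` -/
def kk {e N : ℕ} (F : ℕ → Fin (e + 1) → Key N) : ℕ :=
  (univ.filter (fun r : Fin (e + 1) => (F 0 r).lev ≤ 0)).card

theorem kk_iff (F : ℕ → Fin (e + 1) → Key N) (hF : ∀ i, Monotone (F i)) (r : Fin (e + 1)) :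
    (F 0 r).lev ≤ 0 ↔ (r : ℕ) < kk F := by
  unfold kk
  exact M7c.lt_card_iff (fun r : Fin (e + 1) => (F 0 r).lev ≤ 0)
    (fun x y hxy hy => (lev_mono (hF 0) hxy).trans hy) r

open scoped Classical in
theorem TP_eq (q : K) (ha : 0 < a)
    (hcop : Nat.Coprime a (b + 1)) (F : ℕ → Fin (e + 1) → Key N) (hF : ∀ i, Monotone (F i))
    (hper : ∀ i, F (i + (b + 1)) = F i)
    (hlev : ∀ (i : ℕ) (r : Fin (e + 1)),
      ((((e + 1) * (b + 1) : ℕ) : ℤ)) ∣ (F i r).lev - (((e + 1) * a : ℕ) : ℤ) * (i : ℤ))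
    (hpos : ∀ i r, 0 ≤ (F i r).lev) (hzero : ∃ i r, (F i r).lev = 0) (i : ℕ) :
    TP q b e a F i * Phi q b F = TL q b (board (RK ((e + 1) * a)) F) (kk F) i := by
  have hm : (0 : ℤ) < (((e + 1) * a : ℕ) : ℤ) := by positivity
  have hTP : TP q b e a F i = ∑ f ∈ Seqs (b := b) F 0,
      if AdjK (RK ((e + 1) * a)) f ∧ (((f 0 0).lev ≤ ((0 : ℕ) : ℤ) ∧
          ((0 : ℕ) : ℤ) < (f (Fin.last b) (Fin.last e)).lev + (((e + 1) * a : ℕ) : ℤ)) ∧ KA i f)
        then q ^ TK (RK ((e + 1) * a)) f else 0 := by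
    have h := M7d.path_key_sum_pr q hcop F hper hlev hpos hzero 0 0 (by simp) (KA i) 
      (fun p => IsLRP ((e + 1) * a) (fun i => (p.1 i : ℕ)) p.2 ∧
        IsBase ((e + 1) * a) (fun i => (p.1 i : ℕ)) ((0 : ℕ) : ℤ) ∧
        keyf ((e + 1) * a) (fun i => (p.1 i : ℕ)) p.2 ((0 : ℕ) : ℤ) ∈ Seqs F 0 ∧
        KA i (keyf ((e + 1) * a) (fun i => (p.1 i : ℕ)) p.2 ((0 : ℕ) : ℤ)))
      (fun p => Iff.rfl)
      (fun f => AdjK (RK ((e + 1) * a)) f ∧ ((f 0 0).lev ≤ ((0 : ℕ) : ℤ) ∧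
          ((0 : ℕ) : ℤ) < (f (Fin.last b) (Fin.last e)).lev + (((e + 1) * a : ℕ) : ℤ)) ∧ KA i f)
      (fun f => Iff.rfl)
    unfold TP
    convert h
  rw [hTP]
  unfold Phi
  rw [key_sum q (RK ((e + 1) * a)) (RK_mono_left _) (RK_mono_right _) F hF hper
    (fun f => ((f 0 0).lev ≤ ((0 : ℕ) : ℤ) ∧
      ((0 : ℕ) : ℤ) < (f (Fin.last b) (Fin.last e)).lev + (((e + 1) * a : ℕ) : ℤ)) ∧ KA i f) 0]
  unfold TL
  refine sum_congr rfl fun τ _ => ?_
  have c1 : ∀ j : Fin (e + 1), (fun i : Fin (b + 1) => F ((i : ℕ) + 0) ∘ ⇑(τ i)) 0 j =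
      F 0 (τ 0 j) := by
    intro j; simp
  have c2 : (fun i : Fin (b + 1) => F ((i : ℕ) + 0) ∘ ⇑(τ i)) (Fin.last b) (Fin.last e) =
      F b (τ (Fin.last b) (Fin.last e)) := by
    simp
  have key : (((((fun i : Fin (b + 1) => F ((i : ℕ) + 0) ∘ ⇑(τ i)) 0 0).lev ≤ ((0 : ℕ) : ℤ) ∧
      ((0 : ℕ) : ℤ) < ((fun i : Fin (b + 1) => F ((i : ℕ) + 0) ∘ ⇑(τ i)) (Fin.last b)
        (Fin.last e)).lev + (((e + 1) * a : ℕ) : ℤ)) ∧
      KA i (fun i : Fin (b + 1) => F ((i : ℕ) + 0) ∘ ⇑(τ i)))) ↔ Low (kk F) i (τ 0) := by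
    unfold KA Low
    simp only [c1, c2, Nat.cast_zero, kk_iff F hF]
    have h2 : 0 < (F b (τ (Fin.last b) (Fin.last e))).lev + (((e + 1) * a : ℕ) : ℤ) := by
      have := hpos b (τ (Fin.last b) (Fin.last e))
      omega
    constructor
    · rintro ⟨⟨h3, _⟩, h4⟩
      exact ⟨h3, h4⟩
    · rintro ⟨h3, h4⟩
      exact ⟨⟨h3, h2⟩, h4⟩
  have hAdj : Adj (fun i => board (RK ((e + 1) * a)) F (i + 0)) τ ↔
      Adj (board (RK ((e + 1) * a)) F) τ := Iff.rfl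
  have hTT : TT (fun i => board (RK ((e + 1) * a)) F (i + 0)) τ =
      TT (board (RK ((e + 1) * a)) F) τ := rfl
  rw [hTT]
  by_cases h1 : Adj (board (RK ((e + 1) * a)) F) τ ∧ Low (kk F) i (τ 0)
  · rw [if_pos h1, if_pos ⟨hAdj.2 h1.1, key.2 h1.2⟩]
  · rw [if_neg h1, if_neg (fun h2 => h1 ⟨hAdj.1 h2.1, key.1 h2.2⟩)]

/-- the identity for `Tst` -/
theorem first_Tst (q : K) (hq : q ≠ 0) (hgap : GapStmt q e) (ha : 0 < a)
    (hcop : Nat.Coprime a (b + 1)) (F : ℕ → Fin (e + 1) → Key N) (hF : ∀ i, Monotone (F i))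
    (hPhi : Phi q b F ≠ 0)
    (hper : ∀ i, F (i + (b + 1)) = F i)
    (hlev : ∀ (i : ℕ) (r : Fin (e + 1)),
      ((((e + 1) * (b + 1) : ℕ) : ℤ)) ∣ (F i r).lev - (((e + 1) * a : ℕ) : ℤ) * (i : ℤ))
    (hpos : ∀ i r, 0 ≤ (F i r).lev) (hzero : ∃ i r, (F i r).lev = 0) :
    (∑ r ∈ range (kk F), q ^ r) * ∑ i ∈ range (e + 1), q ^ i * TP q b e a F i =
      (∑ r ∈ range (e + 1), q ^ r) * TP q b e a F 0 := by
  have hm : (0 : ℤ) < (((e + 1) * a : ℕ) : ℤ) := by positivity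
  have h0 := TP_eq q ha hcop F hF hper hlev hpos hzero
  apply mul_right_cancel₀ hPhi
  have h00 : (∑ i ∈ range (e + 1), q ^ i * TP q b e a F i) * Phi q b F =
      ∑ i ∈ range (e + 1), q ^ i * TL q b (board (RK ((e + 1) * a)) F) (kk F) i := by
    rw [sum_mul]
    refine sum_congr rfl fun i _ => ?_
    rw [mul_assoc, h0 i]
  rw [mul_assoc, h00, mul_assoc, h0 0]
  rcases Nat.eq_zero_or_pos (kk F) with hk | hk
  · rw [hk, range_zero, sum_empty, zero_mul]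
    symm
    apply mul_eq_zero_of_right
    unfold TL
    refine sum_eq_zero fun τ _ => ?_
    rw [if_neg]
    rintro ⟨_, h, _⟩
    omega
  · have hk1 : kk F ≤ e + 1 := by
      unfold kk
      exact (card_filter_le _ _).trans (by simp)
    refine TL_first q hq hgap (board (RK ((e + 1) * a)) F)
      (fun i => board_mono _ (RK_mono_left _) F hF i) (kk F) hk hk1 (fun p => ?_)
    unfold kk board
    refine card_le_card fun r hr => ?_
    rw [mem_filter] at hr ⊢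
    refine ⟨mem_univ _, ?_⟩
    left
    have h1 : F (b + 1) = F 0 := by
      have := hper 0
      rw [zero_add] at this
      exact this
    rw [h1]
    have h2 := hpos b p
    have h3 := hr.2
    omega

/-- `kk` counts the keys of level `0` -/
theorem kk_eq (hcop : Nat.Coprime a (b + 1)) (F : ℕ → Fin (e + 1) → Key N)
    (hlev : ∀ (i : ℕ) (r : Fin (e + 1)),
      ((((e + 1) * (b + 1) : ℕ) : ℤ)) ∣ (F i r).lev - (((e + 1) * a : ℕ) : ℤ) * (i : ℤ))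
    (hpos : ∀ i r, 0 ≤ (F i r).lev) (M0 : Multiset (ℤ × Fin N))
    (hFM : Multiset.map (fun p : Fin (b + 1) × Fin (e + 1) =>
          ((F (p.1 : ℕ) p.2).lev, (F (p.1 : ℕ) p.2).lab)) univ.val = M0) :
    M0.countP (fun z => z.1 = 0) = kk F := by
  unfold kk
  rw [← hFM, Multiset.countP_map, ← Finset.filter_val, Finset.card_val]
  symm
  refine Finset.card_bij (fun r _ => ((0 : Fin (b + 1)), r)) ?_ ?_ ?_
  · intro r hr
    rw [mem_filter] at hr ⊢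
    refine ⟨mem_univ _, ?_⟩
    have := hpos 0 r
    show (F ((0 : Fin (b + 1)) : ℕ) r).lev = 0
    rw [Fin.val_zero]
    omega
  · intro r _ r' _ h
    exact (Prod.ext_iff.1 h).2
  · rintro ⟨i, r⟩ hir
    rw [mem_filter] at hir
    have h4 : (F (i : ℕ) r).lev = 0 := hir.2
    -- the class is `0`
    have h5 := hlev (i : ℕ) r
    rw [h4, zero_sub, dvd_neg] at h5
    have h6 : (((e + 1 : ℕ) : ℤ)) * ((b + 1 : ℕ) : ℤ) ∣ ((e + 1 : ℕ) : ℤ) * ((a : ℤ) * (i : ℕ)) := by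
      have : ((e + 1 : ℕ) : ℤ) * ((a : ℤ) * (i : ℕ)) = (((e + 1) * a : ℕ) : ℤ) * ((i : ℕ) : ℤ) := by
        push_cast; ring
      rw [this, ← Nat.cast_mul]
      exact h5
    have h7 := Int.dvd_of_mul_dvd_mul_left (by positivity : ((e + 1 : ℕ) : ℤ) ≠ 0) h6
    have h8 : (b + 1) ∣ a * (i : ℕ) := by exact_mod_cast h7
    have h9 : (b + 1) ∣ (i : ℕ) := (Nat.Coprime.dvd_of_dvd_mul_left hcop.symm h8)
    have h10 : (i : ℕ) = 0 := Nat.eq_zero_of_dvd_of_lt h9 i.2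
    have h11 : i = 0 := Fin.ext h10
    subst h11
    refine ⟨r, ?_, rfl⟩
    rw [mem_filter]
    refine ⟨mem_univ _, ?_⟩
    rw [Fin.val_zero] at h4
    omega

open scoped Classical in
/-- The sum of `q ^ dinv` over the labelled Dyck paths with given profile which avoid the
joints `1, ..., i`. -/
noncomputable def UA (q : K) (b e a : ℕ) {N : ℕ} (M0 : Multiset (ℤ × Fin N)) (i : ℕ) : K :=
  ∑ p : (Fin ((e + 1) * (b + 1)) → Fin ((e + 1) * a)) × (Fin ((e + 1) * (b + 1)) → Fin N),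
    if IsLRP ((e + 1) * a) (fun i => (p.1 i : ℕ)) p.2 ∧
        IsBase ((e + 1) * a) (fun i => (p.1 i : ℕ)) 0 ∧
        Multiset.map (fun i => (lam ((e + 1) * a) (fun i => (p.1 i : ℕ)) i + 0, p.2 i)) univ.val =
          M0 ∧
        KA i (keyf ((e + 1) * a) (fun i => (p.1 i : ℕ)) p.2 0)
      then q ^ dinvZ ((e + 1) * a) (fun i => (p.1 i : ℕ)) p.2 else 0

open scoped Classical in
theorem UA_eq (q : K) (hq : q ≠ 0) (ha : 0 < a) (x0 : Fin ((e + 1) * (b + 1)) → ℕ)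
    (w0 : Fin ((e + 1) * (b + 1)) → Fin N) (hx0 : Monotone x0)
    (M0 : Multiset (ℤ × Fin N)) (S0 : ℤ)
    (hM0 : M0 = Multiset.map (fun i => (lam ((e + 1) * a) x0 i + S0, w0 i)) univ.val)
    (F : ℕ → Fin (e + 1) → Key N)
    (hpos : ∀ i r, 0 ≤ (F i r).lev)
    (hFM : Multiset.map (fun p : Fin (b + 1) × Fin (e + 1) =>
          ((F (p.1 : ℕ) p.2).lev, (F (p.1 : ℕ) p.2).lab)) univ.val = M0)
    (hmem : ∀ (x : Fin ((e + 1) * (b + 1)) → ℕ) (w : Fin ((e + 1) * (b + 1)) → Fin N) (S : ℤ) (j : ℕ),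
        ((((e + 1) * (b + 1) : ℕ) : ℤ)) ∣ S - (((e + 1) * a : ℕ) : ℤ) * (j : ℤ) →
        (keyf ((e + 1) * a) x w S ∈ Seqs F j ↔
          Multiset.map (fun i => (lam ((e + 1) * a) x i + S, w i)) univ.val = M0)) (i : ℕ) :
    UA q b e a M0 i = q ^ (dinvZ ((e + 1) * a) x0 w0 - Tst ((e + 1) * a) x0 w0 -
      Esum ((e + 1) * a) x0) * TP q b e a F i := by
  unfold UA TP
  rw [Finset.mul_sum]
  refine sum_congr rfl fun p _ => ?_
  simp only [Nat.cast_zero]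
  have hmem0 := fun x w => hmem x w 0 0 (by simp)
  by_cases h : IsLRP ((e + 1) * a) (fun i => (p.1 i : ℕ)) p.2 ∧
        IsBase ((e + 1) * a) (fun i => (p.1 i : ℕ)) 0 ∧
        keyf ((e + 1) * a) (fun i => (p.1 i : ℕ)) p.2 0 ∈ Seqs F 0 ∧
        KA i (keyf ((e + 1) * a) (fun i => (p.1 i : ℕ)) p.2 0)
  · have h' := (hmem0 _ _).1 h.2.2.1
    rw [if_pos h, if_pos ⟨h.1, h.2.1, h', h.2.2.2⟩]
    -- the dinv formula
    obtain ⟨σ, hσ⟩ := exists_perm_of_map _ _ (h'.trans hM0)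
    have hD := dinv_compare (m := (e + 1) * a) (n := (e + 1) * (b + 1)) (by positivity)
      (by positivity) x0 (fun i => (p.1 i : ℕ)) hx0 h.1.1 w0 p.2 σ (S0 - 0)
      (fun i => by
        have := congrArg Prod.fst (congrFun hσ i)
        simp only [Function.comp_apply] at this
        linarith)
      (fun i => congrArg Prod.snd (congrFun hσ i))
    have hEs := Esum_eq_Ecum F (fun i => (p.1 i : ℕ)) p.2 0 (hFM.trans h'.symm)
    rw [Ecum_zero F hpos] at hEs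
    rw [hEs] at hD
    have hd : dinvZ ((e + 1) * a) (fun i => (p.1 i : ℕ)) p.2 =
        (dinvZ ((e + 1) * a) x0 w0 - Tst ((e + 1) * a) x0 w0 -
      Esum ((e + 1) * a) x0) + (Tst ((e + 1) * a) (fun i => (p.1 i : ℕ)) p.2 : ℕ) := by
      linarith
    rw [hd, zpow_add₀ hq, zpow_natCast]
  · rw [if_neg h, if_neg (fun h' => h ⟨h'.1, h'.2.1, (hmem0 _ _).2 h'.2.2.1, h'.2.2.2⟩), mul_zero]

/-- the first return identity for the paths with given multiset of keys -/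
theorem first_total (q : K) (hq : q ≠ 0) (hgap : GapStmt q e)
    (hPhi : ∀ G : Fin (e + 1) → Key N,
      (∑ g : Equiv.Perm (Fin (e + 1)), if G ∘ g = G then q ^ inv g else 0) ≠ 0)
    (ha : 0 < a) (hcop : Nat.Coprime a (b + 1)) (x0 : Fin ((e + 1) * (b + 1)) → ℕ)
    (w0 : Fin ((e + 1) * (b + 1)) → Fin N) (S0 : ℤ) (hx0 : Monotone x0)
    (h0 : IsBase ((e + 1) * a) x0 S0)
    (M0 : Multiset (ℤ × Fin N))
    (hM0 : M0 = Multiset.map (fun i => (lam ((e + 1) * a) x0 i + S0, w0 i)) univ.val) :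
    (∑ r ∈ range (M0.countP (fun z => z.1 = 0)), q ^ r) *
      ∑ i ∈ range (e + 1), q ^ i * UA q b e a M0 i =
    (∑ r ∈ range (e + 1), q ^ r) * UA q b e a M0 0 := by
  obtain ⟨F, hF, hper, hlev, hpos, hzero, hFM, hmem⟩ := profile_exists ha hcop x0 w0 S0 h0
  rw [← hM0] at hFM
  simp only [← hM0] at hmem
  have hPhi' : Phi q b F ≠ 0 := by
    unfold Phi
    exact prod_ne_zero_iff.2 fun i _ => hPhi _
  have h1 := first_Tst q hq hgap ha hcop F hF hPhi' hper hlev hpos hzero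
  have h2 := UA_eq q hq ha x0 w0 hx0 M0 S0 hM0 F hpos hFM hmem
  set D := q ^ (dinvZ ((e + 1) * a) x0 w0 - Tst ((e + 1) * a) x0 w0 -
      Esum ((e + 1) * a) x0) with hD
  have h3 : ∑ i ∈ range (e + 1), q ^ i * UA q b e a M0 i =
      D * ∑ i ∈ range (e + 1), q ^ i * TP q b e a F i := by
    rw [mul_sum]
    refine sum_congr rfl fun i _ => ?_
    rw [h2 i]
    ring
  rw [kk_eq hcop F hlev hpos M0 hFM, h2 0, h3]
  linear_combination D * h1

end

end FR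

end Pool.Agent.Lib.MP_0e7911_co_h50
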