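import Pool.Agent.Lib.MP_0e7911_co_h50.CoreAll

/-!
# Tables with a prescribed first class, and the first return identity for tables
-/

set_option autoImplicit false

namespace Pool.Agent.Lib.MP_0e7911_co_h50

open Finset

namespace FR

open H6

/-- number of pairs `s < t` -/
def NN (e : ℕ) : ℕ := (univ.filter (fun st : Fin (e + 1) × Fin (e + 1) => st.1 < st.2)).card

/-- the sum over all tables with given first class, as a matrix entry of the product of boards -/
lemma PP_fixed {K : Type*} [CommRing K] (q : K) {b e : ℕ}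
    (al : ℕ → Fin (e + 1) → ℕ) (hmono : ∀ i, Monotone (al i)) (g : Equiv.Perm (Fin (e + 1))) :
    (∑ τ : Fin (b + 1) → Equiv.Perm (Fin (e + 1)), if Adj al τ ∧ τ 0 = g then q ^ TT al τ else 0) =
      q ^ (predc (al b) (g 0)) * (q ^ ((b + 1) * NN e) *
        PB q al (b + 1) ((finRotate (e + 1))⁻¹ * g⁻¹) g⁻¹) := by
  classical
  set N := (univ.filter (fun st : Fin (e + 1) × Fin (e + 1) => st.1 < st.2)).card with hN
  have hNN : NN e = N := rfl
  rw [hNN, PB_expand]
  rw [← (Equiv.piCongrRight fun _ : Fin (b + 1) => Equiv.inv (Equiv.Perm (Fin (e + 1)))).sum_comp,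
    Finset.mul_sum, Finset.mul_sum]
  refine Finset.sum_congr rfl fun c _ => ?_
  have hcc : ∀ i, (Equiv.piCongrRight fun _ : Fin (b + 1) =>
      Equiv.inv (Equiv.Perm (Fin (e + 1)))) c i = (c i)⁻¹ := fun i => rfl
  set τ : Fin (b + 1) → Equiv.Perm (Fin (e + 1)) := (Equiv.piCongrRight fun _ : Fin (b + 1) =>
      Equiv.inv (Equiv.Perm (Fin (e + 1)))) c with hτ
  have hr : τ 0 = g ↔ c 0 = g⁻¹ := by
    rw [hcc]
    exact inv_eq_iff_eq_inv
  by_cases h : c 0 = g⁻¹
  swap
  · rw [if_neg (fun h' => h (hr.1 h'.2)), if_neg h]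
    simp
  rw [if_pos h]
  have hr' := hr.2 h
  -- the adjacency conditions
  have hA1 : ∀ i : Fin b, (∀ t, (τ i.succ t : ℕ) < al i (τ i.castSucc t)) ↔
      (∀ p : Fin (e + 1), (((c i.succ)⁻¹ (c i.castSucc p) : Fin (e + 1)) : ℕ) < al i p) := by
    intro i
    constructor
    · intro hh p
      have := hh (c i.castSucc p)
      rw [hcc, hcc, inv_self'] at this
      exact this
    · intro hh t
      have := hh ((c i.castSucc)⁻¹ t)
      rw [hcc, hcc]
      rw [self_inv'] at this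
      exact this
  have hrot : ∀ t, ((finRotate (e + 1))⁻¹ * g⁻¹)⁻¹ t = τ 0 (t + 1) := by
    intro t
    rw [mul_inv_rev, inv_inv, inv_inv, Equiv.Perm.mul_apply, finRotate_apply, hr']
  have hA2 : (∀ t : Fin (e + 1), (τ 0 (t + 1) : ℕ) < al b (τ (Fin.last b) t)) ↔
      (∀ p : Fin (e + 1), ((((finRotate (e + 1))⁻¹ * g⁻¹)⁻¹ (c (Fin.last b) p) :
        Fin (e + 1)) : ℕ) < al b p) := by
    constructor
    · intro hh p
      rw [hrot]
      have := hh (c (Fin.last b) p)
      rw [hcc (Fin.last b), inv_self'] at this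
      exact this
    · intro hh t
      have := hh ((c (Fin.last b))⁻¹ t)
      rw [hrot, self_inv'] at this
      rw [hcc (Fin.last b)]
      exact this
  by_cases hadj : Adj al τ
  · rw [if_pos ⟨hadj, hr'⟩]
    obtain ⟨ha1, ha2⟩ := hadj
    unfold Bmat
    rw [if_pos (hA2.1 ha2)]
    rw [Finset.prod_congr rfl fun i _ => if_pos ((hA1 i).1 (ha1 i))]
    rw [Finset.prod_pow_eq_pow_sum, ← pow_add, ← pow_add, ← pow_add]
    congr 1
    unfold TT
    -- count
    have e1 : ∀ i : Fin b, inv (τ i.castSucc) + (univ.filter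
        (fun st : Fin (e + 1) × Fin (e + 1) =>
        st.1 < st.2 ∧ (τ i.succ st.1 : ℕ) < al i (τ i.castSucc st.2))).card =
        N + (univ.filter (fun pp : Fin (e + 1) × Fin (e + 1) =>
        pp.1 < pp.2 ∧ c i.castSucc pp.2 < c i.castSucc pp.1 ∧
          (((c i.succ)⁻¹ (c i.castSucc pp.2) : Fin (e + 1)) : ℕ) < al i pp.1)).card := by
      intro i
      have := count (al i) (hmono i) (τ i.castSucc) (τ i.succ) (ha1 i)
      rw [this]
      have h5 : (τ i.castSucc)⁻¹ = c i.castSucc := by rw [hcc, inv_inv]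
      rw [h5]
      rfl
    have e2 : inv (τ (Fin.last b)) + (univ.filter (fun st : Fin (e + 1) × Fin (e + 1) =>
        st.1 ≤ st.2 ∧ (τ 0 st.1 : ℕ) < al b (τ (Fin.last b) st.2))).card =
        predc (al b) (g 0) + (N + (univ.filter (fun pp : Fin (e + 1) × Fin (e + 1) =>
        pp.1 < pp.2 ∧ c (Fin.last b) pp.2 < c (Fin.last b) pp.1 ∧
          ((((finRotate (e + 1))⁻¹ * g⁻¹)⁻¹ (c (Fin.last b) pp.2) : Fin (e + 1)) : ℕ) <
            al b pp.1)).card) := by
      rw [count_last (al b) (τ (Fin.last b)) (τ 0), hr']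
      have := count (al b) (hmono b) (τ (Fin.last b)) (g * finRotate (e + 1)) (by
        intro t
        rw [Equiv.Perm.mul_apply, finRotate_apply, ← hr']
        exact ha2 t)
      have h5 : (τ (Fin.last b))⁻¹ = c (Fin.last b) := by rw [hcc, inv_inv]
      have h6 : g * finRotate (e + 1) = ((finRotate (e + 1))⁻¹ * g⁻¹)⁻¹ := by
        rw [mul_inv_rev, inv_inv, inv_inv]
      rw [h5] at this
      rw [h6] at this ⊢
      omega
    have e3 : (∑ i : Fin (b + 1), inv (τ i)) = (∑ i : Fin b, inv (τ i.castSucc)) +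
        inv (τ (Fin.last b)) := Fin.sum_univ_castSucc _
    have e4 : (∑ i : Fin b, inv (τ i.castSucc)) + (∑ i : Fin b, (univ.filter
        (fun st : Fin (e + 1) × Fin (e + 1) =>
        st.1 < st.2 ∧ (τ i.succ st.1 : ℕ) < al i (τ i.castSucc st.2))).card) =
        b * N + ∑ i : Fin b, (univ.filter (fun pp : Fin (e + 1) × Fin (e + 1) =>
        pp.1 < pp.2 ∧ c i.castSucc pp.2 < c i.castSucc pp.1 ∧
          (((c i.succ)⁻¹ (c i.castSucc pp.2) : Fin (e + 1)) : ℕ) < al i pp.1)).card := by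
      rw [← Finset.sum_add_distrib, Finset.sum_congr rfl fun i _ => e1 i,
        Finset.sum_add_distrib]
      simp
    rw [e3]
    have e5 : (b + 1) * N = b * N + N := by ring
    rw [e5]
    omega
  · rw [if_neg (fun h' => hadj h'.1)]
    have : Bmat q (al b) ((finRotate (e + 1))⁻¹ * g⁻¹) (c (Fin.last b)) *
          ∏ i : Fin b, Bmat q (al i) (c i.succ) (c i.castSucc) = 0 := by
      by_cases h2 : ∀ t : Fin (e + 1), (τ 0 (t + 1) : ℕ) < al b (τ (Fin.last b) t)
      · have h3 : ¬ ∀ i : Fin b, (∀ t, (τ i.succ t : ℕ) < al i (τ i.castSucc t)) :=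
          fun h3 => hadj ⟨fun i t => h3 i t, h2⟩
        push Not at h3
        obtain ⟨i, t, hi⟩ := h3
        have h4 : ¬ ∀ p : Fin (e + 1),
            (((c i.succ)⁻¹ (c i.castSucc p) : Fin (e + 1)) : ℕ) < al i p := by
          rw [← hA1 i]
          push Not
          exact ⟨t, hi⟩
        rw [Finset.prod_eq_zero (Finset.mem_univ i), mul_zero]
        unfold Bmat
        rw [if_neg h4]
      · rw [hA2] at h2
        unfold Bmat
        rw [if_neg h2, zero_mul]
    rw [this]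
    simp

/-- a permutation satisfies the condition of the `i`-th term: time `0` is low, the times
`1, ..., i` are not (`g` sends a time to a rank) -/
def Low (k i : ℕ) {e : ℕ} (g : Equiv.Perm (Fin (e + 1))) : Prop :=
  (g 0 : ℕ) < k ∧ ∀ j : Fin (e + 1), 0 < (j : ℕ) → (j : ℕ) ≤ i → ¬ (g j : ℕ) < k

instance (k i : ℕ) {e : ℕ} (g : Equiv.Perm (Fin (e + 1))) : Decidable (Low k i g) := by
  unfold Low; infer_instance

/-- the table sum of the `i`-th term -/
def TL {K : Type*} [CommRing K] (q : K) (b : ℕ) {e : ℕ} (al : ℕ → Fin (e + 1) → ℕ) (k i : ℕ) : K :=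
  ∑ τ : Fin (b + 1) → Equiv.Perm (Fin (e + 1)),
    if Adj al τ ∧ Low k i (τ 0) then q ^ TT al τ else 0

lemma predc_full {e : ℕ} (a : Fin (e + 1) → ℕ) (k : ℕ) (ha : ∀ p, k ≤ a p) (r : Fin (e + 1))
    (hr : (r : ℕ) < k) : predc a r = e + 1 := by
  unfold predc
  rw [filter_true_of_mem (fun p _ => lt_of_lt_of_le hr (ha p))]
  simp

lemma TL_eq {K : Type*} [CommRing K] (q : K) {b e : ℕ}
    (al : ℕ → Fin (e + 1) → ℕ) (hmono : ∀ i, Monotone (al i)) (k : ℕ) (hk : ∀ p, k ≤ al b p)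
    (i : ℕ) :
    TL q b al k i = q ^ (e + 1) * q ^ ((b + 1) * NN e) *
      ∑ c : Equiv.Perm (Fin (e + 1)), if Low k i c⁻¹ then
        PB q al (b + 1) ((finRotate (e + 1))⁻¹ * c) c else 0 := by
  classical
  have h1 : TL q b al k i = ∑ g : Equiv.Perm (Fin (e + 1)), if Low k i g then
      (∑ τ : Fin (b + 1) → Equiv.Perm (Fin (e + 1)),
        if Adj al τ ∧ τ 0 = g then q ^ TT al τ else 0) else 0 := by
    have h2 : ∀ g : Equiv.Perm (Fin (e + 1)), (if Low k i g then
      (∑ τ : Fin (b + 1) → Equiv.Perm (Fin (e + 1)),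
        if Adj al τ ∧ τ 0 = g then q ^ TT al τ else 0) else 0) =
        ∑ τ : Fin (b + 1) → Equiv.Perm (Fin (e + 1)),
          if g = τ 0 then (if Adj al τ ∧ Low k i (τ 0) then q ^ TT al τ else 0) else 0 := by
      intro g
      by_cases hg : Low k i g
      · rw [if_pos hg]
        refine sum_congr rfl fun τ _ => ?_
        by_cases h3 : g = τ 0
        · rw [if_pos h3]
          subst h3
          by_cases h4 : Adj al τ
          · rw [if_pos ⟨h4, rfl⟩, if_pos ⟨h4, hg⟩]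
          · rw [if_neg (fun h => h4 h.1), if_neg (fun h => h4 h.1)]
        · rw [if_neg (fun h => h3 h.2.symm), if_neg h3]
      · rw [if_neg hg]
        symm
        refine sum_eq_zero fun τ _ => ?_
        by_cases h3 : g = τ 0
        · rw [if_pos h3, if_neg (fun h => hg (h3 ▸ h.2))]
        · rw [if_neg h3]
    rw [sum_congr rfl fun g _ => h2 g, sum_comm]
    unfold TL
    refine sum_congr rfl fun τ _ => ?_
    rw [sum_ite_eq' univ (τ 0)]
    rw [if_pos (mem_univ _)]
  rw [h1, mul_sum, ← Equiv.sum_comp (Equiv.inv (Equiv.Perm (Fin (e + 1))))]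
  refine sum_congr rfl fun c _ => ?_
  have h0 : (Equiv.inv (Equiv.Perm (Fin (e + 1)))) c = c⁻¹ := rfl
  rw [h0]
  by_cases hc : Low k i c⁻¹
  · rw [if_pos hc, if_pos hc, PP_fixed q al hmono, predc_full _ k hk _ hc.1, inv_inv, mul_assoc]
  · rw [if_neg hc, if_neg hc, mul_zero]

/-- row symmetry of a product of boards whose last board is large -/
lemma Bmat_row {K : Type*} [CommRing K] (q : K) {e : ℕ} (a : Fin (e + 1) → ℕ) (k : ℕ)
    (ha : ∀ p, k ≤ a p) (s : Equiv.Perm (Fin (e + 1)))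
    (hs : ∀ p, (s p : ℕ) < k ↔ (p : ℕ) < k) (hs' : ∀ p : Fin (e + 1), ¬ (p : ℕ) < k → s p = p)
    (c' c : Equiv.Perm (Fin (e + 1))) :
    Bmat q a (c' * s) c = Bmat q a c' c := by
  have hinv : ∀ x : Fin (e + 1), ((s⁻¹ x : Fin (e + 1)) : ℕ) < k ↔ (x : ℕ) < k := by
    intro x
    rw [← hs (s⁻¹ x), self_inv']
  have hinv' : ∀ x : Fin (e + 1), ¬ (x : ℕ) < k → s⁻¹ x = x := by
    intro x hx
    rw [Equiv.Perm.inv_eq_iff_eq, hs' x hx]
  have key : ∀ (y p : Fin (e + 1)), (((c' * s)⁻¹ y : Fin (e + 1)) : ℕ) < a p ↔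
      ((c'⁻¹ y : Fin (e + 1)) : ℕ) < a p := by
    intro y p
    rw [mul_inv_rev, Equiv.Perm.mul_apply]
    by_cases hx : ((c'⁻¹ y : Fin (e + 1)) : ℕ) < k
    · exact ⟨fun _ => lt_of_lt_of_le hx (ha p),
        fun _ => lt_of_lt_of_le ((hinv _).2 hx) (ha p)⟩
    · rw [hinv' _ hx]
  unfold Bmat
  simp only [key]

lemma PB_row {K : Type*} [CommRing K] (q : K) {b e : ℕ} (al : ℕ → Fin (e + 1) → ℕ) (k : ℕ)
    (ha : ∀ p, k ≤ al b p) (s : Equiv.Perm (Fin (e + 1)))
    (hs : ∀ p, (s p : ℕ) < k ↔ (p : ℕ) < k) (hs' : ∀ p : Fin (e + 1), ¬ (p : ℕ) < k → s p = p)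
    (c' c : Equiv.Perm (Fin (e + 1))) :
    PB q al (b + 1) (c' * s) c = PB q al (b + 1) c' c := by
  have h : PB q al (b + 1) = Bmat q (al b) * PB q al b := rfl
  rw [h, Matrix.mul_apply, Matrix.mul_apply]
  refine sum_congr rfl fun x _ => ?_
  rw [Bmat_row q (al b) k ha s hs hs']

lemma PB_row_sw {K : Type*} [CommRing K] (q : K) {b e : ℕ} (al : ℕ → Fin (e + 1) → ℕ) (k : ℕ)
    (ha : ∀ p, k ≤ al b p) (i : ℕ) (h : i + 1 < e + 1) (hi : i + 1 < k)
    (c' c : Equiv.Perm (Fin (e + 1))) :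
    PB q al (b + 1) (c' * sw (e + 1) i h) c = PB q al (b + 1) c' c := by
  refine PB_row q al k ha (sw (e + 1) i h) ?_ ?_ c' c
  · intro p
    unfold sw
    rw [Equiv.swap_apply_def]
    split_ifs with h1 h2
    · subst h1; simp only; omega
    · subst h2; simp only; omega
    · exact Iff.rfl
  · intro p hp
    unfold sw
    refine Equiv.swap_apply_of_ne_of_ne ?_ ?_
    · rintro rfl; simp only at hp; omega
    · rintro rfl; simp only at hp; omega

end FR

end Pool.Agent.Lib.MP_0e7911_co_h50
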