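import Pool.Agent.Lib.MP_0e7911_co_h56.FRTable

/-!
# The first return identity for tables, from the Hecke identity
-/

set_option autoImplicit false

namespace Pool.Agent.Lib.MP_0e7911_co_h50

open Finset

namespace FR

open H6

/-- The Hecke identity (proved elsewhere), as a statement about one field element `q`. -/
def GapStmt {K : Type*} [Field K] (q : K) (e : ℕ) : Prop :=
  ∀ X : Matrix (Equiv.Perm (Fin (e + 1))) (Equiv.Perm (Fin (e + 1))) K, Comm q X →
    ∀ k : ℕ, 0 < k → k ≤ e + 1 →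
      (∀ (i : ℕ) (h : i + 1 < e + 1), i + 1 < k → ∀ c' c, X (c' * sw (e + 1) i h) c = X c' c) →
      ∑ i ∈ range (e + 1), q ^ i * ∑ c : Equiv.Perm (Fin (e + 1)),
        (if Low k i c⁻¹ then X ((finRotate (e + 1))⁻¹ * c) c else 0) =
      (∑ i ∈ range (e + 1), q ^ i) * Lam 0 X

lemma low_zero_sum {K : Type*} [CommRing K] {e : ℕ} (k : ℕ)
    (X : Matrix (Equiv.Perm (Fin (e + 1))) (Equiv.Perm (Fin (e + 1))) K) :
    (∑ c : Equiv.Perm (Fin (e + 1)),
      if Low k 0 c⁻¹ then X ((finRotate (e + 1))⁻¹ * c) c else 0) =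
    ∑ r : Fin (e + 1), if (r : ℕ) < k then Lam r X else 0 := by
  classical
  have h1 : ∀ c : Equiv.Perm (Fin (e + 1)), (if Low k 0 c⁻¹ then
      X ((finRotate (e + 1))⁻¹ * c) c else 0) =
      ∑ r : Fin (e + 1), if r = c⁻¹ 0 then (if (r : ℕ) < k then
        X ((finRotate (e + 1))⁻¹ * c) c else 0) else 0 := by
    intro c
    rw [sum_ite_eq' univ (c⁻¹ 0), if_pos (mem_univ _)]
    have : Low k 0 c⁻¹ ↔ ((c⁻¹ 0 : Fin (e + 1)) : ℕ) < k := by
      unfold Low
      constructor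
      · rintro ⟨h, _⟩; exact h
      · intro h
        exact ⟨h, fun j h1 h2 => absurd h2 (by omega)⟩
    by_cases h : ((c⁻¹ 0 : Fin (e + 1)) : ℕ) < k
    · rw [if_pos (this.2 h), if_pos h]
    · rw [if_neg (fun h' => h (this.1 h')), if_neg h]
  rw [sum_congr rfl fun c _ => h1 c, sum_comm]
  refine sum_congr rfl fun r _ => ?_
  by_cases hr : (r : ℕ) < k
  · rw [if_pos hr]
    unfold Lam
    refine sum_congr rfl fun c _ => ?_
    rw [if_pos hr]
    have h2 : r = c⁻¹ 0 ↔ ((c r : Fin (e + 1)) : ℕ) = 0 := by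
      constructor
      · intro h
        rw [h, self_inv']
        rfl
      · intro h
        rw [Equiv.Perm.eq_inv_iff_eq]
        exact Fin.ext h
    by_cases h3 : r = c⁻¹ 0
    · rw [if_pos h3, if_pos (h2.1 h3)]
    · rw [if_neg h3, if_neg (fun h => h3 (h2.2 h))]
  · rw [if_neg hr]
    refine sum_eq_zero fun c _ => ?_
    rw [if_neg hr, ite_self]

lemma sum_low {K : Type*} [CommRing K] (q : K) {e : ℕ} (k : ℕ) (hk : k ≤ e + 1) (L : K) :
    (∑ r : Fin (e + 1), if (r : ℕ) < k then q ^ (r : ℕ) * L else 0) =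
      (∑ r ∈ range k, q ^ r) * L := by
  rw [Fin.sum_univ_eq_sum_range (fun r => if r < k then q ^ r * L else 0), ← sum_filter,
    sum_mul]
  refine sum_congr ?_ fun _ _ => rfl
  ext r
  simp only [mem_filter, mem_range]
  omega

/-- the first return identity for tables -/
theorem TL_first {K : Type*} [Field K] (q : K) (hq : q ≠ 0) {b e : ℕ} (hgap : GapStmt q e)
    (al : ℕ → Fin (e + 1) → ℕ) (hmono : ∀ i, Monotone (al i)) (k : ℕ) (hk0 : 0 < k)
    (hk1 : k ≤ e + 1) (hk : ∀ p, k ≤ al b p) :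
    (∑ r ∈ range k, q ^ r) * ∑ i ∈ range (e + 1), q ^ i * TL q b al k i =
      (∑ r ∈ range (e + 1), q ^ r) * TL q b al k 0 := by
  have hC : Comm q (PB q al (b + 1)) := PB_comm q al (fun i => Bmat_comm q _ (hmono i)) _
  have h1 := hgap (PB q al (b + 1)) hC k hk0 hk1 (fun i h hi c' c => PB_row_sw q al k hk i h hi c' c)
  have h2 : ∑ i ∈ range (e + 1), q ^ i * TL q b al k i = q ^ (e + 1) * q ^ ((b + 1) * NN e) *
      ((∑ i ∈ range (e + 1), q ^ i) * Lam 0 (PB q al (b + 1))) := by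
    rw [← h1, mul_sum]
    refine sum_congr rfl fun i _ => ?_
    rw [TL_eq q al hmono k hk i]
    ring
  have h3 : TL q b al k 0 = q ^ (e + 1) * q ^ ((b + 1) * NN e) *
      ((∑ r ∈ range k, q ^ r) * Lam 0 (PB q al (b + 1))) := by
    rw [TL_eq q al hmono k hk 0, low_zero_sum, ← sum_low q k hk1]
    congr 1
    refine sum_congr rfl fun r _ => ?_
    by_cases hr : (r : ℕ) < k
    · rw [if_pos hr, if_pos hr, Lam_shift hq _ hC r]
    · rw [if_neg hr, if_neg hr]
  rw [h2, h3]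
  ring

end FR

end Pool.Agent.Lib.MP_0e7911_co_h50
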