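import Pool.Agent.Lib.MP_0e7911_co_h56.TstTK

set_option autoImplicit false

namespace Pool.Agent.Lib.MP_0e7911_co_h50

open Finset

namespace M7d

/-- consecutive increase in the lexicographic sense propagates -/
lemma lex_chain {β : Type*} [LinearOrder β] {n N : ℕ} (x : Fin n → β) (w : Fin n → Fin N)
    (h : ∀ k l : Fin n, (k : ℕ) + 1 = l → (x k < x l ∨ (x k = x l ∧ w k < w l))) :
    ∀ k l : Fin n, k < l → (x k < x l ∨ (x k = x l ∧ w k < w l)) := by
  have key : ∀ d : ℕ, ∀ k l : Fin n, (k : ℕ) + 1 + d = l →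
      (x k < x l ∨ (x k = x l ∧ w k < w l)) := by
    intro d
    induction d with
    | zero => intro k l hkl; exact h k l (by omega)
    | succ d ih =>
      intro k l hkl
      have hl := l.isLt
      have hm : (k : ℕ) + 1 + d < n := by omega
      have h1 := ih k ⟨(k : ℕ) + 1 + d, hm⟩ rfl
      have h2 := h ⟨(k : ℕ) + 1 + d, hm⟩ l (by simp only; omega)
      rcases h1 with h1 | h1 <;> rcases h2 with h2 | h2
      · left; exact h1.trans h2
      · left; exact h1.trans_eq h2.1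
      · left; exact h1.1.trans_lt h2
      · right; exact ⟨h1.1.trans h2.1, h1.2.trans h2.2⟩
  intro k l hkl
  rw [Fin.lt_def] at hkl
  exact key ((l : ℕ) - k - 1) k l (by omega)

variable {e b a N : ℕ}

lemma step_iff (x : Fin ((e + 1) * (b + 1)) → ℕ) (w : Fin ((e + 1) * (b + 1)) → Fin N) (S : ℤ)
    (i i' : Fin (b + 1)) (t t' : Fin (e + 1))
    (h : ((pos t i : Fin ((e + 1) * (b + 1))) : ℕ) + 1 =
      ((pos t' i' : Fin ((e + 1) * (b + 1))) : ℕ)) :
    RK ((e + 1) * a) (keyf ((e + 1) * a) x w S i t) (keyf ((e + 1) * a) x w S i' t') ↔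
      (x (pos t i) < x (pos t' i') ∨ (x (pos t i) = x (pos t' i') ∧ w (pos t i) < w (pos t' i'))) := by
  rw [keyf_RK]
  unfold lam
  rw [← h]
  have hn : (0 : ℤ) < (((e + 1) * (b + 1) : ℕ) : ℤ) := by positivity
  generalize hn' : (((e + 1) * (b + 1) : ℕ) : ℤ) = n at hn ⊢
  push_cast
  constructor
  · rintro (h | ⟨h, h'⟩)
    · left
      have : n * (x (pos t i) : ℤ) < n * (x (pos t' i') : ℤ) := by linarith
      exact_mod_cast lt_of_mul_lt_mul_left this hn.le
    · right
      refine ⟨?_, h'⟩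
      have : n * (x (pos t i) : ℤ) = n * (x (pos t' i') : ℤ) := by linarith
      exact_mod_cast mul_left_cancel₀ hn.ne' this
  · rintro (h | ⟨h, h'⟩)
    · left
      have h2 : (x (pos t i) : ℤ) < (x (pos t' i') : ℤ) := by exact_mod_cast h
      have := mul_lt_mul_of_pos_left h2 hn
      linarith
    · right
      refine ⟨?_, h'⟩
      rw [h]; ring

lemma pos_castSucc (t : Fin (e + 1)) (i : Fin b) :
    ((pos t i.castSucc : Fin ((e + 1) * (b + 1))) : ℕ) + 1 =
      ((pos t i.succ : Fin ((e + 1) * (b + 1))) : ℕ) := by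
  rw [pos_val, pos_val]; simp; ring

lemma pos_last (t : Fin (e + 1)) (h : (t : ℕ) < e) :
    ((pos t (Fin.last b) : Fin ((e + 1) * (b + 1))) : ℕ) + 1 =
      ((pos (t + 1) 0 : Fin ((e + 1) * (b + 1))) : ℕ) := by
  have : ((t + 1 : Fin (e + 1)) : ℕ) = (t : ℕ) + 1 := by
    rw [Fin.val_add_one_of_lt]
    rw [Fin.lt_def]; simpa using h
  rw [pos_val, pos_val, this]; simp; ring

lemma exists_pos (k : Fin ((e + 1) * (b + 1))) : ∃ (t : Fin (e + 1)) (i : Fin (b + 1)),
    k = pos t i :=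
  ⟨(finProdFinEquiv.symm k).1, (finProdFinEquiv.symm k).2,
    (Equiv.apply_symm_apply finProdFinEquiv k).symm⟩

/-- consecutive positions -/
lemma pos_succ_cases (t t' : Fin (e + 1)) (i i' : Fin (b + 1))
    (h : ((pos t i : Fin ((e + 1) * (b + 1))) : ℕ) + 1 =
      ((pos t' i' : Fin ((e + 1) * (b + 1))) : ℕ)) :
    (∃ ι : Fin b, i = ι.castSucc ∧ i' = ι.succ ∧ t' = t) ∨
      (i = Fin.last b ∧ i' = 0 ∧ (t : ℕ) < e ∧ t' = t + 1) := by
  have hi := i.isLt
  have hi' := i'.isLt
  have ht' := t'.isLt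
  by_cases hc : (i : ℕ) < b
  · left
    have h1 := pos_castSucc (e := e) t ⟨i, hc⟩
    have h2 : (⟨i, hc⟩ : Fin b).castSucc = i := by apply Fin.ext; simp
    rw [h2, h] at h1
    have h3 : (pos t' i' : Fin ((e + 1) * (b + 1))) = pos t (⟨i, hc⟩ : Fin b).succ := Fin.ext h1
    have h4 := finProdFinEquiv.injective h3
    rw [Prod.mk.injEq] at h4
    exact ⟨⟨i, hc⟩, h2.symm, h4.2, h4.1⟩
  · right
    have hil : i = Fin.last b := by apply Fin.ext; simp; omega
    subst hil
    rw [pos_val, pos_val] at h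
    simp only [Fin.val_last] at h
    have hte : (t : ℕ) < e := by
      by_contra hte
      have h5 : (b + 1) * e ≤ (b + 1) * (t : ℕ) := Nat.mul_le_mul_left _ (by omega)
      have h6 : (b + 1) * (t' : ℕ) ≤ (b + 1) * e := Nat.mul_le_mul_left _ (by omega)
      omega
    have h1 := pos_last (b := b) t hte
    rw [pos_val, Fin.val_last, pos_val] at h1
    have h3 : (pos t' i' : Fin ((e + 1) * (b + 1))) = pos (t + 1) 0 := by
      apply Fin.ext; rw [pos_val, pos_val]; omega
    have h4 := finProdFinEquiv.injective h3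
    rw [Prod.mk.injEq] at h4
    exact ⟨rfl, h4.2, hte, h4.1⟩

/-- the path conditions in terms of keys -/
lemma chain_iff (x : Fin ((e + 1) * (b + 1)) → ℕ) (w : Fin ((e + 1) * (b + 1)) → Fin N) (S : ℤ) :
    (Monotone x ∧ ∀ i j, i < j → x i = x j → w i < w j) ↔
      ((∀ (i : Fin b) (t : Fin (e + 1)), RK ((e + 1) * a)
        (keyf ((e + 1) * a) x w S i.castSucc t) (keyf ((e + 1) * a) x w S i.succ t)) ∧
      (∀ t : Fin (e + 1), (t : ℕ) < e → RK ((e + 1) * a)
        (keyf ((e + 1) * a) x w S (Fin.last b) t) (keyf ((e + 1) * a) x w S 0 (t + 1)))) := by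
  constructor
  · rintro ⟨h1, h2⟩
    have h3 : ∀ k l : Fin ((e + 1) * (b + 1)), k < l → (x k < x l ∨ (x k = x l ∧ w k < w l)) := by
      intro k l hkl
      rcases lt_or_eq_of_le (h1 hkl.le) with h | h
      · left; exact h
      · right; exact ⟨h, h2 k l hkl h⟩
    constructor
    · intro i t
      rw [step_iff x w S _ _ _ _ (pos_castSucc t i)]
      exact h3 _ _ (by rw [Fin.lt_def, ← pos_castSucc]; omega)
    · intro t ht
      rw [step_iff x w S _ _ _ _ (pos_last t ht)]
      exact h3 _ _ (by rw [Fin.lt_def, ← pos_last t ht]; omega)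
  · rintro ⟨h1, h2⟩
    have h3 : ∀ k l : Fin ((e + 1) * (b + 1)), (k : ℕ) + 1 = l →
        (x k < x l ∨ (x k = x l ∧ w k < w l)) := by
      intro k l hkl
      obtain ⟨t, i, rfl⟩ := exists_pos k
      obtain ⟨t', i', rfl⟩ := exists_pos l
      rw [← step_iff (a := a) x w S _ _ _ _ hkl]
      rcases pos_succ_cases t t' i i' hkl with ⟨ι, rfl, rfl, rfl⟩ | ⟨rfl, rfl, hte, rfl⟩
      · exact h1 _ _
      · exact h2 _ hte
    have h4 := lex_chain x w h3
    refine ⟨?_, ?_⟩
    · intro k l hkl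
      rcases lt_or_eq_of_le hkl with h | h
      · rcases h4 k l h with h5 | h5
        · exact h5.le
        · exact h5.1.le
      · rw [h]
    · intro k l hkl hx
      rcases h4 k l hkl with h5 | h5
      · exact absurd hx h5.ne
      · exact h5.2

lemma keyf_lev (x : Fin ((e + 1) * (b + 1)) → ℕ) (w : Fin ((e + 1) * (b + 1)) → Fin N) (S : ℤ)
    (i : Fin (b + 1)) (t : Fin (e + 1)) :
    (keyf ((e + 1) * a) x w S i t).lev = lam ((e + 1) * a) x (pos t i) + S := rfl

lemma keyf_lab (x : Fin ((e + 1) * (b + 1)) → ℕ) (w : Fin ((e + 1) * (b + 1)) → Fin N) (S : ℤ)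
    (i : Fin (b + 1)) (t : Fin (e + 1)) :
    (keyf ((e + 1) * a) x w S i t).lab = w (pos t i) := rfl

lemma key_ext {N : ℕ} {k k' : Key N} (h1 : k.lev = k'.lev) (h2 : k.lab = k'.lab) : k = k' := by
  have h3 : (ofLex k).2 = (ofLex k').2 := OrderDual.ofDual.injective h2
  have : ofLex k = ofLex k' := Prod.ext h1 h3
  exact ofLex.injective this

end M7d

end Pool.Agent.Lib.MP_0e7911_co_h50
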