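import Pool.Agent.Lib.MP_0e7911_co_h50.KeyDefs

set_option autoImplicit false

namespace Pool.Agent.Lib.MP_0e7911_co_h50

open Finset

namespace M7d

lemma dvd_mul_iff' (e b a : ℕ) (hcop : Nat.Coprime a (b + 1)) (z : ℤ) :
    ((((e + 1) * (b + 1) : ℕ) : ℤ)) ∣ (((e + 1) * a : ℕ) : ℤ) * z ↔ ((b + 1 : ℕ) : ℤ) ∣ z := by
  have he : ((e + 1 : ℕ) : ℤ) ≠ 0 := by exact_mod_cast Nat.succ_ne_zero e
  have hc : IsCoprime ((b + 1 : ℕ) : ℤ) (a : ℤ) := by
    rw [Nat.isCoprime_iff_coprime]; exact hcop.symm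
  rw [Nat.cast_mul, Nat.cast_mul, mul_assoc, mul_dvd_mul_iff_left he]
  constructor
  · intro h; exact hc.dvd_of_dvd_mul_left h
  · intro h; exact Dvd.dvd.mul_left h _

lemma class_eq_iff (b : ℕ) (i i' : Fin (b + 1)) (z : ℤ) :
    ((b + 1 : ℕ) : ℤ) ∣ ((i' : ℕ) : ℤ) - ((i : ℕ) : ℤ) + ((b + 1 : ℕ) : ℤ) * z ↔ i = i' := by
  rw [dvd_add_left (dvd_mul_right _ _)]
  constructor
  · intro h
    have h1 := i.isLt
    have h2 := i'.isLt
    have h3 := Int.eq_zero_of_abs_lt_dvd h (by rw [abs_lt]; constructor <;> push_cast <;> omega)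
    apply Fin.ext
    omega
  · rintro rfl; simp

lemma class_succ_iff (b : ℕ) (i i' : Fin (b + 1)) (z : ℤ) :
    ((b + 1 : ℕ) : ℤ) ∣ ((i' : ℕ) : ℤ) + 1 - ((i : ℕ) : ℤ) + ((b + 1 : ℕ) : ℤ) * z ↔
      ((i' : ℕ) + 1 = i ∨ ((i : ℕ) = 0 ∧ (i' : ℕ) = b)) := by
  rw [dvd_add_left (dvd_mul_right _ _)]
  have h1 := i.isLt
  have h2 := i'.isLt
  constructor
  · rintro ⟨c, hc⟩
    push_cast at hc
    have hc1 : c < 2 := by
      by_contra h
      push Not at h
      nlinarith
    have hc2 : -1 < c := by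
      by_contra h
      push Not at h
      nlinarith
    obtain rfl | rfl : c = 0 ∨ c = 1 := by omega
    · left; omega
    · right; omega
  · rintro (h | ⟨h, h'⟩)
    · rw [← h]; push_cast; simp
    · rw [h, h']; push_cast; simp

variable {e b a N : ℕ}

/-- position of the element of class `i` in round `t` -/
abbrev pos (t : Fin (e + 1)) (i : Fin (b + 1)) : Fin ((e + 1) * (b + 1)) := finProdFinEquiv (t, i)

lemma pos_val (t : Fin (e + 1)) (i : Fin (b + 1)) :
    ((pos t i : Fin ((e + 1) * (b + 1))) : ℕ) = (i : ℕ) + (b + 1) * (t : ℕ) := by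
  simp [pos]

lemma pos_lt_iff (t t' : Fin (e + 1)) (i i' : Fin (b + 1)) :
    (pos t i : Fin ((e + 1) * (b + 1))) < pos t' i' ↔ (t < t' ∨ (t = t' ∧ i < i')) := by
  have h1 := i.isLt
  have h2 := i'.isLt
  rw [Fin.lt_def, pos_val, pos_val, Fin.lt_def, Fin.lt_def, Fin.ext_iff]
  constructor
  · intro h
    rcases lt_trichotomy (t : ℕ) t' with h3 | h3 | h3
    · left; exact h3
    · right; refine ⟨h3, ?_⟩; rw [h3] at h; omega
    · exfalso
      have : (b + 1) * (t' : ℕ) + (b + 1) ≤ (b + 1) * t := by nlinarith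
      omega
  · rintro (h | ⟨h, h'⟩)
    · have : (b + 1) * (t : ℕ) + (b + 1) ≤ (b + 1) * t' := by nlinarith
      omega
    · rw [h]; omega

variable (x : Fin ((e + 1) * (b + 1)) → ℕ) (w : Fin ((e + 1) * (b + 1)) → Fin N)

lemma lam_pos (a : ℕ) (t : Fin (e + 1)) (i : Fin (b + 1)) :
    lam ((e + 1) * a) x (pos t i) =
      (((e + 1) * a : ℕ) : ℤ) * (((i : ℕ) : ℤ) + ((b + 1 : ℕ) : ℤ) * ((t : ℕ) : ℤ)) -
        (((e + 1) * (b + 1) : ℕ) : ℤ) * (x (pos t i) : ℤ) := by
  unfold lam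
  rw [pos_val]
  push_cast
  ring

lemma dvd1 (hcop : Nat.Coprime a (b + 1)) (t t' : Fin (e + 1)) (i i' : Fin (b + 1)) :
    ((((e + 1) * (b + 1) : ℕ) : ℤ)) ∣
      lam ((e + 1) * a) x (pos t i) - lam ((e + 1) * a) x (pos t' i') ↔ i = i' := by
  rw [lam_pos, lam_pos]
  have e1 : (((e + 1) * a : ℕ) : ℤ) * (((i : ℕ) : ℤ) + ((b + 1 : ℕ) : ℤ) * ((t : ℕ) : ℤ)) -
        (((e + 1) * (b + 1) : ℕ) : ℤ) * (x (pos t i) : ℤ) -
      ((((e + 1) * a : ℕ) : ℤ) * (((i' : ℕ) : ℤ) + ((b + 1 : ℕ) : ℤ) * ((t' : ℕ) : ℤ)) -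
        (((e + 1) * (b + 1) : ℕ) : ℤ) * (x (pos t' i') : ℤ)) =
      (((e + 1) * a : ℕ) : ℤ) * ((((i : ℕ) : ℤ) - ((i' : ℕ) : ℤ)) +
        ((b + 1 : ℕ) : ℤ) * (((t : ℕ) : ℤ) - ((t' : ℕ) : ℤ))) +
      (((e + 1) * (b + 1) : ℕ) : ℤ) * ((x (pos t' i') : ℤ) - (x (pos t i) : ℤ)) := by ring
  rw [e1, dvd_add_left (dvd_mul_right _ _), dvd_mul_iff' e b a hcop, class_eq_iff]
  exact eq_comm

lemma dvd2 (hcop : Nat.Coprime a (b + 1)) (t t' : Fin (e + 1)) (i i' : Fin (b + 1)) :
    ((((e + 1) * (b + 1) : ℕ) : ℤ)) ∣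
      lam ((e + 1) * a) x (pos t' i') + (((e + 1) * a : ℕ) : ℤ) - lam ((e + 1) * a) x (pos t i) ↔
      ((i' : ℕ) + 1 = i ∨ ((i : ℕ) = 0 ∧ (i' : ℕ) = b)) := by
  rw [lam_pos, lam_pos]
  have e1 : (((e + 1) * a : ℕ) : ℤ) * (((i' : ℕ) : ℤ) + ((b + 1 : ℕ) : ℤ) * ((t' : ℕ) : ℤ)) -
        (((e + 1) * (b + 1) : ℕ) : ℤ) * (x (pos t' i') : ℤ) + (((e + 1) * a : ℕ) : ℤ) -
      ((((e + 1) * a : ℕ) : ℤ) * (((i : ℕ) : ℤ) + ((b + 1 : ℕ) : ℤ) * ((t : ℕ) : ℤ)) -
        (((e + 1) * (b + 1) : ℕ) : ℤ) * (x (pos t i) : ℤ)) =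
      (((e + 1) * a : ℕ) : ℤ) * ((((i' : ℕ) : ℤ) + 1 - ((i : ℕ) : ℤ)) +
        ((b + 1 : ℕ) : ℤ) * (((t' : ℕ) : ℤ) - ((t : ℕ) : ℤ))) +
      (((e + 1) * (b + 1) : ℕ) : ℤ) * ((x (pos t i) : ℤ) - (x (pos t' i') : ℤ)) := by ring
  rw [e1, dvd_add_left (dvd_mul_right _ _), dvd_mul_iff' e b a hcop, class_succ_iff]

lemma key_lt_iff {N : ℕ} (l l' : ℤ) (u u' : Fin N) :
    ((toLex (l', OrderDual.toDual u') : Key N) < toLex (l, OrderDual.toDual u)) ↔
      (l' < l ∨ (l = l' ∧ u < u')) := by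
  rw [Prod.Lex.toLex_lt_toLex]
  simp only [OrderDual.toDual_lt_toDual]
  constructor
  · rintro (h | ⟨h, h'⟩)
    · left; exact h
    · right; exact ⟨h.symm, h'⟩
  · rintro (h | ⟨h, h'⟩)
    · left; exact h
    · right; exact ⟨h.symm, h'⟩

lemma keyf_lt (S : ℤ) (i i' : Fin (b + 1)) (t t' : Fin (e + 1)) :
    keyf ((e + 1) * a) x w S i' t' < keyf ((e + 1) * a) x w S i t ↔
      (lam ((e + 1) * a) x (pos t' i') < lam ((e + 1) * a) x (pos t i) ∨
        (lam ((e + 1) * a) x (pos t i) = lam ((e + 1) * a) x (pos t' i') ∧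
          w (pos t i) < w (pos t' i'))) := by
  unfold keyf
  rw [key_lt_iff]
  constructor
  · rintro (h | ⟨h, h'⟩)
    · left; linarith
    · right; exact ⟨by linarith, h'⟩
  · rintro (h | ⟨h, h'⟩)
    · left; linarith
    · right; exact ⟨by linarith, h'⟩

lemma keyf_RK (S : ℤ) (i i' : Fin (b + 1)) (t t' : Fin (e + 1)) :
    RK ((e + 1) * a) (keyf ((e + 1) * a) x w S i' t') (keyf ((e + 1) * a) x w S i t) ↔
      (lam ((e + 1) * a) x (pos t i) < lam ((e + 1) * a) x (pos t' i') + (((e + 1) * a : ℕ) : ℤ) ∨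
        (lam ((e + 1) * a) x (pos t i) =
            lam ((e + 1) * a) x (pos t' i') + (((e + 1) * a : ℕ) : ℤ) ∧
          w (pos t' i') < w (pos t i))) := by
  unfold RK keyf Key.lev Key.lab
  simp only [ofLex_toLex, OrderDual.ofDual_toDual]
  constructor
  · rintro (h | ⟨h, h'⟩)
    · left; linarith
    · right; exact ⟨by linarith, h'⟩
  · rintro (h | ⟨h, h'⟩)
    · left; linarith
    · right; exact ⟨by linarith, h'⟩

lemma reidx (P : Fin ((e + 1) * (b + 1)) × Fin ((e + 1) * (b + 1)) → Prop) [DecidablePred P] :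
      (univ.filter P).card = ∑ i : Fin (b + 1), ∑ i' : Fin (b + 1),
        ∑ st : Fin (e + 1) × Fin (e + 1), if P (pos st.1 i, pos st.2 i') then 1 else 0 := by
  rw [Finset.card_filter, ← Equiv.sum_comp (Equiv.prodCongr finProdFinEquiv finProdFinEquiv)]
  simp only [Fintype.sum_prod_type, Equiv.prodCongr_apply, Prod.map_apply]
  rw [Finset.sum_comm]
  refine Finset.sum_congr rfl (fun i _ => ?_)
  rw [Finset.sum_comm (s := (univ : Finset (Fin (b + 1))))]
  refine Finset.sum_congr rfl (fun t _ => ?_)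
  exact Finset.sum_comm

theorem Tst_eq_TK (hcop : Nat.Coprime a (b + 1)) (S : ℤ) :
    Tst ((e + 1) * a) x w = TK (RK ((e + 1) * a)) (keyf ((e + 1) * a) x w S) := by
  unfold Tst TK
  rw [add_assoc (∑ i, _)]
  congr 1
  · rw [reidx]
    refine Finset.sum_congr rfl (fun i _ => ?_)
    rw [Finset.sum_eq_single i]
    · rw [Finset.card_filter]
      refine Finset.sum_congr rfl (fun st _ => ?_)
      refine if_congr ?_ rfl rfl
      rw [dvd1 x hcop, keyf_lt, pos_lt_iff]
      constructor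
      · rintro ⟨h1, _, h2⟩
        refine ⟨?_, h2⟩
        rcases h1 with h1 | h1
        · exact h1
        · exact absurd h1.2 (lt_irrefl _)
      · rintro ⟨h1, h2⟩
        exact ⟨Or.inl h1, rfl, h2⟩
    · intro i' _ hi'
      refine Finset.sum_eq_zero (fun st _ => ?_)
      rw [if_neg]
      rintro ⟨_, h, _⟩
      rw [dvd1 x hcop] at h
      exact hi' h.symm
    · intro h; exact absurd (mem_univ _) h
  · rw [reidx, Fin.sum_univ_succ, add_comm]
    congr 1
    · refine Finset.sum_congr rfl (fun i _ => ?_)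
      rw [Finset.sum_eq_single i.castSucc]
      · rw [Finset.card_filter]
        refine Finset.sum_congr rfl (fun st _ => ?_)
        refine if_congr ?_ rfl rfl
        rw [dvd2 x hcop, keyf_RK]
        constructor
        · rintro ⟨h1, _, h2⟩
          refine ⟨?_, h2⟩
          rcases lt_or_eq_of_le h1 with h | h
          · rw [pos_lt_iff] at h
            rcases h with h | h
            · exact h
            · exfalso
              have := h.2
              rw [Fin.lt_def] at this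
              simp at this
          · exfalso
            have := congrArg (fun z => ((finProdFinEquiv.symm z).2 : Fin (b + 1))) h
            simp only [pos, Equiv.symm_apply_apply] at this
            have h3 := congrArg Fin.val this
            simp at h3
        · rintro ⟨h1, h2⟩
          refine ⟨le_of_lt ((pos_lt_iff _ _ _ _).2 (Or.inl h1)), Or.inl (by simp), h2⟩
      · intro i' _ hi'
        refine Finset.sum_eq_zero (fun st _ => ?_)
        rw [if_neg]
        rintro ⟨_, h, _⟩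
        rw [dvd2 x hcop] at h
        rcases h with h | h
        · apply hi'
          apply Fin.ext
          simp at h
          simpa using h
        · exact absurd h.1 (by simp)
      · intro h; exact absurd (mem_univ _) h
    · rw [Finset.sum_eq_single (Fin.last b)]
      · rw [Finset.card_filter]
        refine Finset.sum_congr rfl (fun st _ => ?_)
        refine if_congr ?_ rfl rfl
        rw [dvd2 x hcop, keyf_RK]
        constructor
        · rintro ⟨h1, _, h2⟩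
          refine ⟨?_, h2⟩
          by_contra hlt
          have h3 : (pos st.2 (Fin.last b) : Fin ((e + 1) * (b + 1))) < pos st.1 0 :=
            (pos_lt_iff _ _ _ _).2 (Or.inl (not_le.1 hlt))
          exact absurd h1 (not_le.2 h3)
        · rintro ⟨h1, h2⟩
          refine ⟨?_, Or.inr (by simp), h2⟩
          by_contra hlt
          have h3 := (pos_lt_iff _ _ _ _).1 (not_le.1 hlt)
          rcases h3 with h3 | h3
          · exact absurd h1 (not_le.2 h3)
          · exact absurd h3.2 (by simp)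
      · intro i' _ hi'
        refine Finset.sum_eq_zero (fun st _ => ?_)
        rw [if_neg]
        rintro ⟨_, h, _⟩
        rw [dvd2 x hcop] at h
        rcases h with h | h
        · simp at h
        · apply hi'
          apply Fin.ext
          simpa using h.2
      · intro h; exact absurd (mem_univ _) h

end M7d

end Pool.Agent.Lib.MP_0e7911_co_h50
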